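import Pool.Agent.Y657.EM.Main

set_option autoImplicit false

open Matrix MeasureTheory Filter Topology

namespace Pool.Agent.Y657.EM

/-- `u` and its signed derivatives up to order two. -/
noncomputable def sder (u : ℝ → ℝ) : ℕ → ℝ → ℝ
  | 0 => u
  | 1 => fun σ => -deriv u σ
  | 2 => deriv (deriv u)
  | _ => fun _ => 0

theorem hasDerivAt_pe (s : Finset ℕ) (c : ℕ → ℝ) (j : ℕ) (σ : ℝ) :
    HasDerivAt (pe s c j) (-pe s c (j + 1) σ) σ := by
  have h : ∀ m ∈ s, HasDerivAt (fun σ : ℝ => c m * ((m : ℝ) ^ j * Real.exp (-σ) ^ m))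
      (-(c m * ((m : ℝ) ^ (j + 1) * Real.exp (-σ) ^ m))) σ := by
    intro m _
    have h1 : HasDerivAt (fun σ : ℝ => Real.exp (-σ) ^ m) (-(m : ℝ) * Real.exp (-σ) ^ m) σ := by
      have e : (fun σ : ℝ => Real.exp (-σ) ^ m) = fun σ => Real.exp (-((m : ℝ) * σ)) := by
        ext σ
        rw [← Real.exp_nat_mul]
        congr 1
        ring
      rw [e]
      have h2 : HasDerivAt (fun σ : ℝ => -((m : ℝ) * σ)) (-(m : ℝ)) σ := by
        simpa using ((hasDerivAt_id σ).const_mul (m : ℝ)).fun_neg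
      have h3 := h2.exp
      have e2 : Real.exp (-σ) ^ m = Real.exp (-((m : ℝ) * σ)) := congrFun e σ
      rw [e2, mul_comm]
      exact h3
    have h4 := (h1.const_mul ((m : ℝ) ^ j)).const_mul (c m)
    refine h4.congr_deriv ?_
    ring
  have := HasDerivAt.fun_sum h
  unfold pe
  refine this.congr_deriv ?_
  rw [Finset.sum_neg_distrib]

theorem tendsto_pe (s : Finset ℕ) (c : ℕ → ℝ) (j : ℕ) :
    Tendsto (pe s c j) atTop (𝓝 (∑ m ∈ s, c m * ((m : ℝ) ^ j * if m = 0 then 1 else 0))) := by
  unfold pe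
  refine tendsto_finsetSum _ fun m _ => ?_
  refine Tendsto.const_mul _ (Tendsto.const_mul _ ?_)
  by_cases hm : m = 0
  · subst hm; simp
  · rw [if_neg hm]
    have h1 : Tendsto (fun σ : ℝ => Real.exp (-σ)) atTop (𝓝 0) :=
      Real.tendsto_exp_atBot.comp tendsto_neg_atTop_atBot
    have := h1.pow m
    rwa [zero_pow hm] at this

/-- Integration of an exponential bound. -/
theorem bound_step {E G : ℝ → ℝ} {η : ℝ} (hE : ∀ σ, HasDerivAt E (-G σ) σ)
    (hlim : Tendsto E atTop (𝓝 0)) (hG : ∀ σ, 0 ≤ σ → |G σ| ≤ η * Real.exp (-σ)) :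
    ∀ σ, 0 ≤ σ → |E σ| ≤ η * Real.exp (-σ) := by
  have hexp : Tendsto (fun σ : ℝ => η * Real.exp (-σ)) atTop (𝓝 0) := by
    have h1 : Tendsto (fun σ : ℝ => Real.exp (-σ)) atTop (𝓝 0) :=
      Real.tendsto_exp_atBot.comp tendsto_neg_atTop_atBot
    simpa using h1.const_mul η
  have hd : ∀ σ, HasDerivAt (fun σ : ℝ => η * Real.exp (-σ)) (-(η * Real.exp (-σ))) σ := by
    intro σ
    have h2 : HasDerivAt (fun σ : ℝ => -σ) (-1) σ := by
      simpa using (hasDerivAt_id σ).fun_neg
    have h3 := h2.exp.const_mul η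
    refine h3.congr_deriv ?_
    ring
  intro σ hσ
  rw [abs_le]
  constructor
  · -- E + η e is antitone and tends to zero
    have hanti : AntitoneOn (fun σ => E σ + η * Real.exp (-σ)) (Set.Ici 0) := by
      apply antitoneOn_of_deriv_nonpos (convex_Ici 0)
      · exact fun x _ => ((hE x).fun_add (hd x)).continuousAt.continuousWithinAt
      · exact fun x _ => ((hE x).fun_add (hd x)).differentiableAt.differentiableWithinAt
      · intro x hx
        rw [interior_Ici] at hx
        rw [((hE x).fun_add (hd x)).deriv]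
        have := (abs_le.1 (hG x (le_of_lt hx))).1
        linarith
    have hl : Tendsto (fun σ => E σ + η * Real.exp (-σ)) atTop (𝓝 0) := by
      simpa using hlim.add hexp
    have h0 : 0 ≤ E σ + η * Real.exp (-σ) := by
      refine le_of_tendsto hl ?_
      filter_upwards [eventually_ge_atTop σ] with x hx
      exact hanti hσ (le_trans hσ hx) hx
    linarith
  · have hmono : MonotoneOn (fun σ => E σ - η * Real.exp (-σ)) (Set.Ici 0) := by
      apply monotoneOn_of_deriv_nonneg (convex_Ici 0)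
      · exact fun x _ => ((hE x).fun_sub (hd x)).continuousAt.continuousWithinAt
      · exact fun x _ => ((hE x).fun_sub (hd x)).differentiableAt.differentiableWithinAt
      · intro x hx
        rw [interior_Ici] at hx
        rw [((hE x).fun_sub (hd x)).deriv]
        have := (abs_le.1 (hG x (le_of_lt hx))).2
        linarith
    have hl : Tendsto (fun σ => E σ - η * Real.exp (-σ)) atTop (𝓝 0) := by
      simpa using hlim.sub hexp
    have h0 : E σ - η * Real.exp (-σ) ≤ 0 := by
      refine ge_of_tendsto hl ?_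
      filter_upwards [eventually_ge_atTop σ] with x hx
      exact hmono hσ (le_trans hσ hx) hx
    linarith

theorem approx_smooth {u : ℝ → ℝ} (hu : ContDiff ℝ 2 u) {S : ℝ} {u0 : ℝ}
    (hS : ∀ σ, S ≤ σ → u σ = u0) : Approx 2 (sder u) := by
  intro η hη
  have hd1 : Differentiable ℝ u := hu.differentiable (by norm_num)
  have hu1 : ContDiff ℝ 1 (deriv u) := by
    have : ContDiff ℝ (1 + 1) u := by simpa [one_add_one_eq_two] using hu
    exact (contDiff_succ_iff_deriv.1 this).2.2
  have hd2 : Differentiable ℝ (deriv u) := hu1.differentiable (by norm_num)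
  have hc2 : Continuous (deriv (deriv u)) := by
    have : ContDiff ℝ (0 + 1) (deriv u) := by simpa using hu1
    exact (contDiff_succ_iff_deriv.1 this).2.2.continuous
  have hz1 : ∀ σ, S < σ → deriv u σ = 0 := by
    intro σ hσ
    have : u =ᶠ[𝓝 σ] fun _ => u0 := by
      filter_upwards [lt_mem_nhds hσ] with x hx using hS x hx.le
    rw [this.deriv_eq, deriv_const]
  have hz2 : ∀ σ, S < σ → deriv (deriv u) σ = 0 := by
    intro σ hσ
    have : deriv u =ᶠ[𝓝 σ] fun _ => 0 := by
      filter_upwards [lt_mem_nhds hσ] with x hx using hz1 x hx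
    rw [this.deriv_eq, deriv_const]
  set ε := Real.exp (-(S + 1)) with hε
  have hε0 : 0 < ε := Real.exp_pos _
  set v : ℝ → ℝ := fun y => deriv (deriv u) (-Real.log (max y ε)) / max y ε with hv
  have hmax : ∀ y, 0 < max y ε := fun y => lt_of_lt_of_le hε0 (le_max_right _ _)
  have hvc : Continuous v := by
    refine Continuous.div ?_ (by fun_prop) fun y => (hmax y).ne'
    refine hc2.comp (Continuous.neg ?_)
    exact Continuous.log (by fun_prop) fun y => (hmax y).ne'
  have hvy : ∀ σ : ℝ, deriv (deriv u) σ = Real.exp (-σ) * v (Real.exp (-σ)) := by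
    intro σ
    rw [hv]
    by_cases h : ε ≤ Real.exp (-σ)
    · beta_reduce
      rw [max_eq_left h, Real.log_exp, neg_neg, mul_div_cancel₀]
      exact (Real.exp_pos _).ne'
    · push Not at h
      have hσ : S + 1 < σ := by
        have := Real.exp_lt_exp.1 h
        linarith
      beta_reduce
      rw [max_eq_right h.le, hε, Real.log_exp, neg_neg, hz2 σ (by linarith),
        hz2 (S + 1) (by linarith), zero_div, mul_zero]
  obtain ⟨p, hp⟩ := exists_polynomial_near_of_continuousOn 0 1 v hvc.continuousOn η hη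
  set N := p.natDegree + 1 with hN
  set c : ℕ → ℝ := fun m => if m = 0 then u0 else p.coeff (m - 1) / (m : ℝ) ^ 2 with hc
  set s := Finset.range (N + 1) with hs
  have hpe2 : ∀ σ, pe s c 2 σ = Real.exp (-σ) * p.eval (Real.exp (-σ)) := by
    intro σ
    unfold pe
    rw [hs, Finset.sum_range_succ', Polynomial.eval_eq_sum_range, Finset.mul_sum]
    simp only [Nat.cast_zero, ne_eq, OfNat.ofNat_ne_zero, not_false_eq_true, zero_pow, zero_mul,
      mul_zero, add_zero]
    refine Finset.sum_congr rfl fun m _ => ?_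
    rw [hc]
    beta_reduce
    rw [if_neg (Nat.succ_ne_zero m), Nat.add_sub_cancel]
    have : ((m + 1 : ℕ) : ℝ) ≠ 0 := by positivity
    field_simp
    ring
  have hb2 : ∀ σ, 0 ≤ σ → |sder u 2 σ - pe s c 2 σ| ≤ η * Real.exp (-σ) := by
    intro σ hσ
    have e : sder u 2 σ = deriv (deriv u) σ := rfl
    rw [e, hpe2, hvy σ, ← mul_sub, abs_mul, abs_of_pos (Real.exp_pos _), mul_comm]
    refine mul_le_mul_of_nonneg_right ?_ (Real.exp_pos _).le
    rw [abs_sub_comm]
    refine (hp (Real.exp (-σ)) ⟨(Real.exp_pos _).le, ?_⟩).le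
    rw [Real.exp_le_one_iff]
    linarith
  have hlim1 : Tendsto (fun σ => sder u 1 σ - pe s c 1 σ) atTop (𝓝 0) := by
    have h1 : Tendsto (sder u 1) atTop (𝓝 0) := by
      refine tendsto_const_nhds.congr' ?_
      filter_upwards [eventually_gt_atTop S] with σ hσ
      change (0 : ℝ) = -deriv u σ
      rw [hz1 σ hσ, neg_zero]
    have h2 := tendsto_pe s c 1
    have h3 : (∑ m ∈ s, c m * ((m : ℝ) ^ 1 * if m = 0 then 1 else 0)) = 0 := by
      refine Finset.sum_eq_zero fun m _ => ?_
      by_cases hm : m = 0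
      · subst hm; simp
      · simp [hm]
    rw [h3] at h2
    simpa using h1.sub h2
  have hb1 : ∀ σ, 0 ≤ σ → |sder u 1 σ - pe s c 1 σ| ≤ η * Real.exp (-σ) := by
    refine bound_step (G := fun σ => sder u 2 σ - pe s c 2 σ) (fun σ => ?_) hlim1 hb2
    have h1 : HasDerivAt (sder u 1) (-sder u 2 σ) σ := (hd2 σ).hasDerivAt.neg
    have h2 := hasDerivAt_pe s c 1 σ
    refine (h1.sub h2).congr_deriv ?_
    ring
  have hlim0 : Tendsto (fun σ => sder u 0 σ - pe s c 0 σ) atTop (𝓝 0) := by
    have h1 : Tendsto (sder u 0) atTop (𝓝 u0) := by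
      refine tendsto_const_nhds.congr' ?_
      filter_upwards [eventually_gt_atTop S] with σ hσ
      exact (hS σ hσ.le).symm
    have h2 := tendsto_pe s c 0
    have h3 : (∑ m ∈ s, c m * ((m : ℝ) ^ 0 * if m = 0 then 1 else 0)) = u0 := by
      rw [Finset.sum_eq_single 0]
      · simp [hc]
      · intro m _ hm; simp [hm]
      · intro h; exact absurd (Finset.mem_range.2 (Nat.succ_pos _)) h
    rw [h3] at h2
    simpa using h1.sub h2
  have hb0 : ∀ σ, 0 ≤ σ → |sder u 0 σ - pe s c 0 σ| ≤ η * Real.exp (-σ) := by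
    refine bound_step (G := fun σ => sder u 1 σ - pe s c 1 σ) (fun σ => ?_) hlim0 hb1
    have h1 : HasDerivAt (sder u 0) (-sder u 1 σ) σ := by
      have := (hd1 σ).hasDerivAt
      refine this.congr_deriv ?_
      change deriv u σ = - -deriv u σ
      ring
    have h2 := hasDerivAt_pe s c 0 σ
    refine (h1.sub h2).congr_deriv ?_
    ring
  refine ⟨s, c, fun j hj σ hσ => ?_⟩
  have he : η * Real.exp (-σ) ≤ η := by
    refine mul_le_of_le_one_right hη.le ?_
    rw [Real.exp_le_one_iff]
    linarith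
  interval_cases j
  · exact (hb0 σ hσ).trans he
  · exact (hb1 σ hσ).trans he
  · exact (hb2 σ hσ).trans he

theorem Approx.mono {K K' : ℕ} {f : ℕ → ℝ → ℝ} (h : Approx K f) (hK : K' ≤ K) :
    Approx K' f := by
  intro η hη
  obtain ⟨s, c, hsc⟩ := h η hη
  exact ⟨s, c, fun j hj => hsc j (hj.trans hK)⟩

end Pool.Agent.Y657.EM
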