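import Pool.Agent.Y657.EM.Heat4

set_option autoImplicit false

open MeasureTheory Filter
open scoped Topology

namespace Pool.Agent.Y657.EM

variable {c : ℝ}

/-- The chain weight. -/
noncomputable def W (c : ℝ) (n : ℕ) (g : ℕ → E3 → ℝ) (y : Fin (n + 1) → E3) : ℝ :=
  (∏ i : Fin (n + 1), g i (y i)) * ∏ i : Fin n, gk c (y i.succ - y i.castSucc)

/-- The iterated transfer. -/
noncomputable def Hs (c : ℝ) (g : ℕ → E3 → ℝ) : ℕ → E3 → ℝ
  | 0 => g 0
  | n + 1 => fun x => g (n + 1) x * P c (Hs c g n) x

/-- shifting the first factor into the second -/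
noncomputable def sh (g : ℕ → E3 → ℝ) (q : E3 → ℝ) : ℕ → E3 → ℝ
  | 0 => fun x => g 1 x * q x
  | n + 1 => g (n + 2)

theorem Hs_sh (c : ℝ) (g : ℕ → E3 → ℝ) (n : ℕ) :
    Hs c (sh g (P c (g 0))) n = Hs c g (n + 1) := by
  induction n with
  | zero => rfl
  | succ n ih =>
    change (fun x => sh g (P c (g 0)) (n + 1) x * P c (Hs c (sh g (P c (g 0))) n) x) = _
    rw [ih]
    rfl

theorem continuous_W (c : ℝ) (n : ℕ) {g : ℕ → E3 → ℝ} (hg : ∀ i, Continuous (g i)) :
    Continuous (W c n g) := by
  unfold W
  refine Continuous.mul ?_ ?_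
  · exact continuous_finsetProd _ fun i _ => (hg i).comp (continuous_apply i)
  · exact continuous_finsetProd _ fun i _ => (continuous_gk c).comp (by fun_prop)

/-- the remaining weight after removing the first vertex -/
noncomputable def W' (c : ℝ) (n : ℕ) (g : ℕ → E3 → ℝ) (y : Fin (n + 1) → E3) : ℝ :=
  (∏ i : Fin (n + 1), g (i + 1) (y i)) * ∏ i : Fin n, gk c (y i.succ - y i.castSucc)

theorem W_succ (c : ℝ) (n : ℕ) (g : ℕ → E3 → ℝ) (y : Fin (n + 2) → E3) :
    W c (n + 1) g y = g 0 (y 0) * gk c (y 1 - y 0) * W' c n g (fun i => y i.succ) := by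
  unfold W W'
  rw [Fin.prod_univ_succ, Fin.prod_univ_succ (n := n) (fun i => gk c (y i.succ - y i.castSucc))]
  simp only [Fin.val_zero, Fin.castSucc_zero, Fin.val_succ]
  have h1 : (Fin.succ (0 : Fin (n + 1))) = 1 := rfl
  rw [h1]
  have h2 : ∀ i : Fin n, gk c (y (Fin.succ i).succ - y (Fin.succ i).castSucc) =
      gk c (y (Fin.succ i).succ - y (Fin.castSucc i).succ) := fun i => by
    rw [Fin.succ_castSucc]
  simp only [h2]
  ring

theorem W_sh (c : ℝ) (n : ℕ) (g : ℕ → E3 → ℝ) (q : E3 → ℝ) (y : Fin (n + 1) → E3) :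
    W c n (sh g q) y = q (y 0) * W' c n g y := by
  unfold W W'
  rw [Fin.prod_univ_succ, Fin.prod_univ_succ (fun i : Fin (n + 1) => g (i + 1) (y i))]
  simp only [sh, Fin.val_zero, Fin.val_succ]
  ring

theorem chain_int (hc : 0 < c) (n : ℕ) : ∀ (g : ℕ → E3 → ℝ), Nc (g 0) → (∀ i, Bc (g i)) →
    Integrable (W c n g) ∧ ∫ y, W c n g y = ∫ x, Hs c g n x := by
  induction n with
  | zero =>
    intro g h0 _
    have mp := volume_preserving_funUnique (Fin 1) E3
    have e : W c 0 g = fun y => g 0 ((MeasurableEquiv.funUnique (Fin 1) E3) y) := by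
      ext y
      change (∏ i : Fin 1, g i (y i)) * (∏ i : Fin 0, gk c (y i.succ - y i.castSucc)) = _
      rw [Fin.prod_univ_one, Fin.prod_univ_zero, mul_one]
      rfl
    constructor
    · rw [e]
      exact (mp.integrable_comp_emb (MeasurableEquiv.measurableEmbedding _)).2 h0.int
    · rw [e]
      exact mp.integral_comp (MeasurableEquiv.measurableEmbedding _) (g 0)
  | succ n ih =>
    intro g h0 hg
    have mp := volume_preserving_piFinSuccAbove (fun _ : Fin (n + 2) => E3) 0
    set e := MeasurableEquiv.piFinSuccAbove (fun _ : Fin (n + 2) => E3) 0 with he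
    set F : E3 × (Fin (n + 1) → E3) → ℝ :=
      fun p => g 0 p.1 * gk c (p.2 0 - p.1) * W' c n g p.2 with hF
    have hWF : W c (n + 1) g = fun y => F (e y) := by
      ext y
      rw [W_succ]
      rfl
    have hP0 := P_Nc hc h0
    have hP0a := P_Nc hc h0.abs
    have hsh : ∀ q : E3 → ℝ, Nc q → Nc (sh g q 0) ∧ ∀ i, Bc (sh g q i) := by
      intro q hq
      have h1 : Nc (sh g q 0) := (hg 1).mul_Nc hq
      refine ⟨h1, fun i => ?_⟩
      cases i with
      | zero => exact h1.toBc
      | succ i => exact hg (i + 2)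
    have ih1 := ih (sh g (P c (g 0))) (hsh _ hP0).1 (hsh _ hP0).2
    have ih2 := ih (sh g (P c (fun x => |g 0 x|))) (hsh _ hP0a).1 (hsh _ hP0a).2
    have hW'c : Continuous (W' c n g) := by
      unfold W'
      refine Continuous.mul ?_ ?_
      · exact continuous_finsetProd _ fun i _ => (hg _).cont.comp (continuous_apply i)
      · exact continuous_finsetProd _ fun i _ => (continuous_gk c).comp (by fun_prop)
    have hFc : Continuous F := by
      rw [hF]
      refine Continuous.mul (Continuous.mul ?_ ?_) (hW'c.comp continuous_snd)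
      · exact h0.cont.comp continuous_fst
      · exact (continuous_gk c).comp (by fun_prop)
    have hx : ∀ (w : E3 → ℝ) (y : Fin (n + 1) → E3),
        ∫ x, w x * gk c (y 0 - x) * W' c n g y = W c n (sh g (P c w)) y := by
      intro w y
      rw [integral_mul_const, W_sh]
      congr 1
      unfold P
      refine integral_congr_ae (Eventually.of_forall fun x => ?_)
      simp only; ring
    have hFi : Integrable F (volume.prod volume) := by
      rw [integrable_prod_iff' hFc.aestronglyMeasurable]
      constructor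
      · refine Eventually.of_forall fun y => ?_
        simp only [hF]
        refine Integrable.mul_const ?_ _
        refine h0.int.mul_bdd (c := (ZZ c)⁻¹) ?_ ?_
        · exact ((continuous_gk c).comp (by fun_prop)).aestronglyMeasurable
        · refine Eventually.of_forall fun x => ?_
          rw [Real.norm_of_nonneg (gk_pos hc _).le]
          exact gk_le hc _
      · refine ih2.1.norm.congr (Eventually.of_forall fun y => ?_)
        simp only [hF]
        rw [← hx]
        have e1 : ∀ x, ‖g 0 x * gk c (y 0 - x) * W' c n g y‖ =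
            |g 0 x| * gk c (y 0 - x) * ‖W' c n g y‖ := by
          intro x
          rw [norm_mul, norm_mul, Real.norm_of_nonneg (gk_pos hc _).le, Real.norm_eq_abs (g 0 x)]
        simp only [e1]
        rw [integral_mul_const, integral_mul_const, norm_mul]
        congr 1
        refine Real.norm_of_nonneg (integral_nonneg fun x => ?_)
        exact mul_nonneg (abs_nonneg _) (gk_pos hc _).le
    constructor
    · rw [hWF]
      exact (mp.integrable_comp_emb (MeasurableEquiv.measurableEmbedding _)).2 hFi
    · rw [hWF]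
      have h1 := mp.integral_comp (MeasurableEquiv.measurableEmbedding _) F
      rw [← Hs_sh, ← ih1.2]
      refine h1.trans ?_
      have h2 : ∫ p : E3 × (Fin (n + 1) → E3), F p =
          ∫ p, F p ∂((volume : Measure E3).prod (volume : Measure (Fin (n + 1) → E3))) := rfl
      have h3 := integral_prod_symm F hFi
      refine (h2.trans h3).trans ?_
      refine integral_congr_ae (Eventually.of_forall fun y => ?_)
      exact hx (g 0) y

end Pool.Agent.Y657.EM
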