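import Pool.Agent.Y657.EM.Main

set_option autoImplicit false

open Matrix MeasureTheory MvPolynomial

namespace Pool.Agent.Y657.EM

variable {n : ℕ}

/-- matrix unit -/
def EE (a b : Fin n) : Fin n → Fin n → ℝ := fun i j => if i = a ∧ j = b then 1 else 0

theorem sum_EE (a b : Fin n) (g : Fin n → Fin n → ℝ) :
    ∑ i, ∑ j, g i j * EE a b i j = g a b := by
  unfold EE
  rw [Finset.sum_eq_single a]
  · rw [Finset.sum_eq_single b]
    · simp
    · intro j _ hj; simp [hj]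
    · intro h; exact absurd (Finset.mem_univ _) h
  · intro i _ hi
    refine Finset.sum_eq_zero fun j _ => ?_
    simp [hi]
  · intro h; exact absurd (Finset.mem_univ _) h

theorem qf_EE (L : Matrix (Fin n) (Fin n) ℝ) (t : Fin n → ℝ) (a b : Fin n) :
    qf L t (EE a b) = (1 / 2) * (t a * t b * (L + diagonal t)⁻¹ a b) := by
  unfold qf
  rw [sum_EE a b (fun a b => t a * t b * (L + diagonal t)⁻¹ a b)]

theorem qf_lin (L : Matrix (Fin n) (Fin n) ℝ) (t : Fin n → ℝ) (δ : Fin n → Fin n → ℝ) :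
    qf L t δ = ∑ a, ∑ b, δ a b * qf L t (EE a b) := by
  simp only [qf_EE]
  unfold qf
  simp only [Finset.mul_sum]
  refine Finset.sum_congr rfl fun a _ => Finset.sum_congr rfl fun b _ => ?_
  ring

/-- derivative of `GG` -/
noncomputable def GD (L : Matrix (Fin n) (Fin n) ℝ) (κ : Fin n → ℝ) (s : Finset ℕ)
    (c : Fin n → ℕ → ℝ) (Δ δ : Fin n → Fin n → ℝ) : ℝ :=
  ∑ m ∈ Fintype.piFinset (fun _ : Fin n => s), (∏ a, c a (m a)) *
    (((√(L + diagonal (fun a => κ a + (m a : ℝ))).det)⁻¹) ^ 3 *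
            (Real.exp (-qf L (fun a => κ a + (m a : ℝ)) Δ) *
              (-qf L (fun a => κ a + (m a : ℝ)) δ)))

theorem GD_lin (L : Matrix (Fin n) (Fin n) ℝ) (κ : Fin n → ℝ) (s : Finset ℕ)
    (c : Fin n → ℕ → ℝ) (Δ δ : Fin n → Fin n → ℝ) :
    GD L κ s c Δ δ = ∑ a, ∑ b, δ a b * GD L κ s c Δ (EE a b) := by
  unfold GD
  simp only [Finset.mul_sum]
  have h1 : ∀ a, ∑ b, ∑ m ∈ Fintype.piFinset (fun _ : Fin n => s), δ a b *
      ((∏ a, c a (m a)) * (((√(L + diagonal (fun a => κ a + (m a : ℝ))).det)⁻¹) ^ 3 *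
        (Real.exp (-qf L (fun a => κ a + (m a : ℝ)) Δ) *
          (-qf L (fun a => κ a + (m a : ℝ)) (EE a b))))) =
      ∑ m ∈ Fintype.piFinset (fun _ : Fin n => s), ∑ b, δ a b *
      ((∏ a, c a (m a)) * (((√(L + diagonal (fun a => κ a + (m a : ℝ))).det)⁻¹) ^ 3 *
        (Real.exp (-qf L (fun a => κ a + (m a : ℝ)) Δ) *
          (-qf L (fun a => κ a + (m a : ℝ)) (EE a b))))) := fun a => Finset.sum_comm
  simp only [h1]
  rw [Finset.sum_comm]
  refine Finset.sum_congr rfl fun m _ => ?_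
  rw [qf_lin L _ δ, ← Finset.sum_neg_distrib, Finset.mul_sum, Finset.mul_sum, Finset.mul_sum]
  refine Finset.sum_congr rfl fun a _ => ?_
  rw [← Finset.sum_neg_distrib, Finset.mul_sum, Finset.mul_sum, Finset.mul_sum]
  refine Finset.sum_congr rfl fun b _ => ?_
  ring

theorem GD_hasDerivAt (L : Matrix (Fin n) (Fin n) ℝ) (κ : Fin n → ℝ) (s : Finset ℕ)
    (c : Fin n → ℕ → ℝ) (Δ δ : Fin n → Fin n → ℝ) :
    HasDerivAt (fun τ : ℝ => GG L κ s c (fun a b => Δ a b + τ * δ a b)) (GD L κ s c Δ δ) 0 := by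
  have hd : ∀ m : Fin n → ℕ, HasDerivAt
      (fun τ : ℝ => (∏ a, c a (m a)) *
        (((√(L + diagonal (fun a => κ a + (m a : ℝ))).det)⁻¹) ^ 3 *
            Real.exp (-qf L (fun a => κ a + (m a : ℝ)) (fun a b => Δ a b + τ * δ a b))))
      ((∏ a, c a (m a)) *
        (((√(L + diagonal (fun a => κ a + (m a : ℝ))).det)⁻¹) ^ 3 *
            (Real.exp (-qf L (fun a => κ a + (m a : ℝ)) Δ) *
              (-qf L (fun a => κ a + (m a : ℝ)) δ)))) 0 := by
    intro m
    refine HasDerivAt.const_mul _ (HasDerivAt.const_mul _ ?_)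
    simp only [qf_affine]
    have h1 : HasDerivAt (fun τ : ℝ => -(qf L (fun a => κ a + (m a : ℝ)) Δ
        + τ * qf L (fun a => κ a + (m a : ℝ)) δ)) (-qf L (fun a => κ a + (m a : ℝ)) δ) 0 := by
      have := (((hasDerivAt_id (0 : ℝ)).mul_const (qf L (fun a => κ a + (m a : ℝ)) δ)).const_add
        (qf L (fun a => κ a + (m a : ℝ)) Δ)).fun_neg
      simpa using this
    have h2 := h1.exp
    simpa using h2
  have hsum := HasDerivAt.fun_sum (u := Fintype.piFinset (fun _ : Fin n => s))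
    (fun m _ => hd m)
  exact hsum

theorem exp_neg_quad {x : ℝ} (hx : 0 ≤ x) : |Real.exp (-x) - 1 + x| ≤ x ^ 2 := by
  have h1 : 1 - x ≤ Real.exp (-x) := by
    have := Real.add_one_le_exp (-x)
    linarith
  have h2 : Real.exp (-x) ≤ 1 - x + x ^ 2 := by
    rw [Real.exp_neg, inv_le_comm₀ (Real.exp_pos _) (by nlinarith)]
    have h3 := Real.add_one_le_exp x
    refine le_trans ?_ h3
    rw [inv_le_comm₀ (by nlinarith) (by linarith)]
    rw [inv_le_iff_one_le_mul₀ (by linarith)]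
    nlinarith [mul_nonneg hx (sq_nonneg x)]
  rw [abs_le]
  constructor
  · nlinarith [sq_nonneg x]
  · linarith

theorem GG_step {L : Matrix (Fin n) (Fin n) ℝ} {κ : Fin n → ℝ} (h : Tied L κ)
    (s : Finset ℕ) (c : Fin n → ℕ → ℝ) : ∃ C : ℝ, 0 ≤ C ∧ ∀ Δ δ : Fin n → Fin n → ℝ,
      (∀ a b, 0 ≤ Δ a b) → (∀ a b, 0 ≤ δ a b) →
      GG L κ s c (fun a b => Δ a b + δ a b) - GG L κ s c Δ ≤
        GD L κ s c Δ δ + C * (∑ a, ∑ b, δ a b) ^ 2 := by
  have hpd : ∀ m : Fin n → ℕ, (L + diagonal (fun a => κ a + (m a : ℝ))).PosDef := fun m =>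
    h.add _ fun a => Nat.cast_nonneg _
  have hnn : ∀ (m : Fin n → ℕ) a, 0 ≤ κ a + (m a : ℝ) := fun m a =>
    add_nonneg (h.nonneg a) (Nat.cast_nonneg _)
  have hEE : ∀ (m : Fin n → ℕ) a b, 0 ≤ qf L (fun a => κ a + (m a : ℝ)) (EE a b) := by
    intro m a b
    refine qf_nonneg h.lap (hnn m) (hpd m) fun i j => ?_
    unfold EE; split_ifs <;> norm_num
  refine ⟨∑ m ∈ Fintype.piFinset (fun _ : Fin n => s), |(∏ a, c a (m a)) *
    ((√(L + diagonal (fun a => κ a + (m a : ℝ))).det)⁻¹) ^ 3| *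
      (∑ a, ∑ b, qf L (fun a => κ a + (m a : ℝ)) (EE a b)) ^ 2, ?_, ?_⟩
  · exact Finset.sum_nonneg fun m _ => by positivity
  · intro Δ δ hΔ hδ
    unfold GG GD
    rw [← Finset.sum_sub_distrib, Finset.sum_mul, ← Finset.sum_add_distrib]
    refine Finset.sum_le_sum fun m _ => ?_
    set t : Fin n → ℝ := fun a => κ a + (m a : ℝ) with ht
    set w := (∏ a, c a (m a)) * ((√(L + diagonal t).det)⁻¹) ^ 3 with hw
    have e1 : qf L t (fun a b => Δ a b + δ a b) = qf L t Δ + qf L t δ := by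
      have := qf_affine L t Δ δ 1
      simpa using this
    have hq0 : 0 ≤ qf L t Δ := qf_nonneg h.lap (hnn m) (hpd m) hΔ
    have hx0 : 0 ≤ qf L t δ := qf_nonneg h.lap (hnn m) (hpd m) hδ
    set x := qf L t δ with hx
    have hxle : x ≤ (∑ a, ∑ b, δ a b) * ∑ a, ∑ b, qf L t (EE a b) := by
      rw [hx, qf_lin, Finset.mul_sum]
      refine Finset.sum_le_sum fun a _ => ?_
      rw [Finset.mul_sum]
      refine Finset.sum_le_sum fun b _ => ?_
      refine mul_le_mul_of_nonneg_right ?_ (hEE m a b)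
      have g1 : δ a b ≤ ∑ b, δ a b :=
        Finset.single_le_sum (f := fun b => δ a b) (fun b _ => hδ a b) (Finset.mem_univ b)
      have g2 : ∑ b, δ a b ≤ ∑ a, ∑ b, δ a b :=
        Finset.single_le_sum (f := fun a => ∑ b, δ a b)
          (fun a _ => Finset.sum_nonneg fun b _ => hδ a b) (Finset.mem_univ a)
      exact g1.trans g2
    rw [e1, neg_add, Real.exp_add]
    have e2 : (∏ a, c a (m a)) * (((√(L + diagonal t).det)⁻¹) ^ 3 *
        (Real.exp (-qf L t Δ) * Real.exp (-x))) - (∏ a, c a (m a)) *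
        (((√(L + diagonal t).det)⁻¹) ^ 3 * Real.exp (-qf L t Δ)) =
        (∏ a, c a (m a)) * (((√(L + diagonal t).det)⁻¹) ^ 3 *
          (Real.exp (-qf L t Δ) * (-x))) +
        w * (Real.exp (-qf L t Δ) * (Real.exp (-x) - 1 + x)) := by
      rw [hw]; ring
    rw [e2]
    refine add_le_add le_rfl ?_
    refine (le_abs_self _).trans ?_
    rw [abs_mul w, abs_mul (Real.exp (-qf L t Δ)), abs_of_pos (Real.exp_pos _), mul_assoc]
    refine mul_le_mul_of_nonneg_left ?_ (abs_nonneg _)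
    have g1 : Real.exp (-qf L t Δ) ≤ 1 := by
      rw [Real.exp_le_one_iff]; linarith
    have g2 := exp_neg_quad hx0
    calc Real.exp (-qf L t Δ) * |Real.exp (-x) - 1 + x| ≤ 1 * x ^ 2 :=
          mul_le_mul g1 g2 (abs_nonneg _) zero_le_one
      _ = x ^ 2 := one_mul _
      _ ≤ ((∑ a, ∑ b, δ a b) * ∑ a, ∑ b, qf L t (EE a b)) ^ 2 := pow_le_pow_left₀ hx0 hxle 2
      _ = (∑ a, ∑ b, qf L t (EE a b)) ^ 2 * (∑ a, ∑ b, δ a b) ^ 2 := by ring

/-- A continuous family of squared distance matrices, with nondecreasing entries, realised in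
dimension `D`, from `Δ0` to `Δ1`. -/
def Fam (D : ℕ) (Δ0 Δ1 : Fin n → Fin n → ℝ) : Prop :=
  ∃ Δ : ℝ → Fin n → Fin n → ℝ, (∀ a b, ContinuousOn (fun t => Δ t a b) (Set.Icc 0 1)) ∧
    (∀ a b, MonotoneOn (fun t => Δ t a b) (Set.Icc 0 1)) ∧ Δ 0 = Δ0 ∧ Δ 1 = Δ1 ∧
    ∀ t ∈ Set.Icc (0 : ℝ) 1, ∃ q : Fin n → Fin D → ℝ, ∀ a b,
      Δ t a b = ∑ k, (q a k - q b k) ^ 2

/-- Monotonicity of the chain integrals under continuous expansions of the squared distances
realised in dimension `3 + 2 (k + 1)`. -/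
theorem chain_mono_fam {L : Matrix (Fin n) (Fin n) ℝ} {κ : Fin n → ℝ} (h : Tied L κ) (k : ℕ)
    (f : Fin n → ℕ → ℝ → ℝ) (hcont : ∀ a, Continuous (f a 0))
    (hpos : ∀ a, ∀ j ≤ k + 1, ∀ σ : ℝ, 0 ≤ σ → 0 ≤ f a j σ)
    (B : ℝ) (hB : ∀ a, ∀ j ≤ k + 1, ∀ σ : ℝ, 0 ≤ σ → f a j σ ≤ B)
    (happ : ∀ a, Approx (k + 1) (f a))
    (r r' : Fin n → Fin 3 → ℝ)
    (hfam : Fam (3 + 2 * (k + 1)) (fun a b => ∑ i, (r a i - r b i) ^ 2)
      (fun a b => ∑ i, (r' a i - r' b i) ^ 2)) :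
    ∫ x : Fin n × Fin 3 → ℝ, (∏ a, f a 0 (sq r' x a)) * Real.exp (-Ex L κ r' x) ≤
    ∫ x : Fin n × Fin 3 → ℝ, (∏ a, f a 0 (sq r x a)) * Real.exp (-Ex L κ r x) := by
  classical
  obtain ⟨Δ, hΔc, hΔm, hΔ0, hΔ1, hΔr⟩ := hfam
  have hdiag : ∀ t ∈ Set.Icc (0 : ℝ) 1, ∀ a, Δ t a a = 0 := by
    intro t ht a
    obtain ⟨q, hq⟩ := hΔr t ht
    rw [hq]; simp
  have hΔnn : ∀ t ∈ Set.Icc (0 : ℝ) 1, ∀ a b, 0 ≤ Δ t a b := by
    intro t ht a b
    obtain ⟨q, hq⟩ := hΔr t ht
    rw [hq]; exact Finset.sum_nonneg fun _ _ => sq_nonneg _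
  have hTpow : ∀ j, (∀ α, 0 ≤ coeff α (TT L κ ^ j)) ∧ ∀ a, degreeOf a (TT L κ ^ j) ≤ j := by
    intro j
    induction j with
    | zero =>
      refine ⟨fun α => ?_, fun a => ?_⟩
      · rw [pow_zero, coeff_one]; split_ifs <;> norm_num
      · rw [pow_zero, degreeOf_one]
    | succ j ih =>
      refine ⟨fun α => ?_, fun a => ?_⟩
      · rw [pow_succ]
        exact coeff_nonneg_mul _ _ ih.1 (coeff_TT h.lap h.nonneg) α
      · rw [pow_succ]
        exact (degreeOf_mul_le a _ _).trans (add_le_add (ih.2 a) (degreeOf_TT L κ a))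
  -- bounds
  set B' : ℝ := |B| + 2 with hB'
  have hB'1 : 1 ≤ B' := by have := abs_nonneg B; linarith
  have hfB : ∀ a, ∀ j ≤ k + 1, ∀ σ : ℝ, 0 ≤ σ → |f a j σ| ≤ |B| + 1 := by
    intro a j hj σ hσ
    rw [abs_of_nonneg (hpos a j hj σ hσ)]
    have := hB a j hj σ hσ
    have := le_abs_self B
    linarith
  set D := 3 + 2 * (k + 1) with hD
  set ZD : ℝ := (√Real.pi) ^ (n * D) * ((√(L + diagonal κ).det)⁻¹) ^ D with hZD
  set Z3 : ℝ := (√Real.pi) ^ (n * 3) * ((√(L + diagonal κ).det)⁻¹) ^ 3 with hZ3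
  have hZD0 : 0 ≤ ZD := by positivity
  have hZ30 : 0 ≤ Z3 := by positivity
  -- constants for each pair
  have hpair : ∀ a b : Fin n, ∃ K1 : ℝ, 0 ≤ K1 ∧ (a ≠ b → ∀ (η : ℝ), 0 ≤ η →
      ∀ ψ ψ' : Fin n → ℕ → ℝ,
      (∀ a, ∀ j ≤ k + 1, |ψ a j| ≤ B') → (∀ a, ∀ j ≤ k + 1, |ψ' a j| ≤ B') →
      (∀ a, ∀ j ≤ k + 1, 0 ≤ ψ a j) →
      (∀ a, ∀ j ≤ k + 1, |ψ a j - ψ' a j| ≤ η) →
      -(K1 * η) ≤ SS (NN L κ (EE a b) * TT L κ ^ k) ψ') := by
    intro a b
    by_cases hab : a = b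
    · exact ⟨0, le_rfl, fun h => absurd hab h⟩
    have hδ0 : ∀ i, EE a b i i = 0 := by
      intro i; unfold EE; rw [if_neg]; rintro ⟨h1, h2⟩; exact hab (h1.symm.trans h2)
    have hδp : ∀ i j, 0 ≤ EE a b i j := by
      intro i j; unfold EE; split_ifs <;> norm_num
    have hPc : ∀ α, 0 ≤ coeff α (NN L κ (EE a b) * TT L κ ^ k) :=
      coeff_nonneg_mul _ _ (coeff_NN h.lap h.nonneg hδ0 hδp) (hTpow k).1
    have hPd : ∀ i, degreeOf i (NN L κ (EE a b) * TT L κ ^ k) ≤ k + 1 := by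
      intro i
      refine (degreeOf_mul_le i _ _).trans ?_
      have h1 := degreeOf_NN h.lap.symm κ (EE a b) hδ0 i
      have h2 := (hTpow k).2 i
      omega
    obtain ⟨K1, hK1, hK1'⟩ := SS_close hPd B' hB'1
    refine ⟨K1, hK1, fun _ η hη ψ ψ' h1 h2 h3 h4 => ?_⟩
    have g1 := hK1' η hη ψ ψ' h1 h2 h4
    have g2 : 0 ≤ SS (NN L κ (EE a b) * TT L κ ^ k) ψ := SS_nonneg hPc hPd h3
    have g3 := (abs_le.1 g1).2
    linarith
  choose K1 hK1 hK1' using hpair
  set Ks : ℝ := ∑ a, ∑ b, K1 a b with hKs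
  have hKs0 : 0 ≤ Ks := Finset.sum_nonneg fun a _ => Finset.sum_nonneg fun b _ => hK1 a b
  have hK1s : ∀ a b, K1 a b ≤ Ks := by
    intro a b
    have g1 : K1 a b ≤ ∑ b, K1 a b :=
      Finset.single_le_sum (f := fun b => K1 a b) (fun b _ => hK1 a b) (Finset.mem_univ b)
    have g2 : ∑ b, K1 a b ≤ Ks :=
      Finset.single_le_sum (f := fun a => ∑ b, K1 a b)
        (fun a _ => Finset.sum_nonneg fun b _ => hK1 a b) (Finset.mem_univ a)
    exact g1.trans g2
  set C1 : ℝ := (1 / 2) * ((√Real.pi) ^ (n * D))⁻¹ * (Ks * ZD) with hC1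
  have hC10 : 0 ≤ C1 := by positivity
  set K0 : ℝ := n * B' ^ n with hK0
  have hK00 : 0 ≤ K0 := by positivity
  set σ : ℝ → ℝ := fun t => ∑ a, ∑ b, Δ t a b with hσ
  have hσc : ContinuousOn σ (Set.Icc 0 1) :=
    continuousOn_finsetSum _ fun a _ => continuousOn_finsetSum _ fun b _ => hΔc a b
  have hσm : MonotoneOn σ (Set.Icc 0 1) := fun x hx y hy hxy =>
    Finset.sum_le_sum fun a _ => Finset.sum_le_sum fun b _ => hΔm a b hx hy hxy
  have hS0 : 0 ≤ σ 1 - σ 0 := sub_nonneg.2 (hσm (by simp) (by simp) zero_le_one)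
  -- main estimate
  have main : ∀ η : ℝ, 0 < η → η ≤ 1 →
      (∫ x : Fin n × Fin 3 → ℝ, (∏ a, f a 0 (sq r' x a)) * Real.exp (-Ex L κ r' x)) -
      ∫ x : Fin n × Fin 3 → ℝ, (∏ a, f a 0 (sq r x a)) * Real.exp (-Ex L κ r x) ≤
      ((√Real.pi) ^ (n * 3) * (C1 * (σ 1 - σ 0)) + 2 * (K0 * Z3)) * η := by
    intro η hη hη1
    obtain ⟨s, c, hsc⟩ := approx_common f happ η hη
    have hpeB : ∀ a, ∀ j ≤ k + 1, ∀ σ : ℝ, 0 ≤ σ → |pe s (c a) j σ| ≤ B' := by
      intro a j hj σ hσ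
      have := abs_pe_le hη1 (hfB a) (hsc a) j hj σ hσ
      linarith
    have hfB' : ∀ a, ∀ j ≤ k + 1, ∀ σ : ℝ, 0 ≤ σ → |f a j σ| ≤ B' := by
      intro a j hj σ hσ
      have := hfB a j hj σ hσ
      linarith
    -- derivative bound for each pair
    have hder : ∀ t ∈ Set.Icc (0 : ℝ) 1, ∀ a b, a ≠ b →
        GD L κ s c (Δ t) (EE a b) ≤ C1 * η := by
      intro t ht a b hab
      obtain ⟨q, hq⟩ := hΔr t ht
      have hq' : ∀ i j, Δ t i j + 0 * EE a b i j = ∑ k, (q i k - q j k) ^ 2 := by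
        intro i j
        rw [zero_mul, add_zero]; exact hq i j
      have h1 := (GD_hasDerivAt L κ s c (Δ t) (EE a b)).unique
        (GG_deriv h k s c (Δ t) (EE a b) 0 q hq')
      rw [h1]
      have hi := (integral_SS_pe h (NN L κ (EE a b) * TT L κ ^ k) s c q _ hq').1
      have hlow : -(K1 a b * η) * ∫ x : Fin n × Fin D → ℝ, Real.exp (-Ex L κ q x) ≤
          ∫ x : Fin n × Fin D → ℝ, SS (NN L κ (EE a b) * TT L κ ^ k)
            (fun a j => pe s (c a) j (sq q x a)) * Real.exp (-Ex L κ q x) := by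
        rw [← integral_const_mul]
        refine integral_mono ((integrable_Ex h q).const_mul _) hi fun x => ?_
        refine mul_le_mul_of_nonneg_right ?_ (Real.exp_pos _).le
        exact hK1' a b hab η hη.le (fun a j => f a j (sq q x a))
          (fun a j => pe s (c a) j (sq q x a))
          (fun a j hj => hfB' a j hj _ (sq_nonneg' q x a))
          (fun a j hj => hpeB a j hj _ (sq_nonneg' q x a))
          (fun a j hj => hpos a j hj _ (sq_nonneg' q x a))
          (fun a j hj => hsc a j hj _ (sq_nonneg' q x a))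
      have hZ := integral_Ex_le h q
      have h5 : -(Ks * η * ZD) ≤ ∫ x : Fin n × Fin D → ℝ, SS (NN L κ (EE a b) * TT L κ ^ k)
            (fun a j => pe s (c a) j (sq q x a)) * Real.exp (-Ex L κ q x) := by
        refine le_trans ?_ hlow
        have hZ0 : 0 ≤ ∫ x : Fin n × Fin D → ℝ, Real.exp (-Ex L κ q x) :=
          integral_nonneg fun x => (Real.exp_pos _).le
        have g1 : K1 a b * η * ∫ x : Fin n × Fin D → ℝ, Real.exp (-Ex L κ q x) ≤
            Ks * η * ZD :=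
          mul_le_mul (mul_le_mul_of_nonneg_right (hK1s a b) hη.le) hZ hZ0 (by positivity)
        linarith
      have h6 : (1 / 2) * ((√Real.pi) ^ (n * D))⁻¹ * (-(Ks * η * ZD)) ≤
          (1 / 2) * ((√Real.pi) ^ (n * D))⁻¹ * ∫ x : Fin n × Fin D → ℝ,
            SS (NN L κ (EE a b) * TT L κ ^ k)
              (fun a j => pe s (c a) j (sq q x a)) * Real.exp (-Ex L κ q x) :=
        mul_le_mul_of_nonneg_left h5 (by positivity)
      rw [hC1]
      linarith
    obtain ⟨C2, hC20, hC2⟩ := GG_step h s c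
    have hstep : ∀ t ∈ Set.Icc (0 : ℝ) 1, ∀ t' ∈ Set.Icc (0 : ℝ) 1, t ≤ t' →
        GG L κ s c (Δ t') - GG L κ s c (Δ t) ≤
          C1 * η * (σ t' - σ t) + C2 * (σ t' - σ t) ^ 2 := by
      intro t ht t' ht' htt
      have hδ : ∀ a b, 0 ≤ Δ t' a b - Δ t a b := fun a b => sub_nonneg.2 (hΔm a b ht ht' htt)
      have g1 := hC2 (Δ t) (fun a b => Δ t' a b - Δ t a b) (hΔnn t ht) hδ
      have e1 : (fun a b => Δ t a b + (Δ t' a b - Δ t a b)) = Δ t' := by
        ext a b; ring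
      have e2 : ∑ a, ∑ b, (Δ t' a b - Δ t a b) = σ t' - σ t := by
        simp only [hσ, Finset.sum_sub_distrib]
      rw [e1, e2] at g1
      refine g1.trans (add_le_add ?_ le_rfl)
      rw [GD_lin, ← e2, Finset.mul_sum]
      refine Finset.sum_le_sum fun a _ => ?_
      rw [Finset.mul_sum]
      refine Finset.sum_le_sum fun b _ => ?_
      by_cases hab : a = b
      · subst hab
        rw [hdiag t ht, hdiag t' ht']
        simp
      · rw [mul_comm]
        exact mul_le_mul_of_nonneg_right (hder t ht a b hab) (hδ a b)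
    -- partition
    have hG : GG L κ s c (Δ 1) - GG L κ s c (Δ 0) ≤ C1 * η * (σ 1 - σ 0) := by
      refine le_of_forall_pos_le_add fun ε hε => ?_
      have huc := isCompact_Icc.uniformContinuousOn_of_continuous hσc
      rw [Metric.uniformContinuousOn_iff] at huc
      obtain ⟨δ0, hδ0, hδ⟩ := huc (ε / (C2 * (σ 1 - σ 0) + 1)) (by positivity)
      obtain ⟨N, hN⟩ := exists_nat_gt (1 / δ0)
      have hN0 : 0 < (N : ℝ) := lt_trans (by positivity) hN
      have hmem : ∀ i : ℕ, i ≤ N → ((i : ℝ) / N) ∈ Set.Icc (0 : ℝ) 1 := by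
        intro i hi
        refine ⟨by positivity, ?_⟩
        rw [div_le_one hN0]
        exact_mod_cast hi
      have hind : ∀ i : ℕ, i ≤ N → GG L κ s c (Δ ((i : ℝ) / N)) - GG L κ s c (Δ 0) ≤
          (C1 * η + C2 * (ε / (C2 * (σ 1 - σ 0) + 1))) * (σ ((i : ℝ) / N) - σ 0) := by
        intro i
        induction i with
        | zero => intro _; simp
        | succ i ih =>
          intro hi
          have ih' := ih (by omega)
          have m1 := hmem i (by omega)
          have m2 := hmem (i + 1) hi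
          have hle : (i : ℝ) / N ≤ ((i + 1 : ℕ) : ℝ) / N := by
            push_cast
            exact div_le_div_of_nonneg_right (by linarith) hN0.le
          have g1 := hstep _ m1 _ m2 hle
          have g2 : 0 ≤ σ (((i + 1 : ℕ) : ℝ) / N) - σ ((i : ℝ) / N) :=
            sub_nonneg.2 (hσm m1 m2 hle)
          have g3 : σ (((i + 1 : ℕ) : ℝ) / N) - σ ((i : ℝ) / N) ≤
              ε / (C2 * (σ 1 - σ 0) + 1) := by
            have hd : dist (((i + 1 : ℕ) : ℝ) / N) ((i : ℝ) / N) < δ0 := by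
              rw [Real.dist_eq]
              have : ((i + 1 : ℕ) : ℝ) / N - (i : ℝ) / N = 1 / N := by
                push_cast; field_simp; ring
              rw [this, abs_of_pos (by positivity), div_lt_iff₀ hN0]
              rw [div_lt_iff₀ hδ0] at hN
              linarith
            have := hδ _ m2 _ m1 hd
            rw [Real.dist_eq] at this
            exact (le_abs_self _).trans this.le
          have g4 : C2 * (σ (((i + 1 : ℕ) : ℝ) / N) - σ ((i : ℝ) / N)) ^ 2 ≤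
              C2 * (ε / (C2 * (σ 1 - σ 0) + 1)) *
                (σ (((i + 1 : ℕ) : ℝ) / N) - σ ((i : ℝ) / N)) := by
            rw [pow_two, ← mul_assoc]
            exact mul_le_mul_of_nonneg_right (mul_le_mul_of_nonneg_left g3 hC20) g2
          have e : (C1 * η + C2 * (ε / (C2 * (σ 1 - σ 0) + 1))) *
              (σ (((i + 1 : ℕ) : ℝ) / N) - σ 0) =
              (C1 * η + C2 * (ε / (C2 * (σ 1 - σ 0) + 1))) * (σ ((i : ℝ) / N) - σ 0) +
              (C1 * η * (σ (((i + 1 : ℕ) : ℝ) / N) - σ ((i : ℝ) / N)) +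
              C2 * (ε / (C2 * (σ 1 - σ 0) + 1)) *
                (σ (((i + 1 : ℕ) : ℝ) / N) - σ ((i : ℝ) / N))) := by ring
          rw [e]
          linarith
      have g1 := hind N le_rfl
      rw [div_self hN0.ne'] at g1
      refine g1.trans ?_
      rw [add_mul]
      refine add_le_add le_rfl ?_
      have g2 : 0 < C2 * (σ 1 - σ 0) + 1 := by positivity
      calc C2 * (ε / (C2 * (σ 1 - σ 0) + 1)) * (σ 1 - σ 0)
          = ε * ((C2 * (σ 1 - σ 0)) / (C2 * (σ 1 - σ 0) + 1)) := by ring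
        _ ≤ ε * 1 := by
            refine mul_le_mul_of_nonneg_left ?_ hε.le
            rw [div_le_one g2]
            linarith
        _ = ε := mul_one ε
    -- comparison of integrals
    have hcmp : ∀ (q : Fin n → Fin 3 → ℝ) (Δq : Fin n → Fin n → ℝ)
        (_ : ∀ a b, Δq a b = ∑ i, (q a i - q b i) ^ 2),
        |(∫ x : Fin n × Fin 3 → ℝ, (∏ a, f a 0 (sq q x a)) * Real.exp (-Ex L κ q x)) -
          (√Real.pi) ^ (n * 3) * GG L κ s c Δq| ≤ K0 * Z3 * η := by
      intro q Δq hq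
      rw [← GG_eq h s c q Δq hq]
      have hI := integrable_Ex h q
      have i1 : Integrable (fun x : Fin n × Fin 3 → ℝ =>
          (∏ a, f a 0 (sq q x a)) * Real.exp (-Ex L κ q x)) := by
        refine hI.bdd_mul (c := (|B| + 1) ^ n) ?_ ?_
        · exact (continuous_finsetProd _ fun a _ =>
            (hcont a).comp (continuous_sq q a)).aestronglyMeasurable
        · refine Filter.Eventually.of_forall fun x => ?_
          rw [Real.norm_eq_abs, Finset.abs_prod]
          refine (Finset.prod_le_prod (fun _ _ => abs_nonneg _)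
            (fun a _ => hfB a 0 (Nat.zero_le _) _ (sq_nonneg' q x a))).trans ?_
          simp
      have i2 : Integrable (fun x : Fin n × Fin 3 → ℝ =>
          (∏ a, pe s (c a) 0 (sq q x a)) * Real.exp (-Ex L κ q x)) := by
        refine hI.bdd_mul (c := B' ^ n) ?_ ?_
        · exact (continuous_finsetProd _ fun a _ =>
            (continuous_pe s (c a) 0).comp (continuous_sq q a)).aestronglyMeasurable
        · refine Filter.Eventually.of_forall fun x => ?_
          rw [Real.norm_eq_abs, Finset.abs_prod]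
          refine (Finset.prod_le_prod (fun _ _ => abs_nonneg _)
            (fun a _ => hpeB a 0 (Nat.zero_le _) _ (sq_nonneg' q x a))).trans ?_
          simp
      rw [← integral_sub i1 i2]
      refine (abs_integral_le_integral_abs).trans ?_
      have h1 : ∀ x : Fin n × Fin 3 → ℝ,
          |(∏ a, f a 0 (sq q x a)) * Real.exp (-Ex L κ q x) -
            (∏ a, pe s (c a) 0 (sq q x a)) * Real.exp (-Ex L κ q x)| ≤
          K0 * η * Real.exp (-Ex L κ q x) := by
        intro x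
        rw [← sub_mul, abs_mul, abs_of_pos (Real.exp_pos _)]
        refine mul_le_mul_of_nonneg_right ?_ (Real.exp_pos _).le
        have := abs_prod_sub_prod_le Finset.univ (fun a => f a 0 (sq q x a))
          (fun a => pe s (c a) 0 (sq q x a)) B' η hB'1 hη.le
          (fun a _ => hfB' a 0 (Nat.zero_le _) _ (sq_nonneg' q x a))
          (fun a _ => hpeB a 0 (Nat.zero_le _) _ (sq_nonneg' q x a))
          (fun a _ => hsc a 0 (Nat.zero_le _) _ (sq_nonneg' q x a))
        simpa [hK0] using this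
      refine (integral_mono (i1.sub i2).abs (hI.const_mul (K0 * η)) h1).trans ?_
      rw [integral_const_mul]
      have := mul_le_mul_of_nonneg_left (integral_Ex_le h q) (by positivity : 0 ≤ K0 * η)
      linarith
    have c1 := (abs_le.1 (hcmp r (Δ 0) fun a b => by rw [hΔ0])).1
    have c2 := (abs_le.1 (hcmp r' (Δ 1) fun a b => by rw [hΔ1])).2
    have hpi3 : 0 ≤ (√Real.pi) ^ (n * 3) := by positivity
    have c3 := mul_le_mul_of_nonneg_left hG hpi3
    linarith
  -- let `η → 0`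
  by_contra hcon
  push Not at hcon
  set X := (∫ x : Fin n × Fin 3 → ℝ, (∏ a, f a 0 (sq r' x a)) * Real.exp (-Ex L κ r' x)) -
      ∫ x : Fin n × Fin 3 → ℝ, (∏ a, f a 0 (sq r x a)) * Real.exp (-Ex L κ r x) with hX
  have hX0 : 0 < X := sub_pos.2 hcon
  set C := (√Real.pi) ^ (n * 3) * (C1 * (σ 1 - σ 0)) + 2 * (K0 * Z3) with hC
  have hC0 : 0 ≤ C := by positivity
  have h1 := main (min 1 (X / (2 * (C + 1)))) (by positivity) (min_le_left _ _)
  have h2 : C * min 1 (X / (2 * (C + 1))) ≤ C * (X / (2 * (C + 1))) :=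
    mul_le_mul_of_nonneg_left (min_le_right _ _) hC0
  have h3 : C * (X / (2 * (C + 1))) < X := by
    rw [mul_div_assoc', div_lt_iff₀ (by positivity)]
    nlinarith
  linarith

end Pool.Agent.Y657.EM
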