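import Pool.Agent.Y657.EM.Chain
import Pool.Agent.Y657.EM.Approx
import Pool.Agent.Y657.EM.Main2

set_option autoImplicit false

open MeasureTheory Filter Matrix
open scoped Topology

namespace Pool.Agent.Y657.EM

/-- incidence vector of the `i`-th edge of the path -/
def inc {n : ℕ} (i : Fin n) (a : Fin (n + 1)) : ℝ :=
  (if a = i.succ then 1 else 0) - (if a = i.castSucc then 1 else 0)

theorem sum_inc {n : ℕ} (i : Fin n) (x : Fin (n + 1) → ℝ) :
    ∑ a, inc i a * x a = x i.succ - x i.castSucc := by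
  unfold inc
  simp [sub_mul, Finset.sum_sub_distrib]

/-- The weighted path Laplacian. -/
noncomputable def PL (c : ℝ) (n : ℕ) : Matrix (Fin (n + 1)) (Fin (n + 1)) ℝ :=
  fun a b => c * ∑ i : Fin n, inc i a * inc i b

theorem PL_quad (c : ℝ) (n : ℕ) (x y : Fin (n + 1) → ℝ) :
    ∑ a, ∑ b, PL c n a b * (x a * y b) =
      c * ∑ i : Fin n, (x i.succ - x i.castSucc) * (y i.succ - y i.castSucc) := by
  have h : ∀ i : Fin n, (x i.succ - x i.castSucc) * (y i.succ - y i.castSucc) =
      ∑ a, ∑ b, (inc i a * inc i b) * (x a * y b) := by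
    intro i
    rw [← sum_inc i x, ← sum_inc i y, Finset.sum_mul_sum]
    refine Finset.sum_congr rfl fun a _ => Finset.sum_congr rfl fun b _ => ?_
    ring
  simp only [h, Finset.mul_sum]
  rw [Finset.sum_comm' (s := (Finset.univ : Finset (Fin n))) (t := fun _ => Finset.univ)
          (t' := Finset.univ) (s' := fun _ => Finset.univ) (by simp)]
  refine Finset.sum_congr rfl fun a _ => ?_
  rw [Finset.sum_comm]
  refine Finset.sum_congr rfl fun b _ => ?_
  unfold PL
  rw [Finset.mul_sum, Finset.sum_mul]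
  refine Finset.sum_congr rfl fun i _ => ?_
  ring

theorem PL_lap {c : ℝ} (hc : 0 < c) (n : ℕ) : Lap (PL c n) where
  symm a b := by
    unfold PL
    congr 1
    exact Finset.sum_congr rfl fun i _ => mul_comm _ _
  off a b hab := by
    unfold PL
    refine mul_nonpos_of_nonneg_of_nonpos hc.le (Finset.sum_nonpos fun i _ => ?_)
    unfold inc
    have hne : i.succ ≠ i.castSucc := Fin.castSucc_lt_succ.ne'
    by_cases h1 : a = i.succ
    · have h2 : a ≠ i.castSucc := fun h => hne (h1.symm.trans h)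
      have h3 : b ≠ i.succ := fun h => hab (h1.trans h.symm)
      rw [if_pos h1, if_neg h2, if_neg h3]
      split_ifs <;> norm_num
    · by_cases h2 : a = i.castSucc
      · have h3 : b ≠ i.castSucc := fun h => hab (h2.trans h.symm)
        rw [if_neg h1, if_pos h2, if_neg h3]
        split_ifs <;> norm_num
      · rw [if_neg h1, if_neg h2]
        simp
  row a := by
    unfold PL
    rw [← Finset.mul_sum, Finset.sum_comm]
    have : ∀ i : Fin n, ∑ b, inc i a * inc i b = 0 := by
      intro i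
      rw [← Finset.mul_sum]
      have := sum_inc i (fun _ => 1)
      simp only [mul_one, sub_self] at this
      rw [this, mul_zero]
    simp [this]

/-- ties at the two ends -/
def kap (n : ℕ) (a : Fin (n + 1)) : ℝ := if a = 0 ∨ a = Fin.last n then 1 else 0

theorem kap_nonneg (n : ℕ) (a : Fin (n + 1)) : 0 ≤ kap n a := by
  unfold kap; split_ifs <;> norm_num

theorem PL_tied {c : ℝ} (hc : 0 < c) (n : ℕ) : Tied (PL c n) (kap n) where
  lap := PL_lap hc n
  nonneg := kap_nonneg n
  pos := by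
    refine Matrix.PosDef.of_dotProduct_mulVec_pos ?_ ?_
    · ext a b
      simp only [conjTranspose_apply, star_trivial, Matrix.add_apply, diagonal_apply]
      rw [(PL_lap hc n).symm b a]
      by_cases h : a = b
      · subst h; simp
      · simp [h, Ne.symm h]
    · intro x hx
      have h1 : star x ⬝ᵥ ((PL c n + diagonal (kap n)) *ᵥ x)
          = ∑ a, ∑ b, PL c n a b * (x a * x b) + ∑ a, kap n a * x a ^ 2 := by
        simp only [add_mulVec, dotProduct_add, star_trivial]
        congr 1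
        · simp only [dotProduct, mulVec, Finset.mul_sum]
          refine Finset.sum_congr rfl fun a _ => Finset.sum_congr rfl fun b _ => ?_
          ring
        · simp only [dotProduct, mulVec_diagonal]
          refine Finset.sum_congr rfl fun a _ => ?_
          ring
      rw [h1, PL_quad]
      have e1 : 0 ≤ ∑ i : Fin n, (x i.succ - x i.castSucc) * (x i.succ - x i.castSucc) :=
        Finset.sum_nonneg fun i _ => mul_self_nonneg _
      have e2 : 0 ≤ ∑ a, kap n a * x a ^ 2 :=
        Finset.sum_nonneg fun a _ => mul_nonneg (kap_nonneg n a) (sq_nonneg _)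
      by_contra hcon
      push Not at hcon
      have h2 : ∑ a, kap n a * x a ^ 2 = 0 := by
        have := mul_nonneg hc.le e1
        linarith
      have h3 : ∑ i : Fin n, (x i.succ - x i.castSucc) * (x i.succ - x i.castSucc) = 0 := by
        have h4 : c * ∑ i : Fin n, (x i.succ - x i.castSucc) * (x i.succ - x i.castSucc) ≤ 0 := by
          linarith
        have h5 := mul_nonneg hc.le e1
        have h6 : c * ∑ i : Fin n, (x i.succ - x i.castSucc) * (x i.succ - x i.castSucc) = 0 :=
          le_antisymm h4 h5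
        exact (mul_eq_zero.1 h6).resolve_left hc.ne'
      have h0 : x 0 = 0 := by
        have := (Finset.sum_eq_zero_iff_of_nonneg
          (fun a _ => mul_nonneg (kap_nonneg n a) (sq_nonneg (x a)))).1 h2 0 (Finset.mem_univ _)
        unfold kap at this
        simpa using this
      have hd : ∀ i : Fin n, x i.succ = x i.castSucc := by
        intro i
        have := (Finset.sum_eq_zero_iff_of_nonneg
          (fun i _ => mul_self_nonneg (x (Fin.succ i) - x (Fin.castSucc i)))).1 h3 i
            (Finset.mem_univ _)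
        have := mul_self_eq_zero.1 this
        linarith
      apply hx
      ext a
      refine Fin.induction ?_ ?_ a
      · exact h0
      · intro i hi
        rw [hd i, hi]
        rfl

/-- coordinates -/
noncomputable def Tc (n : ℕ) : (Fin (n + 1) → E3) ≃L[ℝ] (Fin (n + 1) × Fin 3 → ℝ) :=
  LinearEquiv.toContinuousLinearEquiv
    { toFun := fun y p => y p.1 p.2
      map_add' := fun _ _ => rfl
      map_smul' := fun _ _ => rfl
      invFun := fun x a => WithLp.toLp 2 (fun k => x (a, k))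
      left_inv := fun _ => rfl
      right_inv := fun _ => rfl }

theorem Tc_apply (n : ℕ) (y : Fin (n + 1) → E3) (p : Fin (n + 1) × Fin 3) :
    Tc n y p = y p.1 p.2 := rfl

theorem exists_scale (n : ℕ) : ∃ C : ℝ, 0 ≤ C ∧ ∀ F : (Fin (n + 1) × Fin 3 → ℝ) → ℝ,
    ∫ y : Fin (n + 1) → E3, F (Tc n y) = C * ∫ x, F x := by
  have hm : MeasurableEmbedding (Tc n) := (Tc n).toHomeomorph.measurableEmbedding
  have : (Measure.map (Tc n) (volume : Measure (Fin (n + 1) → E3))).IsAddHaarMeasure :=
    (Tc n).isAddHaarMeasure_map _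
  have h := Measure.isAddLeftInvariant_eq_smul
    (Measure.map (Tc n) (volume : Measure (Fin (n + 1) → E3)))
    (volume : Measure (Fin (n + 1) × Fin 3 → ℝ))
  obtain ⟨s, hs⟩ : ∃ s : NNReal, Measure.map (Tc n) (volume : Measure (Fin (n + 1) → E3)) =
    s • (volume : Measure (Fin (n + 1) × Fin 3 → ℝ)) := ⟨_, h⟩
  refine ⟨(s : ℝ), NNReal.coe_nonneg _, fun F => ?_⟩
  rw [← hm.integral_map, hs, integral_smul_nnreal_measure]
  rfl

theorem norm_sq_coord (x y : E3) : ‖x - y‖ ^ 2 = ∑ k, (x k - y k) ^ 2 := by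
  rw [EuclideanSpace.norm_sq_eq]
  refine Finset.sum_congr rfl fun k _ => ?_
  rw [Real.norm_eq_abs, sq_abs]
  rfl

/-- The chain integrand over `E3`-valued vertices in coordinates. -/
theorem chain_coord (c : ℝ) (n : ℕ) (R : Fin (n + 1) → E3) (F : Fin (n + 1) → ℝ → ℝ)
    (y : Fin (n + 1) → E3) :
    (∏ a, Real.exp (-(kap n a * ‖y a - R a‖ ^ 2)) * F a (‖y a - R a‖ ^ 2)) *
      ∏ i : Fin n, gk c (y i.succ - y i.castSucc) =
    ((ZZ c)⁻¹) ^ n * ((∏ a, F a (sq (fun a k => R a k) (Tc n y) a)) *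
      Real.exp (-Ex (PL c n) (kap n) (fun a k => R a k) (Tc n y))) := by
  have h1 : ∀ a, sq (fun a k => R a k) (Tc n y) a = ‖y a - R a‖ ^ 2 := by
    intro a
    rw [norm_sq_coord]
    rfl
  have h2 : Ex (PL c n) (kap n) (fun a k => R a k) (Tc n y) =
      ∑ a, kap n a * ‖y a - R a‖ ^ 2 + c * ∑ i : Fin n, ‖y i.succ - y i.castSucc‖ ^ 2 := by
    unfold Ex
    congr 1
    · refine Finset.sum_congr rfl fun a _ => ?_
      rw [← h1]
      rfl
    · have e1 : ∑ a, ∑ b, PL c n a b * ∑ k, Tc n y (a, k) * Tc n y (b, k) =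
          ∑ k, ∑ a, ∑ b, PL c n a b * (y a k * y b k) := by
        simp only [Finset.mul_sum]
        symm
        rw [Finset.sum_comm' (s := (Finset.univ : Finset (Fin 3))) (t := fun _ => Finset.univ)
          (t' := Finset.univ) (s' := fun _ => Finset.univ) (by simp)]
        refine Finset.sum_congr rfl fun a _ => ?_
        rw [Finset.sum_comm]
        rfl
      rw [e1]
      have e2 : ∀ k : Fin 3, ∑ a, ∑ b, PL c n a b * (y a k * y b k) =
          c * ∑ i : Fin n, (y i.succ k - y i.castSucc k) * (y i.succ k - y i.castSucc k) :=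
        fun k => PL_quad c n (fun a => y a k) (fun a => y a k)
      simp only [e2, ← Finset.mul_sum]
      congr 1
      rw [Finset.sum_comm]
      refine Finset.sum_congr rfl fun i _ => ?_
      rw [norm_sq_coord]
      exact Finset.sum_congr rfl fun k _ => (pow_two _).symm
  rw [h2]
  simp only [h1, gk, Finset.prod_mul_distrib, Finset.prod_const, Finset.card_univ,
    Fintype.card_fin]
  have h3 : ∏ a, Real.exp (-(kap n a * ‖y a - R a‖ ^ 2)) =
      Real.exp (-∑ a, kap n a * ‖y a - R a‖ ^ 2) := by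
    rw [← Real.exp_sum, Finset.sum_neg_distrib]
  have h4 : ∏ i : Fin n, Real.exp (-c * ‖y i.succ - y i.castSucc‖ ^ 2) =
      Real.exp (-(c * ∑ i : Fin n, ‖y i.succ - y i.castSucc‖ ^ 2)) := by
    rw [← Real.exp_sum, Finset.mul_sum, ← Finset.sum_neg_distrib]
    congr 1
    refine Finset.sum_congr rfl fun i _ => ?_
    ring
  rw [h3, h4, neg_add, Real.exp_add]
  ring

/-- Nice radial profiles, with nonnegative signed derivatives up to order `k + 1`. -/
structure Prof (k : ℕ) (u : ℝ → ℝ) : Prop where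
  smooth : ContDiff ℝ 2 u
  const : ∃ S u0 : ℝ, ∀ σ, S ≤ σ → u σ = u0
  nonneg : ∀ j ≤ k + 1, ∀ σ, 0 ≤ σ → 0 ≤ sder u j σ

theorem continuous_sder {u : ℝ → ℝ} (hu : ContDiff ℝ 2 u) (j : ℕ) : Continuous (sder u j) := by
  have hu1 : ContDiff ℝ 1 (deriv u) := by
    have : ContDiff ℝ (1 + 1) u := by simpa [one_add_one_eq_two] using hu
    exact (contDiff_succ_iff_deriv.1 this).2.2
  have hc2 : Continuous (deriv (deriv u)) := by
    have : ContDiff ℝ (0 + 1) (deriv u) := by simpa using hu1
    exact (contDiff_succ_iff_deriv.1 this).2.2.continuous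
  match j with
  | 0 => exact hu.continuous
  | 1 => exact hu1.continuous.neg
  | 2 => exact hc2
  | (j + 3) => exact continuous_const

theorem sder_const {u : ℝ → ℝ} {S u0 : ℝ} (hS : ∀ σ, S ≤ σ → u σ = u0) (j : ℕ) :
    ∃ v : ℝ, ∀ σ, S < σ → sder u j σ = v := by
  have hz1 : ∀ σ, S < σ → deriv u σ = 0 := by
    intro σ hσ
    have : u =ᶠ[𝓝 σ] fun _ => u0 := by
      filter_upwards [lt_mem_nhds hσ] with x hx using hS x hx.le
    rw [this.deriv_eq, deriv_const]
  have hz2 : ∀ σ, S < σ → deriv (deriv u) σ = 0 := by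
    intro σ hσ
    have : deriv u =ᶠ[𝓝 σ] fun _ => 0 := by
      filter_upwards [lt_mem_nhds hσ] with x hx using hz1 x hx
    rw [this.deriv_eq, deriv_const]
  match j with
  | 0 => exact ⟨u0, fun σ hσ => hS σ hσ.le⟩
  | 1 => exact ⟨0, fun σ hσ => by change -deriv u σ = 0; rw [hz1 σ hσ, neg_zero]⟩
  | 2 => exact ⟨0, fun σ hσ => hz2 σ hσ⟩
  | (j + 3) => exact ⟨0, fun _ _ => rfl⟩

theorem Prof.bdd {k : ℕ} {u : ℝ → ℝ} (h : Prof k u) :
    ∃ B : ℝ, ∀ j, ∀ σ, 0 ≤ σ → |sder u j σ| ≤ B := by
  obtain ⟨S, u0, hS⟩ := h.const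
  have hj : ∀ j, ∃ B : ℝ, 0 ≤ B ∧ ∀ σ, 0 ≤ σ → |sder u j σ| ≤ B := by
    intro j
    obtain ⟨v, hv⟩ := sder_const hS j
    obtain ⟨B, hB⟩ := (isCompact_Icc (a := (0 : ℝ)) (b := S)).exists_bound_of_continuousOn
      (continuous_sder h.smooth j).continuousOn
    refine ⟨max |B| |v|, le_max_of_le_left (abs_nonneg _), fun σ hσ => ?_⟩
    by_cases hs : σ ≤ S
    · exact ((hB σ ⟨hσ, hs⟩).trans (le_abs_self B)).trans (le_max_left _ _)
    · rw [hv σ (not_le.1 hs)]
      exact le_max_right _ _
  choose B hB0 hB using hj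
  refine ⟨B 0 + B 1 + B 2, fun j σ hσ => ?_⟩
  match j with
  | 0 => have := hB 0 σ hσ; linarith [hB0 1, hB0 2]
  | 1 => have := hB 1 σ hσ; linarith [hB0 0, hB0 2]
  | 2 => have := hB 2 σ hσ; linarith [hB0 0, hB0 1]
  | (j + 3) =>
    change |(0 : ℝ)| ≤ _
    rw [abs_zero]
    linarith [hB0 0, hB0 1, hB0 2]

/-- A continuous family of squared distances, with nondecreasing entries, realised in
dimension `D`, from the configuration `R` to the configuration `R'`. -/
def Path {K : ℕ} (D : ℕ) (R R' : Fin K → E3) : Prop :=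
  Fam D (fun i j => ‖R i - R j‖ ^ 2) (fun i j => ‖R' i - R' j‖ ^ 2)

/-- Monotonicity for a fixed assignment of centres. -/
theorem chain_fixed {c : ℝ} (hc : 0 < c) (n k : ℕ) (hk : k ≤ 1) {K : ℕ} (R R' : Fin K → E3)
    (hpath : Path (3 + 2 * (k + 1)) R R')
    (u : Fin (n + 1) → ℝ → ℝ) (hu : ∀ a, Prof k (u a)) (J : Fin (n + 1) → Fin K) :
    ∫ y : Fin (n + 1) → E3,
      (∏ a, Real.exp (-(kap n a * ‖y a - R' (J a)‖ ^ 2)) * u a (‖y a - R' (J a)‖ ^ 2)) *
        ∏ i : Fin n, gk c (y i.succ - y i.castSucc) ≤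
    ∫ y : Fin (n + 1) → E3,
      (∏ a, Real.exp (-(kap n a * ‖y a - R (J a)‖ ^ 2)) * u a (‖y a - R (J a)‖ ^ 2)) *
        ∏ i : Fin n, gk c (y i.succ - y i.castSucc) := by
  obtain ⟨C, hC, hint⟩ := exists_scale n
  have hconv : ∀ S : Fin K → E3, ∫ y : Fin (n + 1) → E3,
      (∏ a, Real.exp (-(kap n a * ‖y a - S (J a)‖ ^ 2)) * u a (‖y a - S (J a)‖ ^ 2)) *
        ∏ i : Fin n, gk c (y i.succ - y i.castSucc) =
      C * (((ZZ c)⁻¹) ^ n * ∫ x : Fin (n + 1) × Fin 3 → ℝ,
        (∏ a, u a (sq (fun a k => S (J a) k) x a)) *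
          Real.exp (-Ex (PL c n) (kap n) (fun a k => S (J a) k) x)) := by
    intro S
    have h1 := hint (fun x => ((ZZ c)⁻¹) ^ n * ((∏ a, u a (sq (fun a k => S (J a) k) x a)) *
      Real.exp (-Ex (PL c n) (kap n) (fun a k => S (J a) k) x)))
    rw [← integral_const_mul, ← h1]
    refine integral_congr_ae (Eventually.of_forall fun y => ?_)
    exact chain_coord c n (fun a => S (J a)) u y
  rw [hconv R, hconv R']
  refine mul_le_mul_of_nonneg_left (mul_le_mul_of_nonneg_left ?_ ?_) hC
  swap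
  · have := ZZ_pos hc; positivity
  choose B hB using fun a => (hu a).bdd
  refine chain_mono_fam (PL_tied hc n) k (fun a => sder (u a))
    (fun a => (hu a).smooth.continuous)
    (fun a j hj σ hσ => (hu a).nonneg j hj σ hσ) (∑ a, |B a|) ?_ ?_
    (fun a k => R (J a) k) (fun a k => R' (J a) k) ?_
  · intro a j _ σ hσ
    refine (le_abs_self _).trans ((hB a j σ hσ).trans ((le_abs_self _).trans ?_))
    exact Finset.single_le_sum (f := fun a => |B a|) (fun _ _ => abs_nonneg _) (Finset.mem_univ a)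
  · intro a
    obtain ⟨S, u0, hS⟩ := (hu a).const
    exact (approx_smooth (hu a).smooth hS).mono (by omega)
  · obtain ⟨Δ, d1, d2, d3, d4, d5⟩ := hpath
    refine ⟨fun t a b => Δ t (J a) (J b), fun a b => d1 _ _, fun a b => d2 _ _, ?_, ?_, ?_⟩
    · ext a b
      change Δ 0 (J a) (J b) = _
      rw [d3]
      exact norm_sq_coord _ _
    · ext a b
      change Δ 1 (J a) (J b) = _
      rw [d4]
      exact norm_sq_coord _ _
    · intro t ht
      obtain ⟨q, hq⟩ := d5 t ht
      exact ⟨fun a => q (J a), fun a b => hq _ _⟩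

end Pool.Agent.Y657.EM
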