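import Pool.Agent.Y657.EM.Chain2

set_option autoImplicit false

open MeasureTheory Filter
open scoped Topology

namespace Pool.Agent.Y657.EM

theorem exists_coord {F : Type*} [NormedAddCommGroup F] [InnerProductSpace ℝ F] {K D : ℕ}
    (p : Fin K → F) (S : Submodule ℝ F) [FiniteDimensional ℝ S] (hS : Module.finrank ℝ S ≤ D)
    (hp : ∀ a b, p a - p b ∈ S) :
    ∃ q : Fin K → Fin D → ℝ, ∀ a b, ‖p a - p b‖ ^ 2 = ∑ k, (q a k - q b k) ^ 2 := by
  obtain ⟨m, rfl⟩ := Nat.exists_eq_add_of_le hS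
  rcases Nat.eq_zero_or_pos K with rfl | hK
  · exact ⟨fun a => a.elim0, fun a => a.elim0⟩
  · set a0 : Fin K := ⟨0, hK⟩
    set b := stdOrthonormalBasis ℝ S
    set x : Fin K → S := fun a => ⟨p a - p a0, hp a a0⟩ with hx
    refine ⟨fun a => Fin.append (fun k => b.repr (x a) k) (fun _ => 0), fun a b' => ?_⟩
    rw [Fin.sum_univ_add]
    simp only [Fin.append_left, Fin.append_right, sub_self, ne_eq, OfNat.ofNat_ne_zero,
      not_false_eq_true, zero_pow, Finset.sum_const_zero, add_zero]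
    have h1 : ‖p a - p b'‖ = ‖x a - x b'‖ := by
      have h2 : ((x a - x b' : S) : F) = p a - p b' := by simp [hx]
      rw [← h2]
      rfl
    rw [h1, ← b.repr.norm_map, map_sub, EuclideanSpace.norm_sq_eq]
    refine Finset.sum_congr rfl fun k _ => ?_
    rw [Real.norm_eq_abs, sq_abs]
    rfl

/-- the interpolating points -/
noncomputable def ipt {K : ℕ} (R R' : Fin K → E3) (t : ℝ) (a : Fin K) : WithLp 2 (E3 × E3) :=
  WithLp.toLp 2 (Real.sqrt (1 - t) • R a, Real.sqrt t • R' a)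

theorem ipt_norm {K : ℕ} (R R' : Fin K → E3) {t : ℝ} (ht : t ∈ Set.Icc (0 : ℝ) 1) (a b : Fin K) :
    ‖ipt R R' t a - ipt R R' t b‖ ^ 2 =
      (1 - t) * ‖R a - R b‖ ^ 2 + t * ‖R' a - R' b‖ ^ 2 := by
  rw [WithLp.prod_norm_sq_eq_of_L2]
  have e1 : (ipt R R' t a - ipt R R' t b).fst = Real.sqrt (1 - t) • (R a - R b) := by
    rw [smul_sub]; rfl
  have e2 : (ipt R R' t a - ipt R R' t b).snd = Real.sqrt t • (R' a - R' b) := by
    rw [smul_sub]; rfl
  rw [e1, e2, norm_smul, norm_smul, mul_pow, mul_pow, Real.norm_eq_abs, Real.norm_eq_abs, sq_abs,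
    sq_abs, Real.sq_sqrt (by linarith [ht.2]), Real.sq_sqrt ht.1]

theorem path_lin {K D : ℕ} (R R' : Fin K → E3)
    (hle : ∀ i j, dist (R i) (R j) ≤ dist (R' i) (R' j))
    (hS : ∀ t ∈ Set.Icc (0 : ℝ) 1, ∃ S : Submodule ℝ (WithLp 2 (E3 × E3)),
      Module.finrank ℝ S ≤ D ∧ ∀ a b, ipt R R' t a - ipt R R' t b ∈ S) :
    Path D R R' := by
  refine ⟨fun t i j => (1 - t) * ‖R i - R j‖ ^ 2 + t * ‖R' i - R' j‖ ^ 2, ?_, ?_, ?_, ?_, ?_⟩
  · intro a b
    fun_prop
  · intro a b s _ t _ hst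
    have h1 := hle a b
    rw [dist_eq_norm, dist_eq_norm] at h1
    have h2 := pow_le_pow_left₀ (norm_nonneg _) h1 2
    simp only
    nlinarith
  · ext i j; simp
  · ext i j; simp
  · intro t ht
    obtain ⟨S, hS1, hS2⟩ := hS t ht
    obtain ⟨q, hq⟩ := exists_coord (ipt R R' t) S hS1 hS2
    refine ⟨q, fun a b => ?_⟩
    rw [← hq, ipt_norm R R' ht]

/-- at most `D + 1` points -/
theorem path_few {K D : ℕ} (hK : K ≤ D + 1) (R R' : Fin K → E3)
    (hle : ∀ i j, dist (R i) (R j) ≤ dist (R' i) (R' j)) : Path D R R' := by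
  refine path_lin R R' hle fun t _ => ?_
  rcases Nat.eq_zero_or_pos K with rfl | hK0
  · exact ⟨⊥, by simp, fun a => a.elim0⟩
  · obtain ⟨n, rfl⟩ : ∃ n, K = n + 1 := ⟨K - 1, by omega⟩
    set S := Submodule.span ℝ (Set.range fun i : Fin n => ipt R R' t i.succ - ipt R R' t 0) with hS
    have hmem : ∀ a, ipt R R' t a - ipt R R' t 0 ∈ S := by
      intro a
      refine Fin.cases ?_ (fun i => ?_) a
      · rw [sub_self]; exact S.zero_mem
      · exact Submodule.subset_span ⟨i, rfl⟩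
    refine ⟨S, ?_, fun a b => ?_⟩
    · have := finrank_range_le_card (R := ℝ)
        (fun i : Fin n => ipt R R' t i.succ - ipt R R' t 0)
      rw [Fintype.card_fin] at this
      exact (show Module.finrank ℝ S ≤ n from this).trans (by omega)
    · have := S.sub_mem (hmem a) (hmem b)
      simpa using this

/-- total dimension at most `D` -/
theorem path_dims {K D : ℕ} (R R' : Fin K → E3)
    (hle : ∀ i j, dist (R i) (R j) ≤ dist (R' i) (R' j))
    (hd : Module.finrank ℝ (vectorSpan ℝ (Set.range R)) +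
      Module.finrank ℝ (vectorSpan ℝ (Set.range R')) ≤ D) : Path D R R' := by
  refine path_lin R R' hle fun t _ => ?_
  set P := vectorSpan ℝ (Set.range R)
  set P' := vectorSpan ℝ (Set.range R')
  let f : (P × P') →ₗ[ℝ] WithLp 2 (E3 × E3) :=
    (WithLp.linearEquiv 2 ℝ (E3 × E3)).symm.toLinearMap ∘ₗ (P.subtype.prodMap P'.subtype)
  refine ⟨LinearMap.range f, ?_, fun a b => ?_⟩
  · refine (LinearMap.finrank_range_le f).trans ?_
    rw [Module.finrank_prod]
    exact hd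
  · have h1 : R a - R b ∈ P := vsub_mem_vectorSpan ℝ ⟨a, rfl⟩ ⟨b, rfl⟩
    have h2 : R' a - R' b ∈ P' := vsub_mem_vectorSpan ℝ ⟨a, rfl⟩ ⟨b, rfl⟩
    refine ⟨(Real.sqrt (1 - t) • ⟨R a - R b, h1⟩, Real.sqrt t • ⟨R' a - R' b, h2⟩), ?_⟩
    change WithLp.toLp 2 (Real.sqrt (1 - t) • (R a - R b), Real.sqrt t • (R' a - R' b)) = _
    rw [smul_sub, smul_sub]
    rfl

theorem path_seven {K : ℕ} (R R' : Fin K → E3)
    (hle : ∀ i j, dist (R i) (R j) ≤ dist (R' i) (R' j)) : Path 7 R R' := by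
  refine path_dims R R' hle ?_
  have h1 := Submodule.finrank_le (vectorSpan ℝ (Set.range R))
  have h2 := Submodule.finrank_le (vectorSpan ℝ (Set.range R'))
  have h3 : Module.finrank ℝ E3 = 3 := by simp
  omega

theorem coplanar_finrank {K : ℕ} {R : Fin K → E3} (h : Coplanar ℝ (Set.range R)) :
    Module.finrank ℝ (vectorSpan ℝ (Set.range R)) ≤ 2 := h.finrank_le_two

theorem path_coplanar_left {K : ℕ} (R R' : Fin K → E3)
    (hle : ∀ i j, dist (R i) (R j) ≤ dist (R' i) (R' j))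
    (h : Coplanar ℝ (Set.range R)) : Path 5 R R' := by
  refine path_dims R R' hle ?_
  have h1 := coplanar_finrank h
  have h2 := Submodule.finrank_le (vectorSpan ℝ (Set.range R'))
  have h3 : Module.finrank ℝ E3 = 3 := by simp
  omega

theorem path_coplanar_right {K : ℕ} (R R' : Fin K → E3)
    (hle : ∀ i j, dist (R i) (R j) ≤ dist (R' i) (R' j))
    (h : Coplanar ℝ (Set.range R')) : Path 5 R R' := by
  refine path_dims R R' hle ?_
  have h1 := coplanar_finrank h
  have h2 := Submodule.finrank_le (vectorSpan ℝ (Set.range R))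
  have h3 : Module.finrank ℝ E3 = 3 := by simp
  omega

/-- continuous expansions -/
theorem path_cont {K D : ℕ} (R R' : Fin K → E3) (p : ℝ → Fin K → EuclideanSpace ℝ (Fin D))
    (hc : ∀ i, ContinuousOn (fun t => p t i) (Set.Icc 0 1))
    (hm : ∀ i j, MonotoneOn (fun t => dist (p t i) (p t j)) (Set.Icc 0 1))
    (h0 : ∀ i j, dist (p 0 i) (p 0 j) = dist (R i) (R j))
    (h1 : ∀ i j, dist (p 1 i) (p 1 j) = dist (R' i) (R' j)) : Path D R R' := by
  refine ⟨fun t i j => dist (p t i) (p t j) ^ 2, ?_, ?_, ?_, ?_, ?_⟩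
  · intro a b
    exact ((continuous_dist.comp_continuousOn ((hc a).prodMk (hc b)))).pow 2
  · intro a b s hs t ht hst
    exact pow_le_pow_left₀ dist_nonneg (hm a b hs ht hst) 2
  · ext i j
    change dist (p 0 i) (p 0 j) ^ 2 = _
    rw [h0, dist_eq_norm]
  · ext i j
    change dist (p 1 i) (p 1 j) ^ 2 = _
    rw [h1, dist_eq_norm]
  · intro t _
    refine ⟨fun a k => p t a k, fun a b => ?_⟩
    change dist (p t a) (p t b) ^ 2 = ∑ k, (p t a k - p t b k) ^ 2
    rw [dist_eq_norm, EuclideanSpace.norm_sq_eq]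
    refine Finset.sum_congr rfl fun k _ => ?_
    rw [Real.norm_eq_abs, sq_abs]
    rfl

end Pool.Agent.Y657.EM
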