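import Pool.Agent.Y657.EM.Energy2

set_option autoImplicit false

open MeasureTheory Filter
open scoped Topology

namespace Pool.Agent.Y657.EM

open Pool.Agent.Helper985.Pol (Adm Q en Rad)

theorem Pot.add_const {k : ℕ} (hk : k ≤ 1) {u : ℝ → ℝ} (h : Pot k u) (a : ℝ) :
    Pot k (fun σ => u σ + a) where
  smooth := h.smooth.add contDiff_const
  const := by
    obtain ⟨S, u0, hS⟩ := h.const
    exact ⟨S, u0 + a, fun σ hσ => by rw [hS σ hσ]⟩
  nonneg := by
    intro j hj1 hj2 σ hσ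
    obtain ⟨e1, e2⟩ := sder_affine h.smooth a 1
    have e0 : (fun σ => u σ + a) = fun σ => a + 1 * u σ := by ext σ; ring
    rw [e0]
    have hj : j = 1 ∨ j = 2 := by omega
    rcases hj with rfl | rfl
    · rw [e1]
      simpa using h.nonneg 1 le_rfl hj2 σ hσ
    · rw [e2]
      simpa using h.nonneg 2 hj1 hj2 σ hσ

theorem int_sq_pos {φ : E3 → ℝ} (h1 : ContDiff ℝ 1 φ) (h2 : HasCompactSupport φ)
    (h : ∫ x, φ x ^ 2 ≤ 0) : φ = 0 := by
  have hc : Continuous (fun x => φ x ^ 2) := h1.continuous.pow 2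
  have hs : HasCompactSupport (fun x => φ x ^ 2) := by
    have : (fun x => φ x ^ 2) = (fun t : ℝ => t ^ 2) ∘ φ := rfl
    rw [this]
    exact h2.comp_left (by norm_num)
  by_contra hne
  obtain ⟨x, hx⟩ := Function.ne_iff.1 hne
  have : 0 < ∫ x, φ x ^ 2 :=
    hc.integral_pos_of_hasCompactSupport_nonneg_nonzero hs (fun x => sq_nonneg _)
      (x := x) (pow_ne_zero 2 hx)
  linarith

theorem fderiv_smul_norm {φ : E3 → ℝ} (h1 : ContDiff ℝ 1 φ) (c : ℝ) (x : E3) :
    ‖fderiv ℝ (fun y => c * φ y) x‖ ^ 2 = c ^ 2 * ‖fderiv ℝ φ x‖ ^ 2 := by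
  rw [fderiv_const_mul (h1.differentiable (by norm_num) x), norm_smul, mul_pow, Real.norm_eq_abs,
    sq_abs]

/-- a bound on normalised functions gives a bound on all functions -/
theorem form_of_adm {V : E3 → ℝ} {e : ℝ}
    (H : ∀ φ : E3 → ℝ, Adm φ → e ≤ (∫ x, ‖fderiv ℝ φ x‖ ^ 2) - ∫ x, V x * φ x ^ 2)
    (φ : E3 → ℝ) (h1 : ContDiff ℝ 1 φ) (h2 : HasCompactSupport φ) :
    e * (∫ x, φ x ^ 2) ≤ (∫ x, ‖fderiv ℝ φ x‖ ^ 2) - ∫ x, V x * φ x ^ 2 := by
  by_cases h : ∫ x, φ x ^ 2 ≤ 0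
  · have := int_sq_pos h1 h2 h
    subst this
    simp
  · push Not at h
    set A := ∫ x, φ x ^ 2 with hA
    have hsA : 0 < Real.sqrt A := Real.sqrt_pos.2 h
    set c := (Real.sqrt A)⁻¹ with hc
    have hc2 : c ^ 2 * A = 1 := by
      rw [hc, inv_pow, Real.sq_sqrt h.le, inv_mul_cancel₀ h.ne']
    have hc0 : 0 < c ^ 2 := by positivity
    have had : Adm (fun x => c * φ x) := by
      refine ⟨contDiff_const.mul h1, h2.mul_left, ?_⟩
      simp only [mul_pow]
      rw [integral_const_mul]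
      exact hc2
    have := H _ had
    have e1 : ∫ x, ‖fderiv ℝ (fun y => c * φ y) x‖ ^ 2 = c ^ 2 * ∫ x, ‖fderiv ℝ φ x‖ ^ 2 := by
      rw [← integral_const_mul]
      exact integral_congr_ae (Eventually.of_forall fun x => fderiv_smul_norm h1 c x)
    have e2 : ∫ x, V x * (c * φ x) ^ 2 = c ^ 2 * ∫ x, V x * φ x ^ 2 := by
      rw [← integral_const_mul]
      refine integral_congr_ae (Eventually.of_forall fun x => ?_)
      simp only
      ring
    rw [e1, e2, ← mul_sub] at this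
    have h3 : e * A * c ^ 2 ≤ ((∫ x, ‖fderiv ℝ φ x‖ ^ 2) - ∫ x, V x * φ x ^ 2) * c ^ 2 := by
      calc e * A * c ^ 2 = e * (c ^ 2 * A) := by ring
        _ = e := by rw [hc2, mul_one]
        _ ≤ _ := this
        _ = _ := by ring
    exact le_of_mul_le_mul_right h3 hc0

/-- nice potentials -/
theorem en_nice {K : ℕ} (hK : 0 < K) (k : ℕ) (hk : k ≤ 1) (R R' : Fin K → E3)
    (hpath : Path (3 + 2 * (k + 1)) R R')
    (u : Fin K → ℝ → ℝ) (hu : ∀ j, Pot k (u j)) :
    en (fun j x => u j (‖x‖ ^ 2)) R ≤ en (fun j x => u j (‖x‖ ^ 2)) R' := by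
  have hQ : ∀ (S : Fin K → E3) (φ : E3 → ℝ), Q (fun j x => u j (‖x‖ ^ 2)) S φ =
      (∫ x, ‖fderiv ℝ φ x‖ ^ 2) - ∫ x, VS u S x * φ x ^ 2 := fun S φ => rfl
  conv_rhs => unfold en
  refine le_iInf₂ fun φ' hφ' => ?_
  by_contra hcon
  push Not at hcon
  obtain ⟨e, he1, he2⟩ := EReal.lt_iff_exists_real_btwn.1 hcon
  have he1' : Q (fun j x => u j (‖x‖ ^ 2)) R' φ' < e := by exact_mod_cast he1
  have hH : ∀ φ : E3 → ℝ, Adm φ →
      e ≤ (∫ x, ‖fderiv ℝ φ x‖ ^ 2) - ∫ x, VS u R x * φ x ^ 2 := by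
    intro φ hφ
    have : ((e : ℝ) : EReal) ≤ ((Q (fun j x => u j (‖x‖ ^ 2)) R φ : ℝ) : EReal) :=
      he2.le.trans (iInf₂_le φ hφ)
    exact_mod_cast this
  have hK' : (K : ℝ) ≠ 0 := by exact_mod_cast hK.ne'
  have hVS : ∀ (S : Fin K → E3) (x : E3), VS (fun j σ => u j σ + e / K) S x = VS u S x + e := by
    intro S x
    unfold VS
    rw [Finset.sum_add_distrib]
    simp only [Finset.sum_const, Finset.card_univ, Fintype.card_fin, nsmul_eq_mul]
    rw [mul_div_cancel₀ _ hK']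
  have hint : ∀ (S : Fin K → E3) (φ : E3 → ℝ), ContDiff ℝ 1 φ → HasCompactSupport φ →
      ∫ x, VS (fun j σ => u j σ + e / K) S x * φ x ^ 2 =
        (∫ x, VS u S x * φ x ^ 2) + e * ∫ x, φ x ^ 2 := by
    intro S φ h1 h2
    have hs : HasCompactSupport (fun x => φ x ^ 2) := by
      have : (fun x => φ x ^ 2) = (fun t : ℝ => t ^ 2) ∘ φ := rfl
      rw [this]
      exact h2.comp_left (by norm_num)
    have hc : Continuous (fun x => φ x ^ 2) := h1.continuous.pow 2
    have hV : Continuous (VS u S) := by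
      unfold VS
      refine continuous_finset_sum _ fun j _ => ?_
      exact (hu j).smooth.continuous.comp (by fun_prop)
    have i1 : Integrable (fun x => VS u S x * φ x ^ 2) :=
      (hV.mul hc).integrable_of_hasCompactSupport hs.mul_left
    have i2 : Integrable (fun x => φ x ^ 2) := hc.integrable_of_hasCompactSupport hs
    rw [← integral_const_mul, ← integral_add i1 (i2.const_mul e)]
    refine integral_congr_ae (Eventually.of_forall fun x => ?_)
    simp only [hVS]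
    ring
  have key := nice_form hK k hk R R' hpath (fun j σ => u j σ + e / K)
    (fun j => (hu j).add_const hk _) (fun φ h1 h2 => by
      rw [hint R φ h1 h2]
      have := form_of_adm hH φ h1 h2
      linarith) φ' hφ'.1 hφ'.2.1
  rw [hint R' φ' hφ'.1 hφ'.2.1, hφ'.2.2] at key
  rw [hQ] at he1'
  linarith

end Pool.Agent.Y657.EM
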