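import Pool.Agent.Y657.EM.Chain2

set_option autoImplicit false

open MeasureTheory Filter
open scoped Topology

namespace Pool.Agent.Y657.EM

variable {c : ℝ}

theorem integrable_exp_sub (R : E3) : Integrable fun x : E3 => Real.exp (-‖x - R‖ ^ 2) := by
  have h := (integrable_exp (c := 1) one_pos).comp_sub_right R
  simpa using h

/-- one vertex factor -/
noncomputable def vf (κ : ℝ) (u : ℝ → ℝ) (R x : E3) : ℝ :=
  Real.exp (-(κ * ‖x - R‖ ^ 2)) * u (‖x - R‖ ^ 2)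

theorem vf_Bc {k : ℕ} {u : ℝ → ℝ} (hu : Prof k u) {κ : ℝ} (hκ : 0 ≤ κ) (R : E3) :
    Bc (vf κ u R) := by
  obtain ⟨B, hB⟩ := hu.bdd
  refine ⟨?_, B, fun x => ?_⟩
  · unfold vf
    have := hu.smooth.continuous
    fun_prop
  · unfold vf
    rw [abs_mul, abs_of_pos (Real.exp_pos _)]
    have h1 : Real.exp (-(κ * ‖x - R‖ ^ 2)) ≤ 1 := by
      rw [Real.exp_le_one_iff]
      have : 0 ≤ κ * ‖x - R‖ ^ 2 := by positivity
      linarith
    refine (mul_le_of_le_one_left (abs_nonneg _) h1).trans ?_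
    exact hB 0 _ (by positivity)

theorem vf_Nc {k : ℕ} {u : ℝ → ℝ} (hu : Prof k u) (R : E3) : Nc (vf 1 u R) := by
  have h := vf_Bc hu zero_le_one R
  obtain ⟨B, hB⟩ := hu.bdd
  refine ⟨h.cont, h.bdd, ?_⟩
  have e : vf 1 u R = fun x => Real.exp (-‖x - R‖ ^ 2) * u (‖x - R‖ ^ 2) := by
    ext x; unfold vf; rw [one_mul]
  rw [e]
  refine (integrable_exp_sub R).mul_bdd (c := B) ?_ ?_
  · have := hu.smooth.continuous
    exact (by fun_prop : Continuous fun x : E3 => u (‖x - R‖ ^ 2)).aestronglyMeasurable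
  · exact Eventually.of_forall fun x => hB 0 _ (by positivity)

theorem Bc_sum {ι : Type*} (s : Finset ι) (f : ι → E3 → ℝ) (h : ∀ i ∈ s, Bc (f i)) :
    Bc fun x => ∑ i ∈ s, f i x := by
  classical
  induction s using Finset.induction_on with
  | empty => exact ⟨by simpa using continuous_const, 0, fun x => by simp⟩
  | insert i s hi ih =>
    have h1 := h i (Finset.mem_insert_self _ _)
    have h2 := ih fun j hj => h j (Finset.mem_insert_of_mem hj)
    obtain ⟨A, hA⟩ := h1.bdd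
    obtain ⟨B, hB⟩ := h2.bdd
    simp only [Finset.sum_insert hi]
    exact ⟨h1.cont.add h2.cont, A + B, fun x => (abs_add_le _ _).trans (add_le_add (hA x) (hB x))⟩

theorem Nc_sum {ι : Type*} (s : Finset ι) (f : ι → E3 → ℝ) (h : ∀ i ∈ s, Nc (f i)) :
    Nc fun x => ∑ i ∈ s, f i x := by
  have h1 := Bc_sum s f fun i hi => (h i hi).toBc
  exact ⟨h1.cont, h1.bdd, integrable_finsetSum _ fun i hi => (h i hi).int⟩

/-- vertex functions summed over the centres -/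
noncomputable def gS {K : ℕ} (n : ℕ) (u : Fin (n + 1) → Fin K → ℝ → ℝ) (S : Fin K → E3)
    (i : ℕ) (x : E3) : ℝ :=
  if h : i < n + 1 then ∑ j, vf (kap n ⟨i, h⟩) (u ⟨i, h⟩ j) (S j) x else 0

/-- vertex functions for a fixed assignment -/
noncomputable def gJ {K : ℕ} (n : ℕ) (u : Fin (n + 1) → Fin K → ℝ → ℝ) (S : Fin K → E3)
    (J : Fin (n + 1) → Fin K) (i : ℕ) (x : E3) : ℝ :=
  if h : i < n + 1 then vf (kap n ⟨i, h⟩) (u ⟨i, h⟩ (J ⟨i, h⟩)) (S (J ⟨i, h⟩)) x else 0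

theorem zero_Bc : Bc fun _ : E3 => (0 : ℝ) := ⟨continuous_const, 0, fun _ => by simp⟩

theorem kap_zero (n : ℕ) (h : 0 < n + 1) : kap n ⟨0, h⟩ = 1 := by
  unfold kap
  rw [if_pos]
  left; rfl

theorem gJ_Bc {K : ℕ} {n k : ℕ} {u : Fin (n + 1) → Fin K → ℝ → ℝ} (hu : ∀ a j, Prof k (u a j))
    (S : Fin K → E3) (J : Fin (n + 1) → Fin K) (i : ℕ) : Bc (gJ n u S J i) := by
  by_cases h : i < n + 1
  · have : gJ n u S J i = vf (kap n ⟨i, h⟩) (u ⟨i, h⟩ (J ⟨i, h⟩)) (S (J ⟨i, h⟩)) := by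
      ext x; unfold gJ; rw [dif_pos h]
    rw [this]
    exact vf_Bc (hu _ _) (kap_nonneg _ _) _
  · have : gJ n u S J i = fun _ => 0 := by
      ext x; unfold gJ; rw [dif_neg h]
    rw [this]
    exact zero_Bc

theorem gJ_Nc {K : ℕ} {n k : ℕ} {u : Fin (n + 1) → Fin K → ℝ → ℝ} (hu : ∀ a j, Prof k (u a j))
    (S : Fin K → E3) (J : Fin (n + 1) → Fin K) : Nc (gJ n u S J 0) := by
  have h : 0 < n + 1 := Nat.succ_pos n
  have : gJ n u S J 0 = vf 1 (u ⟨0, h⟩ (J ⟨0, h⟩)) (S (J ⟨0, h⟩)) := by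
    ext x; unfold gJ; rw [dif_pos h, kap_zero]
  rw [this]
  exact vf_Nc (hu _ _) _

theorem gS_Bc {K : ℕ} {n k : ℕ} {u : Fin (n + 1) → Fin K → ℝ → ℝ} (hu : ∀ a j, Prof k (u a j))
    (S : Fin K → E3) (i : ℕ) : Bc (gS n u S i) := by
  by_cases h : i < n + 1
  · have : gS n u S i = fun x => ∑ j, vf (kap n ⟨i, h⟩) (u ⟨i, h⟩ j) (S j) x := by
      ext x; unfold gS; rw [dif_pos h]
    rw [this]
    exact Bc_sum _ _ fun j _ => vf_Bc (hu _ _) (kap_nonneg _ _) _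
  · have : gS n u S i = fun _ => 0 := by
      ext x; unfold gS; rw [dif_neg h]
    rw [this]
    exact zero_Bc

theorem gS_Nc {K : ℕ} {n k : ℕ} {u : Fin (n + 1) → Fin K → ℝ → ℝ} (hu : ∀ a j, Prof k (u a j))
    (S : Fin K → E3) : Nc (gS n u S 0) := by
  have h : 0 < n + 1 := Nat.succ_pos n
  have : gS n u S 0 = fun x => ∑ j, vf 1 (u ⟨0, h⟩ j) (S j) x := by
    ext x; unfold gS; rw [dif_pos h, kap_zero]
  rw [this]
  exact Nc_sum _ _ fun j _ => vf_Nc (hu _ _) _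

theorem W_gJ (c : ℝ) {K : ℕ} (n : ℕ) (u : Fin (n + 1) → Fin K → ℝ → ℝ)
    (S : Fin K → E3) (J : Fin (n + 1) → Fin K) (y : Fin (n + 1) → E3) :
    W c n (gJ n u S J) y =
      (∏ a, Real.exp (-(kap n a * ‖y a - S (J a)‖ ^ 2)) * u a (J a) (‖y a - S (J a)‖ ^ 2)) *
        ∏ i : Fin n, gk c (y i.succ - y i.castSucc) := by
  unfold W
  congr 1
  refine Finset.prod_congr rfl fun a _ => ?_
  unfold gJ
  rw [dif_pos a.2]
  rfl

theorem W_gS (c : ℝ) {K : ℕ} (n : ℕ) (u : Fin (n + 1) → Fin K → ℝ → ℝ)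
    (S : Fin K → E3) (y : Fin (n + 1) → E3) :
    W c n (gS n u S) y = ∑ J : Fin (n + 1) → Fin K, W c n (gJ n u S J) y := by
  simp only [W_gJ]
  rw [← Finset.sum_mul]
  unfold W
  congr 1
  have h1 : ∀ a : Fin (n + 1), gS n u S a (y a) =
      ∑ j, Real.exp (-(kap n a * ‖y a - S j‖ ^ 2)) * u a j (‖y a - S j‖ ^ 2) := by
    intro a
    unfold gS
    rw [dif_pos a.2]
    rfl
  simp only [h1]
  rw [Finset.prod_univ_sum, Fintype.piFinset_univ]

theorem sum_mono (hc : 0 < c) (n k : ℕ) (hk : k ≤ 1) {K : ℕ} (R R' : Fin K → E3)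
    (hpath : Path (3 + 2 * (k + 1)) R R')
    (u : Fin (n + 1) → Fin K → ℝ → ℝ) (hu : ∀ a j, Prof k (u a j)) :
    ∫ x, Hs c (gS n u R') n x ≤ ∫ x, Hs c (gS n u R) n x := by
  rw [← (chain_int hc n _ (gS_Nc hu R') (gS_Bc hu R')).2,
    ← (chain_int hc n _ (gS_Nc hu R) (gS_Bc hu R)).2]
  simp only [W_gS]
  rw [integral_finsetSum _ fun J _ => (chain_int hc n _ (gJ_Nc hu R' J) (gJ_Bc hu R' J)).1,
    integral_finsetSum _ fun J _ => (chain_int hc n _ (gJ_Nc hu R J) (gJ_Bc hu R J)).1]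
  refine Finset.sum_le_sum fun J _ => ?_
  simp only [W_gJ]
  exact chain_fixed hc n k hk R R' hpath (fun a => u a (J a)) (fun a => hu a (J a)) J

/-- `∫ I_a I_b` only depends on `a + b`. -/
theorem It_pair (hc : 0 < c) {Φ f : E3 → ℝ} (hΦ : Bc Φ) (hf : Nc f) (a b : ℕ) :
    ∫ x, It c Φ f a x * It c Φ f b x = ∫ x, f x * It c Φ f (a + b) x := by
  induction a generalizing b with
  | zero => rw [zero_add]; rfl
  | succ a ih =>
    have h1 : ∫ x, It c Φ f (a + 1) x * It c Φ f b x = ∫ x, It c Φ f a x * It c Φ f (b + 1) x :=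
      (Cop_symm hc hΦ (It_Nc hc hΦ hf b) (It_Nc hc hΦ hf a)).symm
    rw [h1, ih (b + 1)]
    congr 2
    ext x
    congr 2
    ring

/-- transfer with alternating factors -/
theorem Hs_alt (c : ℝ) (Φ f : E3 → ℝ) (m : ℕ) (g : ℕ → E3 → ℝ) (h0 : g 0 = f)
    (hodd : ∀ i, 2 * i + 1 < 2 * (m + 1) → g (2 * i + 1) = Φ)
    (heven : ∀ i, 0 < i → 2 * i < 2 * (m + 1) → g (2 * i) = fun _ => 1)
    (hlast : g (2 * (m + 1)) = f) :
    Hs c g (2 * (m + 1)) = fun x => f x * It c Φ f (m + 1) x := by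
  have h : ∀ i, i ≤ m → Hs c g (2 * i) = It c Φ f i := by
    intro i
    induction i with
    | zero => intro _; exact h0
    | succ i ih =>
      intro hi
      have ih' := ih (by omega)
      have e1 : Hs c g (2 * i + 1) = fun x => Φ x * P c (It c Φ f i) x := by
        change (fun x => g (2 * i + 1) x * P c (Hs c g (2 * i)) x) = _
        rw [hodd i (by omega), ih']
      change (fun x => g (2 * i + 1 + 1) x * P c (Hs c g (2 * i + 1)) x) = _
      rw [e1]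
      have e2 : g (2 * i + 1 + 1) = fun _ => 1 := heven (i + 1) (by omega) (by omega)
      rw [e2]
      ext x
      rw [one_mul]
      rfl
  have e1 : Hs c g (2 * m + 1) = fun x => Φ x * P c (It c Φ f m) x := by
    change (fun x => g (2 * m + 1) x * P c (Hs c g (2 * m)) x) = _
    rw [hodd m (by omega), h m le_rfl]
  change (fun x => g (2 * m + 1 + 1) x * P c (Hs c g (2 * m + 1)) x) = _
  rw [e1]
  have e2 : g (2 * m + 1 + 1) = f := hlast
  rw [e2]
  rfl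

end Pool.Agent.Y657.EM
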