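import Pool.Agent.Y657.EM.Energy

set_option autoImplicit false

open MeasureTheory Filter
open scoped Topology

namespace Pool.Agent.Y657.EM

variable {c : ℝ}

/-- Radial profiles of potentials. -/
structure Pot (k : ℕ) (u : ℝ → ℝ) : Prop where
  smooth : ContDiff ℝ 2 u
  const : ∃ S u0 : ℝ, ∀ σ, S ≤ σ → u σ = u0
  nonneg : ∀ j, 1 ≤ j → j ≤ k + 1 → ∀ σ, 0 ≤ σ → 0 ≤ sder u j σ

theorem sder_affine {u : ℝ → ℝ} (hu : ContDiff ℝ 2 u) (a ε : ℝ) :
    sder (fun σ => a + ε * u σ) 1 = (fun σ => ε * sder u 1 σ) ∧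
    sder (fun σ => a + ε * u σ) 2 = (fun σ => ε * sder u 2 σ) := by
  have hd1 : Differentiable ℝ u := hu.differentiable (by norm_num)
  have e1 : deriv (fun σ => a + ε * u σ) = fun σ => ε * deriv u σ := by
    ext σ
    rw [deriv_const_add, deriv_const_mul _ (hd1 σ)]
  constructor
  · ext σ
    change -deriv (fun σ => a + ε * u σ) σ = ε * (-deriv u σ)
    rw [e1]; ring
  · ext σ
    change deriv (deriv (fun σ => a + ε * u σ)) σ = ε * deriv (deriv u) σ
    rw [e1]
    have hu1 : ContDiff ℝ 1 (deriv u) := by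
      have : ContDiff ℝ (1 + 1) u := by simpa [one_add_one_eq_two] using hu
      exact (contDiff_succ_iff_deriv.1 this).2.2
    rw [deriv_const_mul _ (hu1.differentiable (by norm_num) σ)]

theorem Pot.bdd {k : ℕ} {u : ℝ → ℝ} (h : Pot k u) : ∃ B : ℝ, ∀ σ, 0 ≤ σ → |u σ| ≤ B := by
  obtain ⟨S, u0, hS⟩ := h.const
  obtain ⟨B, hB⟩ := (isCompact_Icc (a := (0 : ℝ)) (b := S)).exists_bound_of_continuousOn
    h.smooth.continuous.continuousOn
  refine ⟨max |B| |u0|, fun σ hσ => ?_⟩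
  by_cases hs : σ ≤ S
  · exact ((hB σ ⟨hσ, hs⟩).trans (le_abs_self B)).trans (le_max_left _ _)
  · rw [hS σ (not_le.1 hs).le]
    exact le_max_right _ _

theorem Pot.prof {k : ℕ} (hk : k ≤ 1) {u : ℝ → ℝ} (h : Pot k u) {a ε : ℝ} (hε : 0 ≤ ε)
    (hpos : ∀ σ, 0 ≤ σ → 0 ≤ a + ε * u σ) : Prof k (fun σ => a + ε * u σ) where
  smooth := contDiff_const.add (contDiff_const.mul h.smooth)
  const := by
    obtain ⟨S, u0, hS⟩ := h.const
    exact ⟨S, a + ε * u0, fun σ hσ => by rw [hS σ hσ]⟩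
  nonneg := by
    intro j hj σ hσ
    obtain ⟨e1, e2⟩ := sder_affine h.smooth a ε
    interval_cases k
    · interval_cases j
      · exact hpos σ hσ
      · rw [e1]
        exact mul_nonneg hε (h.nonneg 1 le_rfl (by omega) σ hσ)
    · interval_cases j
      · exact hpos σ hσ
      · rw [e1]
        exact mul_nonneg hε (h.nonneg 1 le_rfl (by omega) σ hσ)
      · rw [e2]
        exact mul_nonneg hε (h.nonneg 2 (by omega) (by omega) σ hσ)

theorem const_pot (k : ℕ) : Pot k (fun _ => 0) where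
  smooth := contDiff_const
  const := ⟨0, 0, fun _ _ => rfl⟩
  nonneg := by
    intro j _ _ σ _
    match j with
    | 0 => exact le_rfl
    | 1 =>
      change 0 ≤ -deriv (fun _ : ℝ => (0 : ℝ)) σ
      simp
    | 2 =>
      change 0 ≤ deriv (deriv (fun _ : ℝ => (0 : ℝ))) σ
      simp
    | (j + 3) => exact le_rfl

theorem const_prof {k : ℕ} (hk : k ≤ 1) {a : ℝ} (ha : 0 ≤ a) : Prof k (fun _ => a) := by
  have := (const_pot k).prof hk (a := a) (ε := 0) le_rfl (fun σ _ => by simpa using ha)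
  simpa using this

/-- The profiles of the vertices of the chain. -/
noncomputable def uu {K : ℕ} (n : ℕ) (ε : ℝ) (u : Fin K → ℝ → ℝ) (a : Fin (n + 1)) (j : Fin K) :
    ℝ → ℝ :=
  if a = 0 ∨ a = Fin.last n then fun _ => 1
  else if (a : ℕ) % 2 = 1 then fun σ => 1 / (K : ℝ) + ε * u j σ
  else fun _ => 1 / (K : ℝ)

/-- the potential -/
noncomputable def VS {K : ℕ} (u : Fin K → ℝ → ℝ) (S : Fin K → E3) (x : E3) : ℝ := ∑ j, u j (‖x - S j‖ ^ 2)

/-- end function -/
noncomputable def fS {K : ℕ} (S : Fin K → E3) (x : E3) : ℝ := ∑ j, Real.exp (-‖x - S j‖ ^ 2)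

theorem vf_zero (u : ℝ → ℝ) (R x : E3) : vf 0 u R x = u (‖x - R‖ ^ 2) := by
  unfold vf; simp

theorem kap_mid {n i : ℕ} (h : i < n + 1) (h0 : 0 < i) (hn : i < n) : kap n ⟨i, h⟩ = 0 := by
  unfold kap
  rw [if_neg]
  rintro (h1 | h1)
  · have := congrArg Fin.val h1
    simp at this
    omega
  · have := congrArg Fin.val h1
    simp at this
    omega

theorem kap_last (n : ℕ) (h : n < n + 1) : kap n ⟨n, h⟩ = 1 := by
  unfold kap
  rw [if_pos]
  right; rfl

theorem gS_zero {K : ℕ} (n : ℕ) (ε : ℝ) (u : Fin K → ℝ → ℝ) (S : Fin K → E3) :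
    gS n (uu n ε u) S 0 = fS S := by
  ext x
  have h : 0 < n + 1 := Nat.succ_pos n
  unfold gS fS
  rw [dif_pos h, kap_zero]
  refine Finset.sum_congr rfl fun j _ => ?_
  unfold vf uu
  rw [if_pos (show (⟨0, h⟩ : Fin (n + 1)) = 0 ∨ (⟨0, h⟩ : Fin (n + 1)) = Fin.last n from
    Or.inl rfl)]
  simp

theorem gS_last {K : ℕ} (n : ℕ) (ε : ℝ) (u : Fin K → ℝ → ℝ) (S : Fin K → E3) :
    gS n (uu n ε u) S n = fS S := by
  ext x
  have h : n < n + 1 := Nat.lt_succ_self n
  unfold gS fS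
  rw [dif_pos h, kap_last]
  refine Finset.sum_congr rfl fun j _ => ?_
  unfold vf uu
  rw [if_pos (show (⟨n, h⟩ : Fin (n + 1)) = 0 ∨ (⟨n, h⟩ : Fin (n + 1)) = Fin.last n from
    Or.inr rfl)]
  simp

theorem gS_odd {K : ℕ} (hK : 0 < K) (n i : ℕ) (ε : ℝ) (u : Fin K → ℝ → ℝ) (S : Fin K → E3)
    (h1 : i % 2 = 1) (h2 : i < n) :
    gS n (uu n ε u) S i = fun x => 1 + ε * VS u S x := by
  ext x
  have h : i < n + 1 := by omega
  unfold gS VS
  rw [dif_pos h, kap_mid h (by omega) h2, Finset.mul_sum]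
  have hK' : (K : ℝ) ≠ 0 := by exact_mod_cast hK.ne'
  have e : (1 : ℝ) = ∑ _j : Fin K, 1 / (K : ℝ) := by
    rw [Finset.sum_const, Finset.card_univ, Fintype.card_fin, nsmul_eq_mul]
    field_simp
  rw [e, ← Finset.sum_add_distrib]
  refine Finset.sum_congr rfl fun j _ => ?_
  rw [vf_zero]
  unfold uu
  rw [if_neg, if_pos]
  · exact h1
  · rintro (h3 | h3)
    · have := congrArg Fin.val h3
      simp at this
      omega
    · have := congrArg Fin.val h3
      simp at this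
      omega

theorem gS_even {K : ℕ} (hK : 0 < K) (n i : ℕ) (ε : ℝ) (u : Fin K → ℝ → ℝ) (S : Fin K → E3)
    (h1 : i % 2 = 0) (h0 : 0 < i) (h2 : i < n) :
    gS n (uu n ε u) S i = fun _ => 1 := by
  ext x
  have h : i < n + 1 := by omega
  unfold gS
  rw [dif_pos h, kap_mid h (by omega) h2]
  have hK' : (K : ℝ) ≠ 0 := by exact_mod_cast hK.ne'
  have e : (1 : ℝ) = ∑ _j : Fin K, 1 / (K : ℝ) := by
    rw [Finset.sum_const, Finset.card_univ, Fintype.card_fin, nsmul_eq_mul]
    field_simp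
  rw [e]
  refine Finset.sum_congr rfl fun j _ => ?_
  rw [vf_zero]
  unfold uu
  rw [if_neg, if_neg]
  · simp only; omega
  · rintro (h3 | h3)
    · have := congrArg Fin.val h3
      simp at this
      omega
    · have := congrArg Fin.val h3
      simp at this
      omega

theorem VS_Bc {K k : ℕ} {u : Fin K → ℝ → ℝ} (hu : ∀ j, Pot k (u j)) (S : Fin K → E3) :
    Bc (VS u S) := by
  unfold VS
  refine Bc_sum _ _ fun j _ => ?_
  obtain ⟨B, hB⟩ := (hu j).bdd
  have := (hu j).smooth.continuous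
  exact ⟨by fun_prop, B, fun x => hB _ (by positivity)⟩

theorem fS_Nc {K : ℕ} (S : Fin K → E3) : Nc (fS S) := by
  unfold fS
  refine Nc_sum _ _ fun j _ => ?_
  refine ⟨by fun_prop, ⟨1, fun x => ?_⟩, integrable_exp_sub _⟩
  rw [abs_of_pos (Real.exp_pos _), Real.exp_le_one_iff]
  have : 0 ≤ ‖x - S j‖ ^ 2 := by positivity
  linarith

theorem fS_pos {K : ℕ} (hK : 0 < K) (S : Fin K → E3) (x : E3) : 0 < fS S x := by
  unfold fS
  exact Finset.sum_pos (fun j _ => Real.exp_pos _) ⟨⟨0, hK⟩, Finset.mem_univ _⟩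

/-- comparison of the iterates for the two configurations -/
theorem It_compare (hc : 0 < c) {K : ℕ} (hK : 0 < K) (k : ℕ) (hk : k ≤ 1) (R R' : Fin K → E3)
    (hpath : Path (3 + 2 * (k + 1)) R R')
    (u : Fin K → ℝ → ℝ) (hu : ∀ j, Pot k (u j)) {ε : ℝ} (hε : 0 ≤ ε)
    (hpos : ∀ j σ, 0 ≤ σ → 0 ≤ 1 / (K : ℝ) + ε * u j σ) (m : ℕ) :
    ∫ x, It c (fun x => 1 + ε * VS u R' x) (fS R') (m + 1) x ^ 2 ≤
    ∫ x, It c (fun x => 1 + ε * VS u R x) (fS R) (m + 1) x ^ 2 := by
  have key : ∀ S : Fin K → E3, ∫ x, It c (fun x => 1 + ε * VS u S x) (fS S) (m + 1) x ^ 2 =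
      ∫ x, Hs c (gS (2 * (2 * m + 1 + 1)) (uu (2 * (2 * m + 1 + 1)) ε u) S)
        (2 * (2 * m + 1 + 1)) x := by
    intro S
    have hΦ : Bc fun x => 1 + ε * VS u S x := by
      obtain ⟨B, hB⟩ := (VS_Bc hu S).bdd
      refine ⟨continuous_const.add (continuous_const.mul (VS_Bc hu S).cont), 1 + ε * B,
        fun x => ?_⟩
      refine (abs_add_le _ _).trans ?_
      rw [abs_one, abs_mul, abs_of_nonneg hε]
      have := mul_le_mul_of_nonneg_left (hB x) hε
      linarith
    rw [Hs_alt c (fun x => 1 + ε * VS u S x) (fS S) (2 * m + 1) _ (gS_zero _ _ _ _)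
      (fun i hi => gS_odd hK _ _ _ _ _ (by omega) (by omega))
      (fun i h0 hi => gS_even hK _ _ _ _ _ (by omega) (by omega) (by omega))
      (gS_last _ _ _ _)]
    have h1 := It_pair hc hΦ (fS_Nc S) (m + 1) (m + 1)
    have e : m + 1 + (m + 1) = 2 * m + 1 + 1 := by ring
    rw [e] at h1
    rw [← h1]
    exact integral_congr_ae (Eventually.of_forall fun x => pow_two _)
  rw [key R, key R']
  refine sum_mono hc _ k hk R R' hpath _ fun a j => ?_
  unfold uu
  split_ifs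
  · exact const_prof hk zero_le_one
  · exact (hu j).prof hk hε (hpos j)
  · exact const_prof hk (by positivity)

/-- The comparison of the energy forms for nice potentials. -/
theorem nice_form {K : ℕ} (hK : 0 < K) (k : ℕ) (hk : k ≤ 1) (R R' : Fin K → E3)
    (hpath : Path (3 + 2 * (k + 1)) R R')
    (u : Fin K → ℝ → ℝ) (hu : ∀ j, Pot k (u j))
    (H : ∀ φ : E3 → ℝ, ContDiff ℝ 1 φ → HasCompactSupport φ →
      ∫ x, VS u R x * φ x ^ 2 ≤ ∫ x, ‖fderiv ℝ φ x‖ ^ 2)
    (φ : E3 → ℝ) (h1 : ContDiff ℝ 1 φ) (h2 : HasCompactSupport φ) :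
    ∫ x, VS u R' x * φ x ^ 2 ≤ ∫ x, ‖fderiv ℝ φ x‖ ^ 2 := by
  by_contra hcon
  push Not at hcon
  have hφ : Nc φ := Nc_of_compact h1.continuous h2
  have hV' := VS_Bc hu R'
  have hV := VS_Bc hu R
  set V := VS u R' with hVdef
  set A2 := ∫ x, φ x ^ 2 with hA2
  set D2 := ∫ x, ‖fderiv ℝ φ x‖ ^ 2 with hD2
  set q := (∫ x, V x * φ x ^ 2) - D2 with hq
  have hq0 : 0 < q := sub_pos.2 hcon
  have hD20 : 0 ≤ D2 := integral_nonneg fun x => sq_nonneg _
  have hA20 : 0 < A2 := by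
    have h0 : 0 ≤ A2 := integral_nonneg fun x => sq_nonneg _
    rcases h0.lt_or_eq with h | h
    · exact h
    · exfalso
      have h3 : φ = 0 := by
        have h4 : (fun x => φ x ^ 2) =ᵐ[volume] 0 :=
          (integral_eq_zero_iff_of_nonneg (fun x => sq_nonneg (φ x)) hφ.sq.int).1 h.symm
        have h5 := (hφ.sq.cont.ae_eq_iff_eq volume continuous_zero).1 h4
        ext x
        have := congrFun h5 x
        simpa using this
      have h6 : ∫ x, V x * φ x ^ 2 = 0 := by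
        rw [h3]; simp
      rw [h6] at hcon
      linarith
  -- bounds on the profiles
  choose Bj hBj using fun j => (hu j).bdd
  set B : ℝ := ∑ j, |Bj j| + 1 with hB
  have hB0 : 0 < B := by
    have : 0 ≤ ∑ j, |Bj j| := Finset.sum_nonneg fun _ _ => abs_nonneg _
    linarith
  have hBj' : ∀ j σ, 0 ≤ σ → |u j σ| ≤ B := by
    intro j σ hσ
    have g1 := (hBj j σ hσ).trans (le_abs_self _)
    have g2 := Finset.single_le_sum (f := fun j => |Bj j|) (fun _ _ => abs_nonneg _)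
      (Finset.mem_univ j)
    linarith
  have hVB : ∀ x, |V x| ≤ B := by
    intro x
    rw [hVdef]
    unfold VS
    refine (Finset.abs_sum_le_sum_abs _ _).trans ?_
    have : ∑ j, |u j (‖x - R' j‖ ^ 2)| ≤ ∑ j, |Bj j| :=
      Finset.sum_le_sum fun j _ => (hBj j _ (by positivity)).trans (le_abs_self _)
    linarith
  -- choice of the parameters
  set δ : ℝ := q / (8 * B * A2) with hδ
  have hδ0 : 0 < δ := by positivity
  set ε : ℝ := min (1 / (K * B)) (q * δ / (2 * B * (D2 + 1))) with hε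
  have hKr : (0 : ℝ) < K := by exact_mod_cast hK
  have hε0 : 0 < ε := lt_min (by positivity) (by positivity)
  have hε1 : ε ≤ 1 / (K * B) := min_le_left _ _
  have hε2 : ε ≤ q * δ / (2 * B * (D2 + 1)) := min_le_right _ _
  set c : ℝ := (2 * ε)⁻¹ with hc
  have hc0 : 0 < c := by positivity
  have hcε : (2 * c)⁻¹ = ε := by rw [hc]; field_simp
  have hpos : ∀ j σ, 0 ≤ σ → 0 ≤ 1 / (K : ℝ) + ε * u j σ := by
    intro j σ hσ
    have g1 := (abs_le.1 (hBj' j σ hσ)).1
    have g2 : ε * B ≤ 1 / K := by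
      calc ε * B ≤ 1 / (K * B) * B := mul_le_mul_of_nonneg_right hε1 hB0.le
        _ = 1 / K := by field_simp
    have g3 := mul_le_mul_of_nonneg_left g1 hε0.le
    linarith
  have hΦpos : ∀ S : Fin K → E3, ∀ x, 0 ≤ 1 + ε * VS u S x := by
    intro S x
    unfold VS
    have e : (1 : ℝ) = ∑ _j : Fin K, 1 / (K : ℝ) := by
      rw [Finset.sum_const, Finset.card_univ, Fintype.card_fin, nsmul_eq_mul]
      field_simp
    rw [e, Finset.mul_sum, ← Finset.sum_add_distrib]
    exact Finset.sum_nonneg fun j _ => hpos j _ (by positivity)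
  have hΦ : ∀ S : Fin K → E3, Bc fun x => 1 + ε * VS u S x := by
    intro S
    obtain ⟨B, hB⟩ := (VS_Bc hu S).bdd
    refine ⟨continuous_const.add (continuous_const.mul (VS_Bc hu S).cont), 1 + ε * B,
      fun x => ?_⟩
    refine (abs_add_le _ _).trans ?_
    rw [abs_one, abs_mul, abs_of_nonneg hε0.le]
    have := mul_le_mul_of_nonneg_left (hB x) hε0.le
    linarith
  -- lower bound for one step
  set a := P c φ with ha
  have hna : Nc a := P_Nc hc0 hφ
  set X := ∫ x, φ x * a x with hX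
  set Y := ∫ x, a x ^ 2 with hY
  have s1 : Y ≤ A2 := by
    have := bessel hc0 hφ
    have g : 0 ≤ (2 * c)⁻¹ * ∫ x, ‖fderiv ℝ (P c φ) x‖ ^ 2 :=
      mul_nonneg (by positivity) (integral_nonneg fun x => sq_nonneg _)
    linarith
  have s2 : A2 - X ≤ ε / 2 * D2 := by
    have := heat_lower hc0 h1 h2
    have g : (4 * c)⁻¹ = ε / 2 := by rw [hc]; field_simp; norm_num
    rw [g] at this
    exact this
  have s3 : ∫ x, (a x - φ x) ^ 2 = Y - 2 * X + A2 := by
    have e : ∀ x, (a x - φ x) ^ 2 = a x ^ 2 - 2 * (φ x * a x) + φ x ^ 2 := fun x => by ring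
    have i1 : Integrable fun x => a x ^ 2 - 2 * (φ x * a x) :=
      hna.sq.int.sub ((hφ.mul hna).int.const_mul 2)
    simp only [e]
    rw [integral_add i1 hφ.sq.int, integral_sub hna.sq.int ((hφ.mul hna).int.const_mul 2),
      integral_const_mul]
  have s4 : ∫ x, (a x + φ x) ^ 2 = Y + 2 * X + A2 := by
    have e : ∀ x, (a x + φ x) ^ 2 = a x ^ 2 + 2 * (φ x * a x) + φ x ^ 2 := fun x => by ring
    have i1 : Integrable fun x => a x ^ 2 + 2 * (φ x * a x) :=
      hna.sq.int.add ((hφ.mul hna).int.const_mul 2)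
    simp only [e]
    rw [integral_add i1 hφ.sq.int, integral_add hna.sq.int ((hφ.mul hna).int.const_mul 2),
      integral_const_mul]
  have s5 : 0 ≤ Y - 2 * X + A2 := by
    rw [← s3]; exact integral_nonneg fun x => sq_nonneg _
  have nsub : Nc fun x => a x - φ x := hna.sub hφ
  have nadd : Nc fun x => a x + φ x := by
    have := hna.sub (hφ.const_mul (-1))
    simpa using this
  have s6 : (∫ x, V x * φ x ^ 2) - B * (1 / (2 * δ) * (Y - 2 * X + A2) +
      δ / 2 * (Y + 2 * X + A2)) ≤ ∫ x, V x * a x ^ 2 := by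
    have j1 : Integrable fun x => 1 / (2 * δ) * (a x - φ x) ^ 2 := nsub.sq.int.const_mul _
    have j2 : Integrable fun x => δ / 2 * (a x + φ x) ^ 2 := nadd.sq.int.const_mul _
    have j3 : Integrable fun x => B * (1 / (2 * δ) * (a x - φ x) ^ 2 +
        δ / 2 * (a x + φ x) ^ 2) := (j1.add j2).const_mul B
    have j4 : Integrable fun x => V x * φ x ^ 2 := (hV'.mul_Nc hφ.sq).int
    have j5 : Integrable fun x => V x * a x ^ 2 := (hV'.mul_Nc hna.sq).int
    rw [← s3, ← s4, ← integral_const_mul, ← integral_const_mul,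
      ← integral_add j1 j2, ← integral_const_mul, ← integral_sub j4 j3]
    refine integral_mono (j4.sub j3) j5 fun x => ?_
    change V x * φ x ^ 2 - B * (1 / (2 * δ) * (a x - φ x) ^ 2 + δ / 2 * (a x + φ x) ^ 2) ≤
      V x * a x ^ 2
    set p := a x - φ x with hp
    set r := a x + φ x with hr
    have g1 : V x * a x ^ 2 - V x * φ x ^ 2 = V x * (p * r) := by rw [hp, hr]; ring
    have g2 : |V x * (p * r)| ≤ B * |p * r| := by
      rw [abs_mul]; exact mul_le_mul_of_nonneg_right (hVB x) (abs_nonneg _)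
    have g3 : |p * r| ≤ 1 / (2 * δ) * p ^ 2 + δ / 2 * r ^ 2 := by
      rw [abs_le]
      have e : 1 / (2 * δ) * p ^ 2 + δ / 2 * r ^ 2 = (p ^ 2 + δ ^ 2 * r ^ 2) / (2 * δ) := by
        field_simp
      rw [e]
      constructor
      · rw [neg_le_iff_add_nonneg]
        have : p * r + (p ^ 2 + δ ^ 2 * r ^ 2) / (2 * δ) = (p + δ * r) ^ 2 / (2 * δ) := by
          field_simp; ring
        rw [this]; positivity
      · rw [← sub_nonneg]
        have : (p ^ 2 + δ ^ 2 * r ^ 2) / (2 * δ) - p * r = (p - δ * r) ^ 2 / (2 * δ) := by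
          field_simp; ring
        rw [this]; positivity
    have g4 := mul_le_mul_of_nonneg_left g3 hB0.le
    have g5 := (abs_le.1 (g2.trans g4)).1
    linarith
  have s7 : ∫ x, φ x * Cop c (fun x => 1 + ε * V x) φ x = Y + ε * ∫ x, V x * a x ^ 2 := by
    rw [Cop_pair hc0 (hΦ R') hφ hφ, ← integral_const_mul, ← integral_add hna.sq.int
      ((hV'.mul_Nc hna.sq).int.const_mul ε)]
    refine integral_congr_ae (Eventually.of_forall fun x => ?_)
    simp only [← ha]
    ring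
  have s8 : A2 + ε * (q / 2) ≤ ∫ x, φ x * Cop c (fun x => 1 + ε * V x) φ x := by
    rw [s7]
    have t1 : 1 / (2 * δ) * (Y - 2 * X + A2) ≤ 1 / (2 * δ) * (ε * D2) :=
      mul_le_mul_of_nonneg_left (by linarith) (by positivity)
    have t2 : δ / 2 * (Y + 2 * X + A2) ≤ δ / 2 * (4 * A2) :=
      mul_le_mul_of_nonneg_left (by linarith) (by positivity)
    have t3 : B * (1 / (2 * δ) * (ε * D2)) ≤ q / 4 := by
      have : ε * (2 * B * (D2 + 1)) ≤ q * δ := by
        rwa [le_div_iff₀ (by positivity)] at hε2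
      have e : B * (1 / (2 * δ) * (ε * D2)) = B * (ε * D2) / (2 * δ) := by field_simp
      rw [e, div_le_iff₀ (by positivity)]
      have e2 : ε * (2 * B * (D2 + 1)) = 2 * (B * (ε * D2)) + 2 * (B * ε) := by ring
      rw [e2] at this
      have e3 := mul_pos hB0 hε0
      linarith
    have t4 : B * (δ / 2 * (4 * A2)) = q / 4 := by rw [hδ]; field_simp; norm_num
    have t5 : (∫ x, V x * φ x ^ 2) - q / 2 ≤ ∫ x, V x * a x ^ 2 := by
      have := mul_le_mul_of_nonneg_left (add_le_add t1 t2) hB0.le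
      rw [mul_add, mul_add] at this
      linarith
    have t6 := mul_le_mul_of_nonneg_left t5 hε0.le
    have t7 : A2 - ε * D2 ≤ Y := by linarith
    have t8 : ∫ x, V x * φ x ^ 2 = q + D2 := by rw [hq]; ring
    rw [t8] at t6
    have t9 : ε * (q + D2 - q / 2) = ε * (q / 2) + ε * D2 := by ring
    rw [t9] at t6
    linarith
  set μ : ℝ := 1 + ε * (q / 2) / A2 with hμ
  have hμ1 : 1 < μ := by
    have : 0 < ε * (q / 2) / A2 := by positivity
    linarith
  have hμA : μ * A2 = A2 + ε * (q / 2) := by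
    rw [hμ, add_mul, one_mul, div_mul_cancel₀ _ hA20.ne']
  have hgrow := It_growth hc0 (hΦ R') hφ (μ := μ) (by linarith) hA20 (hμA.le.trans s8)
  -- domination
  obtain ⟨A, hA⟩ : ∃ A : ℝ, ∀ x, |φ x| ≤ A * fS R' x := by
    obtain ⟨Bφ, hBφ⟩ := hφ.bdd
    rcases (tsupport φ).eq_empty_or_nonempty with hemp | hne
    · refine ⟨0, fun x => ?_⟩
      have : φ x = 0 := image_eq_zero_of_notMem_tsupport (by rw [hemp]; exact Set.notMem_empty x)
      rw [this]; simp
    · obtain ⟨x0, -, hx0⟩ := h2.isCompact.exists_isMinOn hne (fS_Nc R').cont.continuousOn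
      have hp := fS_pos hK R' x0
      refine ⟨|Bφ| / fS R' x0, fun x => ?_⟩
      by_cases hx : x ∈ tsupport φ
      · have g1 : fS R' x0 ≤ fS R' x := hx0 hx
        rw [div_mul_eq_mul_div, le_div_iff₀ hp]
        exact mul_le_mul ((hBφ x).trans (le_abs_self _)) g1 hp.le (abs_nonneg _)
      · rw [image_eq_zero_of_notMem_tsupport hx, abs_zero]
        have := fS_pos hK R' x
        positivity
  have hfin : ∀ m : ℕ, (μ ^ 2) ^ (m + 1) * A2 ≤ A ^ 2 * ∫ x, fS R x ^ 2 := by
    intro m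
    refine (hgrow (m + 1)).trans ?_
    have g1 : ∫ x, It c (fun x => 1 + ε * V x) φ (m + 1) x ^ 2 ≤
        ∫ x, A ^ 2 * It c (fun x => 1 + ε * V x) (fS R') (m + 1) x ^ 2 := by
      refine integral_mono (It_Nc hc0 (hΦ R') hφ _).sq.int
        ((It_Nc hc0 (hΦ R') (fS_Nc R') _).sq.int.const_mul _) fun x => ?_
      have g2 := It_dom hc0 (hΦ R') (hΦpos R') hφ (fS_Nc R') hA (m + 1) x
      have g3 := pow_le_pow_left₀ (abs_nonneg _) g2 2
      rw [sq_abs, mul_pow] at g3
      exact g3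
    rw [integral_const_mul] at g1
    have g4 := It_compare hc0 hK k hk R R' hpath u hu hε0.le hpos m
    have g5 := It_contract hc0 hV (by rw [hcε]; exact hΦpos R) H (fS_Nc R)
      (by rw [hcε]; exact hΦ R) (m + 1)
    rw [hcε] at g5
    exact g1.trans (mul_le_mul_of_nonneg_left (g4.trans g5) (sq_nonneg _))
  have hμ2 : 1 < μ ^ 2 := one_lt_pow₀ hμ1 two_ne_zero
  have htend := tendsto_pow_atTop_atTop_of_one_lt hμ2
  obtain ⟨N, hN⟩ := (htend.eventually_gt_atTop ((A ^ 2 * ∫ x, fS R x ^ 2) / A2)).exists_forall_of_atTop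
  have g1 := hN (N + 1) (Nat.le_succ N)
  have g2 := hfin N
  rw [div_lt_iff₀ hA20] at g1
  linarith

end Pool.Agent.Y657.EM
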