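import Pool.Agent.Y657.EM.Trunc

set_option autoImplicit false

open MeasureTheory Filter
open scoped Topology

namespace Pool.Agent.Y657.EM

open Pool.Agent.Helper985.Pol (Adm Q en Rad)

theorem ae_ne {K : ℕ} (R : Fin K → E3) : ∀ᵐ x : E3, ∀ j, x ≠ R j := by
  rw [ae_all_iff]
  intro j
  rw [ae_iff]
  simp

theorem Q_low_eq {K : ℕ} {W : Fin K → E3 → ℝ} (hW : ∀ j, Rad (W j)) (R : Fin K → E3) (B : ℝ) :
    ∃ L1, ∀ L, L1 ≤ L → ∀ ψ : E3 → ℝ, (∀ x, B ≤ ‖x‖ → ψ x = 0) →
      Q (fun j => low L (W j)) R ψ = Q W R ψ := by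
  set T : ℝ := |B| + ∑ j, ‖R j‖ + 1 with hT
  have hT0 : 0 < T := by
    have : 0 ≤ ∑ j, ‖R j‖ := Finset.sum_nonneg fun j _ => norm_nonneg _
    have := abs_nonneg B
    linarith
  refine ⟨∑ j, |prof (W j) (T ^ 2)|, fun L hL ψ hψ => ?_⟩
  unfold Q
  congr 1
  refine integral_congr_ae ?_
  filter_upwards [ae_ne R] with x hx
  by_cases hB : B ≤ ‖x‖
  · rw [hψ x hB]; simp
  · push Not at hB
    congr 1
    refine Finset.sum_congr rfl fun j _ => ?_
    unfold low
    refine max_eq_left ?_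
    have h1 : ‖x - R j‖ ≤ T := by
      have h2 : ‖R j‖ ≤ ∑ j, ‖R j‖ :=
        Finset.single_le_sum (f := fun j => ‖R j‖) (fun _ _ => norm_nonneg _) (Finset.mem_univ j)
      have h3 := norm_sub_le x (R j)
      have h4 := le_abs_self B
      linarith
    have h5 : 0 < ‖x - R j‖ := norm_pos_iff.2 (sub_ne_zero.2 (hx j))
    have h6 := prof_anti (hW j) (a := ‖x - R j‖ ^ 2) (b := T ^ 2)
      (show (0 : ℝ) < ‖x - R j‖ ^ 2 from pow_pos h5 2)
      (show (0 : ℝ) < T ^ 2 from pow_pos hT0 2) (pow_le_pow_left₀ (norm_nonneg _) h1 2)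
    rw [← prof_apply (hW j)] at h6
    have h7 : |prof (W j) (T ^ 2)| ≤ ∑ j, |prof (W j) (T ^ 2)| :=
      Finset.single_le_sum (f := fun j => |prof (W j) (T ^ 2)|) (fun _ _ => abs_nonneg _)
        (Finset.mem_univ j)
    have h8 := neg_abs_le (prof (W j) (T ^ 2))
    linarith

theorem grad_int {φ : E3 → ℝ} (h1 : ContDiff ℝ 1 φ) (h2 : HasCompactSupport φ) :
    Integrable (fun x => ‖fderiv ℝ φ x‖ ^ 2) := by
  have hc : Continuous (fun x => ‖fderiv ℝ φ x‖ ^ 2) :=
    ((h1.continuous_fderiv (by norm_num)).norm).pow 2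
  refine hc.integrable_of_hasCompactSupport ?_
  have h3 : HasCompactSupport (fderiv ℝ φ) := h2.fderiv (𝕜 := ℝ)
  have : (fun x => ‖fderiv ℝ φ x‖ ^ 2) = (fun A : E3 →L[ℝ] ℝ => ‖A‖ ^ 2) ∘ (fderiv ℝ φ) := rfl
  rw [this]
  exact h3.comp_left (by simp)

/-- The energies of the truncated potentials are eventually almost as large. -/
theorem en_trunc {K : ℕ} (W : Fin K → E3 → ℝ) (hW : ∀ j, Rad (W j)) (R : Fin K → E3)
    (j0 : Fin K) (hj0 : ¬ BddBelow (prof (W j0) '' Set.Ioi 0)) {e ε : ℝ} (hε : 0 < ε)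
    (he : (e : EReal) ≤ en W R) :
    ∃ L0, ∀ L, L0 ≤ L → ((e - ε : ℝ) : EReal) ≤ en (fun j => low L (W j)) R := by
  set c : Fin K → ℝ := fun j => prof (W j) 1 with hc
  set C : ℝ := ∑ j, |c j| with hC
  have hC0 : 0 ≤ C := Finset.sum_nonneg fun j _ => abs_nonneg _
  obtain ⟨_, ⟨s0, hs0, rfl⟩, hT⟩ := (not_bddBelow_iff.1 hj0) (-(C + |e|))
  have hs0' : (0 : ℝ) < s0 := hs0
  obtain ⟨ρ, hρ, hρ1, θ, hθ, hθ0, hθ1, hθ2⟩ :=
    exists_angle (∑ j, ‖R j‖ + 1 + Real.sqrt s0) ε hε
  obtain ⟨L1, hL1⟩ := Q_low_eq hW R (2 * ρ)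
  refine ⟨max (C + |e|) L1, fun L hL => ?_⟩
  have hLa : C + |e| ≤ L := (le_max_left _ _).trans hL
  have hLb : L1 ≤ L := (le_max_right _ _).trans hL
  have habs := abs_nonneg e
  have hL0 : 0 ≤ L := by linarith
  unfold en
  refine le_iInf₂ fun φ hφ => ?_
  obtain ⟨hφ1, hφ2, hφ3⟩ := hφ
  set ψ1 : E3 → ℝ := fun y => Real.cos (θ y) * φ y with hψ1
  set ψ2 : E3 → ℝ := fun y => Real.sin (θ y) * φ y with hψ2
  have cd1 : ContDiff ℝ 1 ψ1 := (Real.contDiff_cos.comp hθ).mul hφ1
  have cd2 : ContDiff ℝ 1 ψ2 := (Real.contDiff_sin.comp hθ).mul hφ1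
  have hs1 : HasCompactSupport ψ1 := hφ2.mul_left
  have hs2 : HasCompactSupport ψ2 := hφ2.mul_left
  have hsq : ∀ x, ψ1 x ^ 2 + ψ2 x ^ 2 = φ x ^ 2 := by
    intro x
    simp only [hψ1, hψ2]
    have := Real.cos_sq_add_sin_sq (θ x)
    calc (Real.cos (θ x) * φ x) ^ 2 + (Real.sin (θ x) * φ x) ^ 2 =
        (Real.cos (θ x) ^ 2 + Real.sin (θ x) ^ 2) * φ x ^ 2 := by ring
      _ = φ x ^ 2 := by rw [this, one_mul]
  have i1 : Integrable (fun x => ψ1 x ^ 2) :=
    (cd1.continuous.pow 2).integrable_of_hasCompactSupport (sq_comp_hcs hs1)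
  have i2 : Integrable (fun x => ψ2 x ^ 2) :=
    (cd2.continuous.pow 2).integrable_of_hasCompactSupport (sq_comp_hcs hs2)
  have i0 : Integrable (fun x => φ x ^ 2) :=
    (hφ1.continuous.pow 2).integrable_of_hasCompactSupport (sq_comp_hcs hφ2)
  have hE : (∫ x, ψ1 x ^ 2) + ∫ x, ψ2 x ^ 2 = 1 := by
    rw [← integral_add i1 i2, ← hφ3]
    exact integral_congr_ae (Eventually.of_forall hsq)
  -- gradients
  have hgrad : (∫ x, ‖fderiv ℝ ψ1 x‖ ^ 2) + ∫ x, ‖fderiv ℝ ψ2 x‖ ^ 2 ≤
      (∫ x, ‖fderiv ℝ φ x‖ ^ 2) + ε := by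
    rw [← integral_add (grad_int cd1 hs1) (grad_int cd2 hs2)]
    have h1 : (∫ x, ‖fderiv ℝ φ x‖ ^ 2) + ε = ∫ x, (‖fderiv ℝ φ x‖ ^ 2 + ε * φ x ^ 2) := by
      rw [integral_add (grad_int hφ1 hφ2) (i0.const_mul ε), integral_const_mul, hφ3, mul_one]
    rw [h1]
    refine integral_mono ((grad_int cd1 hs1).add (grad_int cd2 hs2))
      ((grad_int hφ1 hφ2).add (i0.const_mul ε)) fun x => ?_
    have h2 := cos_sin_grad hθ hφ1 x
    change ‖fderiv ℝ ψ1 x‖ ^ 2 + ‖fderiv ℝ ψ2 x‖ ^ 2 ≤ ‖fderiv ℝ φ x‖ ^ 2 + ε * φ x ^ 2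
    rw [h2]
    have h3 := mul_le_mul_of_nonneg_left (hθ2 x) (sq_nonneg (φ x))
    linarith
  -- potentials
  have hli : ∀ j, LocallyIntegrable (low L (W j)) := fun j => (low_rad (hW j) L).li
  have hpot : Q (fun j => low L (W j)) R ψ1 + Q (fun j => low L (W j)) R ψ2 - ε ≤
      Q (fun j => low L (W j)) R φ := by
    rw [Q_sum hli cd1.continuous hs1, Q_sum hli cd2.continuous hs2,
      Q_sum hli hφ1.continuous hφ2]
    have h1 : ∀ j, ∫ x, low L (W j) (x - R j) * φ x ^ 2 =
        (∫ x, low L (W j) (x - R j) * ψ1 x ^ 2) + ∫ x, low L (W j) (x - R j) * ψ2 x ^ 2 := by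
      intro j
      rw [← integral_add (pot_int (hli j) cd1.continuous hs1 _)
        (pot_int (hli j) cd2.continuous hs2 _)]
      refine integral_congr_ae (Eventually.of_forall fun x => ?_)
      simp only
      rw [← hsq x]
      ring
    simp only [h1, Finset.sum_add_distrib]
    linarith
  have hin : e * (∫ x, ψ1 x ^ 2) ≤ Q (fun j => low L (W j)) R ψ1 := by
    rw [hL1 L hLb ψ1]
    · refine form_of_adm (V := fun x => ∑ j, W j (x - R j)) ?_ ψ1 cd1 hs1
      intro φ' hφ'
      have : ((e : ℝ) : EReal) ≤ ((Q W R φ' : ℝ) : EReal) := he.trans (iInf₂_le φ' hφ')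
      exact_mod_cast this
    · intro x hx
      simp only [hψ1, hθ1 x hx, Real.cos_pi_div_two, zero_mul]
  have hout : |e| * (∫ x, ψ2 x ^ 2) ≤ Q (fun j => low L (W j)) R ψ2 := by
    unfold Q
    have h1 : 0 ≤ ∫ x, ‖fderiv ℝ ψ2 x‖ ^ 2 := integral_nonneg fun x => sq_nonneg _
    have h2 : ∫ x, (∑ j, low L (W j) (x - R j)) * ψ2 x ^ 2 ≤ ∫ x, -|e| * ψ2 x ^ 2 := by
      refine integral_mono ?_ (i2.const_mul _) fun x => ?_
      · have : Integrable (fun x => ∑ j, low L (W j) (x - R j) * ψ2 x ^ 2) :=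
          integrable_finsetSum _ fun j _ => pot_int (hli j) cd2.continuous hs2 _
        refine this.congr (Eventually.of_forall fun x => ?_)
        simp only [Finset.sum_mul]
      · by_cases hx : ‖x‖ ≤ ρ
        · have : ψ2 x = 0 := by simp only [hψ2, hθ0 x hx, Real.sin_zero, zero_mul]
          simp only [this]
          simp
        · push Not at hx
          refine mul_le_mul_of_nonneg_right ?_ (sq_nonneg _)
          have hdist : ∀ j, 1 ≤ ‖x - R j‖ ∧ Real.sqrt s0 ≤ ‖x - R j‖ := by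
            intro j
            have h3 : ‖R j‖ ≤ ∑ j, ‖R j‖ :=
              Finset.single_le_sum (f := fun j => ‖R j‖) (fun _ _ => norm_nonneg _)
                (Finset.mem_univ j)
            have h4 := norm_sub_norm_le x (R j)
            have h5 := Real.sqrt_nonneg s0
            constructor <;> linarith
          have ha : ∀ j, low L (W j) (x - R j) ≤ |c j| := by
            intro j
            unfold low
            refine max_le ?_ ?_
            · have h3 := prof_anti (hW j) (a := 1) (b := ‖x - R j‖ ^ 2) (show (0 : ℝ) < 1 by norm_num)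
                (show (0 : ℝ) < ‖x - R j‖ ^ 2 by
                  have := (hdist j).1
                  positivity)
                (by nlinarith [(hdist j).1])
              rw [← prof_apply (hW j)] at h3
              exact h3.trans (le_abs_self _)
            · have := abs_nonneg (c j)
              linarith
          have hb : low L (W j0) (x - R j0) ≤ -(C + |e|) := by
            unfold low
            refine max_le ?_ (by linarith)
            have h3 := prof_anti (hW j0) (a := s0) (b := ‖x - R j0‖ ^ 2) hs0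
                (show (0 : ℝ) < ‖x - R j0‖ ^ 2 by
                  have := (hdist j0).1
                  positivity)
                (by
                  have h5 := (hdist j0).2
                  have h6 := Real.sq_sqrt hs0'.le
                  have h7 := Real.sqrt_nonneg s0
                  nlinarith)
            rw [← prof_apply (hW j0)] at h3
            linarith
          rw [← Finset.add_sum_erase _ _ (Finset.mem_univ j0)]
          have h8 : ∑ j ∈ Finset.univ.erase j0, low L (W j) (x - R j) ≤ C := by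
            refine (Finset.sum_le_sum fun j _ => ha j).trans ?_
            exact Finset.sum_le_sum_of_subset_of_nonneg (Finset.erase_subset _ _)
              fun j _ _ => abs_nonneg _
          linarith
    rw [integral_const_mul] at h2
    linarith
  have hfin : e - ε ≤ Q (fun j => low L (W j)) R φ := by
    have h1 : e * (∫ x, ψ2 x ^ 2) ≤ |e| * ∫ x, ψ2 x ^ 2 :=
      mul_le_mul_of_nonneg_right (le_abs_self e) (integral_nonneg fun x => sq_nonneg _)
    have h2 : e * (∫ x, ψ1 x ^ 2) + e * ∫ x, ψ2 x ^ 2 = e := by rw [← mul_add, hE, mul_one]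
    linarith
  exact_mod_cast hfin

theorem low_shape {k : ℕ} {w : E3 → ℝ} (hw : Rad w) (h : Shape k (prof w)) (L : ℝ) :
    Shape k (prof (low L w)) where
  anti := prof_anti (low_rad hw L)
  conv := by
    intro hk
    exact (h.conv hk).sup (convexOn_const (-L) (convex_Ioi 0))

/-- General radial nonincreasing potentials. -/
theorem en_general {K : ℕ} (hK : 0 < K) (k : ℕ) (hk : k ≤ 1) (R R' : Fin K → E3)
    (hpath : Path (3 + 2 * (k + 1)) R R')
    (W : Fin K → E3 → ℝ) (hW : ∀ j, Rad (W j)) (hS : ∀ j, Shape k (prof (W j))) :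
    en W R ≤ en W R' := by
  by_cases hb : ∀ j, BddBelow (prof (W j) '' Set.Ioi 0)
  · exact en_lower hK k hk R R' hpath W hW hS hb
  · push Not at hb
    obtain ⟨j0, hj0⟩ := hb
    conv_rhs => unfold en
    refine le_iInf₂ fun φ hφ => ?_
    by_contra hcon
    push Not at hcon
    obtain ⟨e, he1, he2⟩ := EReal.lt_iff_exists_real_btwn.1 hcon
    have he1' : Q W R' φ < e := by exact_mod_cast he1
    obtain ⟨L0, hL0⟩ := en_trunc W hW R j0 hj0 (ε := (e - Q W R' φ) / 2) (by linarith) he2.le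
    obtain ⟨B, hB⟩ : ∃ B, ∀ x, B ≤ ‖x‖ → φ x = 0 := by
      obtain ⟨B, hB⟩ := hφ.2.1.isCompact.isBounded.exists_norm_le
      refine ⟨B + 1, fun x hx => ?_⟩
      by_contra h
      have := hB x (subset_tsupport _ h)
      linarith
    obtain ⟨L1, hL1⟩ := Q_low_eq hW R' B
    have h1 := hL0 (max L0 L1) (le_max_left _ _)
    have h2 := hL1 (max L0 L1) (le_max_right _ _) φ hB
    have h3 : en (fun j => low (max L0 L1) (W j)) R ≤ en (fun j => low (max L0 L1) (W j)) R' := by
      refine en_lower hK k hk R R' hpath _ (fun j => low_rad (hW j) _)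
        (fun j => low_shape (hW j) (hS j) _) fun j => ?_
      refine ⟨-(max L0 L1), ?_⟩
      rintro _ ⟨s, _, rfl⟩
      exact le_max_right _ _
    have h4 : en (fun j => low (max L0 L1) (W j)) R' ≤
        ((Q (fun j => low (max L0 L1) (W j)) R' φ : ℝ) : EReal) := iInf₂_le φ hφ
    have h5 := h1.trans (h3.trans h4)
    rw [h2] at h5
    have h6 : e - (e - Q W R' φ) / 2 ≤ Q W R' φ := by exact_mod_cast h5
    linarith

end Pool.Agent.Y657.EM
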