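import Pool.Agent.Y657.EM.Embed
import Pool.Agent.Y657.EM.General

set_option autoImplicit false

open MeasureTheory Filter
open scoped Topology

namespace Pool.Agent.Y657.EM

open Pool.Agent.Helper985.Pol (Adm Q en Rad)

/-- a linear relation between the two configurations -/
theorem path_rel {K : ℕ} (R R' : Fin K → E3)
    (hle : ∀ i j, dist (R i) (R j) ≤ dist (R' i) (R' j))
    (h : ∃ u v : E3, (u ≠ 0 ∨ v ≠ 0) ∧ ∀ i j, inner ℝ u (R i - R j) = inner ℝ v (R' i - R' j)) :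
    Path 5 R R' := by
  obtain ⟨u, v, huv, hrel⟩ := h
  have hdim : Module.finrank ℝ (WithLp 2 (E3 × E3)) = 5 + 1 := by
    rw [(WithLp.linearEquiv 2 ℝ (E3 × E3)).finrank_eq, Module.finrank_prod]
    simp
  have : Fact (Module.finrank ℝ (WithLp 2 (E3 × E3)) = 5 + 1) := ⟨hdim⟩
  refine path_lin R R' hle fun t ht => ?_
  suffices hn : ∃ n : WithLp 2 (E3 × E3), n ≠ 0 ∧
      ∀ a b, inner ℝ n (ipt R R' t a - ipt R R' t b) = 0 by
    obtain ⟨n, hn0, hn⟩ := hn
    refine ⟨(Submodule.span ℝ {n})ᗮ, ?_, fun a b => ?_⟩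
    · exact (Submodule.finrank_orthogonal_span_singleton (n := 5) hn0).le
    · rw [Submodule.mem_orthogonal_singleton_iff_inner_right]
      exact hn a b
  have hin : ∀ (x y : E3) (a b : Fin K), inner ℝ (WithLp.toLp 2 (x, y) : WithLp 2 (E3 × E3))
      (ipt R R' t a - ipt R R' t b) =
      Real.sqrt (1 - t) * inner ℝ x (R a - R b) + Real.sqrt t * inner ℝ y (R' a - R' b) := by
    intro x y a b
    rw [WithLp.prod_inner_apply]
    have e1 : (WithLp.ofLp (ipt R R' t a - ipt R R' t b)).1 = Real.sqrt (1 - t) • (R a - R b) := by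
      rw [smul_sub]; rfl
    have e2 : (WithLp.ofLp (ipt R R' t a - ipt R R' t b)).2 = Real.sqrt t • (R' a - R' b) := by
      rw [smul_sub]; rfl
    rw [e1, e2, real_inner_smul_right, real_inner_smul_right]
  have hne : ∀ x y : E3, (x ≠ 0 ∨ y ≠ 0) → (WithLp.toLp 2 (x, y) : WithLp 2 (E3 × E3)) ≠ 0 := by
    intro x y hxy h0
    have h1 : (x, y) = (0 : E3 × E3) := by
      have := congrArg WithLp.ofLp h0
      simpa using this
    rw [Prod.mk_eq_zero] at h1
    rcases hxy with h | h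
    · exact h h1.1
    · exact h h1.2
  have he : (EuclideanSpace.single 0 1 : E3) ≠ 0 := by
    intro h
    have : ‖(EuclideanSpace.single 0 1 : E3)‖ = 0 := by rw [h, norm_zero]
    simp at this
  rcases ht.1.eq_or_lt with h0 | h0
  · subst h0
    refine ⟨WithLp.toLp 2 (0, EuclideanSpace.single 0 1), hne _ _ (Or.inr he), fun a b => ?_⟩
    rw [hin]
    simp
  · rcases ht.2.eq_or_lt with h1 | h1
    · subst h1
      refine ⟨WithLp.toLp 2 (EuclideanSpace.single 0 1, 0), hne _ _ (Or.inl he), fun a b => ?_⟩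
      rw [hin]
      simp
    · refine ⟨WithLp.toLp 2 (Real.sqrt t • u, -(Real.sqrt (1 - t) • v)), hne _ _ ?_,
        fun a b => ?_⟩
      · have s1 : Real.sqrt t ≠ 0 := (Real.sqrt_pos.2 h0).ne'
        have s2 : Real.sqrt (1 - t) ≠ 0 := (Real.sqrt_pos.2 (by linarith)).ne'
        rcases huv with h | h
        · exact Or.inl (smul_ne_zero s1 h)
        · exact Or.inr (neg_ne_zero.2 (smul_ne_zero s2 h))
      · rw [hin, inner_neg_left, real_inner_smul_left, real_inner_smul_left, hrel a b]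
        ring

/-- families of configurations with continuous nondecreasing distances -/
theorem path_dist {K D : ℕ} (R R' : Fin K → E3) (p : ℝ → Fin K → EuclideanSpace ℝ (Fin D))
    (hc : ∀ i j, ContinuousOn (fun t => dist (p t i) (p t j)) (Set.Icc 0 1))
    (hm : ∀ i j, MonotoneOn (fun t => dist (p t i) (p t j)) (Set.Icc 0 1))
    (h0 : ∀ i j, dist (p 0 i) (p 0 j) = dist (R i) (R j))
    (h1 : ∀ i j, dist (p 1 i) (p 1 j) = dist (R' i) (R' j)) : Path D R R' := by
  refine ⟨fun t i j => dist (p t i) (p t j) ^ 2, ?_, ?_, ?_, ?_, ?_⟩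
  · intro a b
    exact (hc a b).pow 2
  · intro a b s hs t ht hst
    exact pow_le_pow_left₀ dist_nonneg (hm a b hs ht hst) 2
  · ext i j
    change dist (p 0 i) (p 0 j) ^ 2 = _
    rw [h0, dist_eq_norm]
  · ext i j
    change dist (p 1 i) (p 1 j) ^ 2 = _
    rw [h1, dist_eq_norm]
  · intro t _
    refine ⟨fun a k => p t a k, fun a b => ?_⟩
    change dist (p t a) (p t b) ^ 2 = ∑ k, (p t a k - p t b k) ^ 2
    rw [dist_eq_norm, EuclideanSpace.norm_sq_eq]
    refine Finset.sum_congr rfl fun k _ => ?_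
    rw [Real.norm_eq_abs, sq_abs]
    rfl

theorem rad_smul {z : ℝ} (hz : 0 < z) {w : E3 → ℝ} (hli : LocallyIntegrable w)
    (hrad : ∀ x y : E3, ‖x‖ = ‖y‖ → w x = w y)
    (hmono : ∀ x y : E3, x ≠ 0 → ‖x‖ ≤ ‖y‖ → w y ≤ w x) : Rad (fun x => z * w x) := by
  refine ⟨hli.smul z, ?_, ?_⟩
  · intro x y hxy
    rw [hrad x y hxy]
  · intro x y hx hxy
    exact mul_le_mul_of_nonneg_left (hmono x y hx hxy) hz.le

theorem five_dim (K : ℕ) (z : Fin K → ℝ) (w : Fin K → E3 → ℝ) (hz : ∀ j, 0 < z j)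
    (hli : ∀ j, LocallyIntegrable (w j))
    (hrad : ∀ j, ∀ x y : E3, ‖x‖ = ‖y‖ → w j x = w j y)
    (hmono : ∀ j, ∀ x y : E3, x ≠ 0 → ‖x‖ ≤ ‖y‖ → w j y ≤ w j x)
    (R R' : Fin K → E3) (hle : ∀ i j, dist (R i) (R j) ≤ dist (R' i) (R' j))
    (hyp : K ≤ 6 ∨ Coplanar ℝ (Set.range R) ∨ Coplanar ℝ (Set.range R') ∨
      (∃ u v : E3, (u ≠ 0 ∨ v ≠ 0) ∧ ∀ i j, inner ℝ u (R i - R j) = inner ℝ v (R' i - R' j)) ∨
      (∃ p : ℝ → Fin K → EuclideanSpace ℝ (Fin 5),
        (∀ i j, ContinuousOn (fun t => dist (p t i) (p t j)) (Set.Icc 0 1)) ∧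
        (∀ i j, MonotoneOn (fun t => dist (p t i) (p t j)) (Set.Icc 0 1)) ∧
        (∀ i j, dist (p 0 i) (p 0 j) = dist (R i) (R j)) ∧
        ∀ i j, dist (p 1 i) (p 1 j) = dist (R' i) (R' j))) :
    en (fun j x => z j * w j x) R ≤ en (fun j x => z j * w j x) R' := by
  rcases Nat.eq_zero_or_pos K with rfl | hK
  · rw [Subsingleton.elim R R']
  have hW : ∀ j, Rad (fun x => z j * w j x) := fun j => rad_smul (hz j) (hli j) (hrad j) (hmono j)
  have five : Path 5 R R' → en (fun j x => z j * w j x) R ≤ en (fun j x => z j * w j x) R' :=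
    fun hp => en_general hK 0 (by norm_num) R R' hp _ hW
      fun j => ⟨prof_anti (hW j), fun h => absurd h (by norm_num)⟩
  rcases hyp with h | h | h | h | h
  · exact five (path_few (by omega) R R' hle)
  · exact five (path_coplanar_left R R' hle h)
  · exact five (path_coplanar_right R R' hle h)
  · exact five (path_rel R R' hle h)
  · obtain ⟨p, h1, h2, h3, h4⟩ := h
    exact five (path_dist R R' p h1 h2 h3 h4)

theorem convex_sq (K : ℕ) (z : Fin K → ℝ) (w : Fin K → E3 → ℝ) (hz : ∀ j, 0 < z j)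
    (hli : ∀ j, LocallyIntegrable (w j))
    (hrad : ∀ j, ∀ x y : E3, ‖x‖ = ‖y‖ → w j x = w j y)
    (hmono : ∀ j, ∀ x y : E3, x ≠ 0 → ‖x‖ ≤ ‖y‖ → w j y ≤ w j x)
    (hconv : ∀ j, ConvexOn ℝ (Set.Ioi 0)
        (fun s => w j (Real.sqrt s • (EuclideanSpace.single 0 1 : E3))))
    (R R' : Fin K → E3) (hle : ∀ i j, dist (R i) (R j) ≤ dist (R' i) (R' j)) :
    en (fun j x => z j * w j x) R ≤ en (fun j x => z j * w j x) R' := by
  rcases Nat.eq_zero_or_pos K with rfl | hK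
  · rw [Subsingleton.elim R R']
  have hW : ∀ j, Rad (fun x => z j * w j x) := fun j => rad_smul (hz j) (hli j) (hrad j) (hmono j)
  refine en_general hK 1 le_rfl R R' (path_seven R R' hle) _ hW fun j => ⟨prof_anti (hW j), ?_⟩
  intro _
  exact (hconv j).smul (hz j).le

end Pool.Agent.Y657.EM
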