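import Pool.Agent.Y657.EM.MMat

set_option autoImplicit false

open Matrix MeasureTheory
open scoped MatrixOrder Kronecker

namespace Pool.Agent.Y657.EM

theorem exists_factor {ι : Type*} [Fintype ι] [DecidableEq ι] (M : Matrix ι ι ℝ)
    (hM : M.PosDef) : ∃ B : Matrix ι ι ℝ, M = Bᵀ * B ∧ B.det ≠ 0 := by
  obtain ⟨B, hB⟩ := CStarAlgebra.nonneg_iff_eq_star_mul_self.mp hM.posSemidef.nonneg
  refine ⟨B, ?_, ?_⟩
  · rw [hB, star_eq_conjTranspose]
    congr 1
  · intro h0
    have h1 := hM.det_pos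
    rw [hB, det_mul, h0, mul_zero] at h1
    exact lt_irrefl _ h1

theorem integrable_gauss_std (ι : Type*) [Fintype ι] :
    Integrable (fun y : ι → ℝ => Real.exp (-∑ i, y i ^ 2)) := by
  have h : (fun y : ι → ℝ => Real.exp (-∑ i, y i ^ 2)) = fun y => ∏ i, Real.exp (-y i ^ 2) := by
    ext y
    rw [← Real.exp_sum, Finset.sum_neg_distrib]
  rw [h]
  refine Integrable.fintype_prod (f := fun _ (y : ℝ) => Real.exp (-y ^ 2)) fun i => ?_
  have := integrable_exp_neg_mul_sq (b := 1) one_pos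
  simpa using this

theorem integral_gauss_std (ι : Type*) [Fintype ι] :
    ∫ y : ι → ℝ, Real.exp (-∑ i, y i ^ 2) = (√Real.pi) ^ (Fintype.card ι) := by
  have h : (fun y : ι → ℝ => Real.exp (-∑ i, y i ^ 2)) = fun y => ∏ i, Real.exp (-y i ^ 2) := by
    ext y
    rw [← Real.exp_sum, Finset.sum_neg_distrib]
  rw [h, integral_fintype_prod_volume_eq_pow (fun y : ℝ => Real.exp (-y ^ 2))]
  have := integral_gaussian 1
  simp only [neg_mul, one_mul, div_one] at this
  rw [this]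

theorem integral_posDef {ι : Type*} [Fintype ι] [DecidableEq ι] (M : Matrix ι ι ℝ)
    (hM : M.PosDef) :
    Integrable (fun x : ι → ℝ => Real.exp (-(x ⬝ᵥ M *ᵥ x))) ∧
    ∫ x : ι → ℝ, Real.exp (-(x ⬝ᵥ M *ᵥ x)) = (√Real.pi) ^ (Fintype.card ι) * (√M.det)⁻¹ := by
  obtain ⟨B, hB, hdet⟩ := exists_factor M hM
  have h1 : ∀ x : ι → ℝ, x ⬝ᵥ M *ᵥ x = ∑ i, (toLin' B x) i ^ 2 := by
    intro x
    rw [hB, ← mulVec_mulVec, dotProduct_mulVec, vecMul_transpose, toLin'_apply]
    simp only [dotProduct, sq]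
  have hmap := Real.map_matrix_volume_pi_eq_smul_volume_pi hdet
  have hmeas : Measurable (toLin' B) := (LinearMap.continuous_of_finiteDimensional _).measurable
  have hg := integrable_gauss_std ι
  have hcont : Continuous (fun y : ι → ℝ => Real.exp (-∑ i, y i ^ 2)) := by fun_prop
  have hs : √M.det = |B.det| := by
    rw [hB, det_mul, det_transpose, Real.sqrt_mul_self_eq_abs]
  simp only [h1]
  constructor
  · have h2 : Integrable (fun y : ι → ℝ => Real.exp (-∑ i, y i ^ 2))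
        (Measure.map (toLin' B) volume) := by
      rw [hmap]
      exact hg.smul_measure ENNReal.ofReal_ne_top
    exact (integrable_map_measure hcont.aestronglyMeasurable hmeas.aemeasurable).1 h2
  · have h2 := integral_map (μ := volume) hmeas.aemeasurable
      (f := fun y : ι → ℝ => Real.exp (-∑ i, y i ^ 2)) hcont.aestronglyMeasurable
    rw [hmap, integral_smul_measure, integral_gauss_std] at h2
    rw [← h2, hs, smul_eq_mul, ENNReal.toReal_ofReal (abs_nonneg _), abs_inv, mul_comm]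

variable {n : ℕ}

/-- Completing the square for a Laplacian with ties. -/
theorem quad_complete {L : Matrix (Fin n) (Fin n) ℝ} (hL : Lap L) {t : Fin n → ℝ}
    (hA : (L + diagonal t).PosDef) (r v : Fin n → ℝ) :
    ∑ a, t a * (v a - r a) ^ 2 + ∑ a, ∑ b, L a b * (v a * v b) =
      (v - (L + diagonal t)⁻¹ *ᵥ (t * r)) ⬝ᵥ (L + diagonal t) *ᵥ
        (v - (L + diagonal t)⁻¹ *ᵥ (t * r)) +
      (1 / 2) * ∑ a, ∑ b, t a * t b * (L + diagonal t)⁻¹ a b * (r a - r b) ^ 2 := by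
  set A := L + diagonal t with hAdef
  have hunit : IsUnit A.det := hA.det_pos.ne'.isUnit
  set ρ := A⁻¹ *ᵥ (t * r) with hρ
  have hAρ : A *ᵥ ρ = t * r := by
    rw [hρ, mulVec_mulVec, mul_nonsing_inv _ hunit, one_mulVec]
  have hsymm : Aᵀ = A := by
    ext i j
    rw [transpose_apply, hAdef, Matrix.add_apply, Matrix.add_apply, hL.symm j i]
    by_cases h : i = j
    · subst h; rfl
    · rw [diagonal_apply_ne _ h, diagonal_apply_ne _ (Ne.symm h)]
  have hA1 : A *ᵥ (fun _ => (1 : ℝ)) = t := by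
    ext a
    rw [hAdef, add_mulVec, Pi.add_apply, mulVec_diagonal]
    simp only [mulVec, dotProduct, mul_one]
    rw [hL.row a, zero_add]
  have hAt : A⁻¹ *ᵥ t = fun _ => (1 : ℝ) := by
    rw [← hA1, mulVec_mulVec, nonsing_inv_mul _ hunit, one_mulVec]
  have hAt' : ∀ a, ∑ b, A⁻¹ a b * t b = 1 := fun a => congrFun hAt a
  have hinvsymm : ∀ a b, A⁻¹ a b = A⁻¹ b a := by
    intro a b
    have : (A⁻¹)ᵀ = A⁻¹ := by rw [transpose_nonsing_inv, hsymm]
    rw [← this, transpose_apply, this]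
  -- expand the square
  have e1 : (v - ρ) ⬝ᵥ A *ᵥ (v - ρ) = v ⬝ᵥ A *ᵥ v - 2 * (v ⬝ᵥ (t * r)) + ρ ⬝ᵥ (t * r) := by
    rw [mulVec_sub, hAρ, sub_dotProduct, dotProduct_sub, dotProduct_sub]
    have : ρ ⬝ᵥ A *ᵥ v = v ⬝ᵥ (t * r) := by
      rw [dotProduct_mulVec, ← mulVec_transpose, hsymm, hAρ, dotProduct_comm]
    rw [this]
    ring
  have e2 : v ⬝ᵥ A *ᵥ v = ∑ a, ∑ b, L a b * (v a * v b) + ∑ a, t a * v a ^ 2 := by
    rw [hAdef, add_mulVec, dotProduct_add]
    congr 1
    · simp only [dotProduct, mulVec, Finset.mul_sum]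
      refine Finset.sum_congr rfl fun a _ => Finset.sum_congr rfl fun b _ => ?_
      ring
    · simp only [dotProduct, mulVec_diagonal]
      refine Finset.sum_congr rfl fun a _ => ?_
      ring
  have e3 : v ⬝ᵥ (t * r) = ∑ a, t a * r a * v a := by
    simp only [dotProduct, Pi.mul_apply]
    refine Finset.sum_congr rfl fun a _ => ?_
    ring
  have e4 : ρ ⬝ᵥ (t * r) = ∑ a, ∑ b, t a * t b * A⁻¹ a b * (r a * r b) := by
    simp only [hρ, dotProduct, mulVec, Pi.mul_apply, Finset.sum_mul]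
    refine Finset.sum_congr rfl fun a _ => Finset.sum_congr rfl fun b _ => ?_
    ring
  have e5 : ∑ a, ∑ b, t a * t b * A⁻¹ a b * r a ^ 2 = ∑ a, t a * r a ^ 2 := by
    refine Finset.sum_congr rfl fun a _ => ?_
    have := hAt' a
    calc ∑ b, t a * t b * A⁻¹ a b * r a ^ 2 = (t a * r a ^ 2) * ∑ b, A⁻¹ a b * t b := by
          rw [Finset.mul_sum]
          refine Finset.sum_congr rfl fun b _ => ?_
          ring
      _ = t a * r a ^ 2 := by rw [this, mul_one]
  have e6 : ∑ a, ∑ b, t a * t b * A⁻¹ a b * r b ^ 2 = ∑ a, t a * r a ^ 2 := by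
    rw [Finset.sum_comm, ← e5]
    refine Finset.sum_congr rfl fun b _ => Finset.sum_congr rfl fun a _ => ?_
    rw [hinvsymm a b]
    ring
  have e7 : ∑ a, ∑ b, t a * t b * A⁻¹ a b * (r a - r b) ^ 2
      = ∑ a, ∑ b, t a * t b * A⁻¹ a b * r a ^ 2 + ∑ a, ∑ b, t a * t b * A⁻¹ a b * r b ^ 2
        - 2 * ∑ a, ∑ b, t a * t b * A⁻¹ a b * (r a * r b) := by
    simp only [Finset.mul_sum, ← Finset.sum_add_distrib, ← Finset.sum_sub_distrib]
    refine Finset.sum_congr rfl fun a _ => Finset.sum_congr rfl fun b _ => ?_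
    ring
  have e8 : ∑ a, t a * (v a - r a) ^ 2
      = ∑ a, t a * v a ^ 2 - 2 * ∑ a, t a * r a * v a + ∑ a, t a * r a ^ 2 := by
    simp only [Finset.mul_sum, ← Finset.sum_add_distrib, ← Finset.sum_sub_distrib]
    refine Finset.sum_congr rfl fun a _ => ?_
    ring
  rw [e1, e2, e3, e4, e7, e5, e6, e8]
  ring

/-- The exponent of the chain Gaussian, in coordinates. -/
noncomputable def Ex {D : ℕ} (L : Matrix (Fin n) (Fin n) ℝ) (t : Fin n → ℝ)
    (r : Fin n → Fin D → ℝ) (x : Fin n × Fin D → ℝ) : ℝ :=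
  ∑ a, t a * ∑ k, (x (a, k) - r a k) ^ 2 + ∑ a, ∑ b, L a b * ∑ k, x (a, k) * x (b, k)

/-- The effective quadratic form in the squared distances. -/
noncomputable def qf (L : Matrix (Fin n) (Fin n) ℝ) (t : Fin n → ℝ) (Δ : Fin n → Fin n → ℝ) : ℝ :=
  (1 / 2) * ∑ a, ∑ b, t a * t b * (L + diagonal t)⁻¹ a b * Δ a b

theorem integral_chain {D : ℕ} {L : Matrix (Fin n) (Fin n) ℝ} (hL : Lap L) {t : Fin n → ℝ}
    (hA : (L + diagonal t).PosDef) (r : Fin n → Fin D → ℝ) (Δ : Fin n → Fin n → ℝ)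
    (hΔ : ∀ a b, Δ a b = ∑ k, (r a k - r b k) ^ 2) :
    Integrable (fun x : Fin n × Fin D → ℝ => Real.exp (-Ex L t r x)) ∧
    ∫ x : Fin n × Fin D → ℝ, Real.exp (-Ex L t r x) =
      (√Real.pi) ^ (n * D) * ((√(L + diagonal t).det)⁻¹) ^ D * Real.exp (-qf L t Δ) := by
  set A := L + diagonal t with hAdef
  set ρ : Fin n × Fin D → ℝ := fun p => (A⁻¹ *ᵥ (t * fun a => r a p.2)) p.1 with hρ
  have key : ∀ x : Fin n × Fin D → ℝ, Ex L t r x =
      (x - ρ) ⬝ᵥ (A ⊗ₖ (1 : Matrix (Fin D) (Fin D) ℝ)) *ᵥ (x - ρ) + qf L t Δ := by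
    intro x
    have h1 : Ex L t r x = ∑ k, (∑ a, t a * (x (a, k) - r a k) ^ 2
        + ∑ a, ∑ b, L a b * (x (a, k) * x (b, k))) := by
      unfold Ex
      rw [Finset.sum_add_distrib]
      congr 1
      · simp only [Finset.mul_sum]
        rw [Finset.sum_comm]
      · simp only [Finset.mul_sum]
        rw [Finset.sum_comm' (s := (Finset.univ : Finset (Fin D))) (t := fun _ => Finset.univ)
          (t' := Finset.univ) (s' := fun _ => Finset.univ) (by simp)]
        refine Finset.sum_congr rfl fun a _ => ?_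
        rw [Finset.sum_comm]
    have h2 : (x - ρ) ⬝ᵥ (A ⊗ₖ (1 : Matrix (Fin D) (Fin D) ℝ)) *ᵥ (x - ρ)
        = ∑ k, ((fun a => x (a, k)) - A⁻¹ *ᵥ (t * fun a => r a k)) ⬝ᵥ A *ᵥ
          ((fun a => x (a, k)) - A⁻¹ *ᵥ (t * fun a => r a k)) := by
      simp only [dotProduct, mulVec, Fintype.sum_prod_type, kroneckerMap_apply]
      rw [Finset.sum_comm]
      refine Finset.sum_congr rfl fun k _ => Finset.sum_congr rfl fun a _ => ?_
      congr 1
      refine Finset.sum_congr rfl fun b _ => ?_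
      rw [Finset.sum_eq_single k]
      · rw [Matrix.one_apply_eq, mul_one]
        rfl
      · intro j _ hj
        rw [Matrix.one_apply_ne (Ne.symm hj), mul_zero, zero_mul]
      · intro h; exact absurd (Finset.mem_univ _) h
    have h3 : qf L t Δ = ∑ k, (1 / 2) * ∑ a, ∑ b, t a * t b * A⁻¹ a b * (r a k - r b k) ^ 2 := by
      unfold qf
      rw [← Finset.mul_sum]
      congr 1
      simp only [hΔ, Finset.mul_sum]
      rw [Finset.sum_comm' (s := (Finset.univ : Finset (Fin D))) (t := fun _ => Finset.univ)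
          (t' := Finset.univ) (s' := fun _ => Finset.univ) (by simp)]
      refine Finset.sum_congr rfl fun a _ => ?_
      rw [Finset.sum_comm]
    rw [h1, h2, h3, ← Finset.sum_add_distrib]
    refine Finset.sum_congr rfl fun k _ => ?_
    exact quad_complete hL hA (fun a => r a k) (fun a => x (a, k))
  have hK : (A ⊗ₖ (1 : Matrix (Fin D) (Fin D) ℝ)).PosDef := hA.kronecker Matrix.PosDef.one
  obtain ⟨g1, g2⟩ := integral_posDef _ hK
  have hdet : (A ⊗ₖ (1 : Matrix (Fin D) (Fin D) ℝ)).det = A.det ^ D := by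
    rw [det_kronecker]
    simp
  have e : (fun x : Fin n × Fin D → ℝ => Real.exp (-Ex L t r x)) =
      fun x => Real.exp (-qf L t Δ) *
        (fun y : Fin n × Fin D → ℝ => Real.exp (-(y ⬝ᵥ (A ⊗ₖ (1 : Matrix (Fin D) (Fin D) ℝ)) *ᵥ y)))
          (x - ρ) := by
    ext x
    rw [key x, neg_add, Real.exp_add, mul_comm]
  constructor
  · rw [e]
    exact (g1.comp_sub_right ρ).const_mul _
  · rw [e, integral_const_mul, integral_sub_right_eq_self
      (fun y : Fin n × Fin D → ℝ => Real.exp (-(y ⬝ᵥ (A ⊗ₖ (1 : Matrix (Fin D) (Fin D) ℝ)) *ᵥ y))) ρ,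
      g2, hdet]
    have hc : Fintype.card (Fin n × Fin D) = n * D := by simp
    have hs : √(A.det ^ D) = √A.det ^ D := by
      rw [Real.sqrt_eq_iff_mul_self_eq_of_pos]
      · rw [← mul_pow, Real.mul_self_sqrt hA.det_pos.le]
      · exact pow_pos (Real.sqrt_pos.2 hA.det_pos) _
    rw [hc, hs, inv_pow]
    ring

end Pool.Agent.Y657.EM
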