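import Pool.Agent.Helper985.Pol.Defs

set_option autoImplicit false

open MeasureTheory Filter
open scoped Topology

namespace Pool.Agent.Y657.EM

abbrev E3 := Pool.Agent.Helper985.Pol.E3

noncomputable def ZZ (c : ℝ) : ℝ := ∫ z : E3, Real.exp (-c * ‖z‖ ^ 2)

/-- The normalised Gaussian kernel. -/
noncomputable def gk (c : ℝ) (z : E3) : ℝ := (ZZ c)⁻¹ * Real.exp (-c * ‖z‖ ^ 2)

variable {c : ℝ}

theorem ZZ_pos (hc : 0 < c) : 0 < ZZ c := by
  unfold ZZ
  rw [GaussianFourier.integral_rexp_neg_mul_sq_norm hc]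
  positivity

theorem integrable_exp (hc : 0 < c) : Integrable fun z : E3 => Real.exp (-c * ‖z‖ ^ 2) := by
  by_contra h
  have := integral_undef h
  exact (ZZ_pos hc).ne' this

theorem integrable_gk (hc : 0 < c) : Integrable (gk c) := (integrable_exp hc).const_mul _

theorem integral_gk (hc : 0 < c) : ∫ z, gk c z = 1 := by
  unfold gk
  rw [integral_const_mul]
  exact inv_mul_cancel₀ (ZZ_pos hc).ne'

theorem gk_pos (hc : 0 < c) (z : E3) : 0 < gk c z :=
  mul_pos (inv_pos.2 (ZZ_pos hc)) (Real.exp_pos _)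

theorem gk_le (hc : 0 < c) (z : E3) : gk c z ≤ (ZZ c)⁻¹ := by
  refine mul_le_of_le_one_right (inv_pos.2 (ZZ_pos hc)).le ?_
  rw [Real.exp_le_one_iff]
  have : 0 ≤ ‖z‖ ^ 2 := by positivity
  nlinarith

theorem continuous_gk (c : ℝ) : Continuous (gk c) := by unfold gk; fun_prop

theorem gk_neg (c : ℝ) (z : E3) : gk c (-z) = gk c z := by unfold gk; rw [norm_neg]

theorem gk_sub_comm (c : ℝ) (x y : E3) : gk c (x - y) = gk c (y - x) := by
  rw [← gk_neg, neg_sub]

theorem sq_mul_gk_le (hc : 0 < c) (z : E3) :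
    ‖z‖ ^ 2 * gk c z ≤ (ZZ c)⁻¹ * (2 / c) * Real.exp (-(c / 2) * ‖z‖ ^ 2) := by
  have h1 : c / 2 * ‖z‖ ^ 2 ≤ Real.exp (c / 2 * ‖z‖ ^ 2) := by
    have := Real.add_one_le_exp (c / 2 * ‖z‖ ^ 2)
    linarith
  have h2 : ‖z‖ ^ 2 ≤ 2 / c * Real.exp (c / 2 * ‖z‖ ^ 2) := by
    rw [div_mul_eq_mul_div, le_div_iff₀ hc]
    linarith
  have h3 : Real.exp (-(c / 2) * ‖z‖ ^ 2) =
      Real.exp (c / 2 * ‖z‖ ^ 2) * Real.exp (-c * ‖z‖ ^ 2) := by
    rw [← Real.exp_add]; congr 1; ring
  unfold gk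
  have hz := (inv_pos.2 (ZZ_pos hc)).le
  rw [h3]
  have := mul_le_mul_of_nonneg_right h2 (mul_nonneg hz (Real.exp_pos (-c * ‖z‖ ^ 2)).le)
  linarith

theorem integrable_sq_gk (hc : 0 < c) : Integrable fun z : E3 => ‖z‖ ^ 2 * gk c z := by
  refine ((integrable_exp (c := c / 2) (by positivity)).const_mul ((ZZ c)⁻¹ * (2 / c))).mono' ?_ ?_
  · exact ((by fun_prop : Continuous fun z : E3 => ‖z‖ ^ 2).mul
      (continuous_gk c)).aestronglyMeasurable
  · refine Eventually.of_forall fun z => ?_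
    rw [Real.norm_of_nonneg (mul_nonneg (by positivity) (gk_pos hc z).le)]
    exact sq_mul_gk_le hc z

theorem integrable_norm_gk (hc : 0 < c) : Integrable fun z : E3 => ‖z‖ * gk c z := by
  refine ((integrable_gk hc).add (integrable_sq_gk hc)).mono' ?_ ?_
  · exact (continuous_norm.mul (continuous_gk c)).aestronglyMeasurable
  · refine Eventually.of_forall fun z => ?_
    rw [Real.norm_of_nonneg (mul_nonneg (norm_nonneg _) (gk_pos hc z).le)]
    change ‖z‖ * gk c z ≤ gk c z + ‖z‖ ^ 2 * gk c z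
    have : ‖z‖ ≤ 1 + ‖z‖ ^ 2 := by nlinarith [sq_nonneg (‖z‖ - 1), norm_nonneg z]
    nlinarith [mul_le_mul_of_nonneg_right this (gk_pos hc z).le]

theorem norm_mul_gk_le (hc : 0 < c) (z : E3) :
    ‖z‖ * gk c z ≤ (ZZ c)⁻¹ * (1 + 2 / c) := by
  have h1 := sq_mul_gk_le hc z
  have h2 := gk_le hc z
  have h3 : Real.exp (-(c / 2) * ‖z‖ ^ 2) ≤ 1 := by
    rw [Real.exp_le_one_iff]
    have : 0 ≤ ‖z‖ ^ 2 := by positivity
    nlinarith
  have hz := (inv_pos.2 (ZZ_pos hc))
  have h4 : (ZZ c)⁻¹ * (2 / c) * Real.exp (-(c / 2) * ‖z‖ ^ 2) ≤ (ZZ c)⁻¹ * (2 / c) :=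
    mul_le_of_le_one_right (by positivity) h3
  have : ‖z‖ ≤ 1 + ‖z‖ ^ 2 := by nlinarith [sq_nonneg (‖z‖ - 1), norm_nonneg z]
  have h5 := mul_le_mul_of_nonneg_right this (gk_pos hc z).le
  nlinarith

theorem hasFDerivAt_gk (c : ℝ) (z : E3) :
    HasFDerivAt (gk c) ((-(2 * c) * gk c z) • innerSL ℝ z) z := by
  have h1 : HasFDerivAt (fun z : E3 => ‖z‖ ^ 2) (2 • innerSL ℝ z) z :=
    (hasStrictFDerivAt_norm_sq z).hasFDerivAt
  have h2 := ((h1.const_mul (-c)).exp).const_mul ((ZZ c)⁻¹)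
  refine h2.congr_fderiv ?_
  ext w
  simp only [gk, smul_apply, smul_eq_mul, nsmul_eq_mul, Nat.cast_ofNat,
    innerSL_apply_apply]
  ring

theorem integrable_lin_gk (hc : 0 < c) (l : E3 →L[ℝ] ℝ) :
    Integrable fun z : E3 => gk c z * l z := by
  refine ((integrable_norm_gk hc).const_mul ‖l‖).mono' ?_ ?_
  · exact ((continuous_gk c).mul l.continuous).aestronglyMeasurable
  · refine Eventually.of_forall fun z => ?_
    rw [norm_mul, Real.norm_of_nonneg (gk_pos hc z).le]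
    have := l.le_opNorm z
    nlinarith [gk_pos hc z, mul_le_mul_of_nonneg_left this (gk_pos hc z).le]

theorem integral_lin_gk (c : ℝ) (l : E3 →L[ℝ] ℝ) : ∫ z : E3, gk c z * l z = 0 := by
  have h := integral_neg_eq_self (fun z : E3 => gk c z * l z) volume
  simp only [gk_neg, map_neg, mul_neg, integral_neg] at h
  linarith

theorem integrable_lin_sq_gk (hc : 0 < c) (l : E3 →L[ℝ] ℝ) :
    Integrable fun z : E3 => gk c z * (l z) ^ 2 := by
  refine ((integrable_sq_gk hc).const_mul (‖l‖ ^ 2)).mono' ?_ ?_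
  · exact ((continuous_gk c).mul (l.continuous.pow 2)).aestronglyMeasurable
  · refine Eventually.of_forall fun z => ?_
    rw [Real.norm_of_nonneg (mul_nonneg (gk_pos hc z).le (sq_nonneg _))]
    have h1 := l.le_opNorm z
    have h2 : (l z) ^ 2 ≤ (‖l‖ * ‖z‖) ^ 2 := by
      rw [← sq_abs, ← Real.norm_eq_abs]
      exact pow_le_pow_left₀ (norm_nonneg _) h1 2
    have := mul_le_mul_of_nonneg_left h2 (gk_pos hc z).le
    nlinarith

theorem integral_lin_sq_gk (hc : 0 < c) (l : E3 →L[ℝ] ℝ) :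
    ∫ z : E3, gk c z * (l z) ^ 2 = ‖l‖ ^ 2 / (2 * c) := by
  obtain ⟨v, hv⟩ : ∃ v : E3, ∀ z, l z = inner ℝ v z :=
    ⟨(InnerProductSpace.toDual ℝ E3).symm l, fun z => by
      rw [← InnerProductSpace.toDual_apply_apply, LinearIsometryEquiv.apply_symm_apply]⟩
  have hl : l = innerSL ℝ v := by
    ext z; rw [hv]; rfl
  have hn : ‖l‖ = ‖v‖ := by rw [hl, innerSL_apply_norm]
  have hfd : ∀ z : E3, fderiv ℝ (gk c) z v = -(2 * c) * (gk c z * l z) := by
    intro z
    rw [(hasFDerivAt_gk c z).fderiv, hv]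
    simp only [smul_apply, smul_eq_mul, innerSL_apply_apply]
    rw [real_inner_comm]
    ring
  have key := integral_mul_fderiv_eq_neg_fderiv_mul_of_integrable (μ := (volume : Measure E3))
    (f := fun z : E3 => l z) (g := gk c) (v := v) ?_ ?_ ?_ ?_ ?_
  · have e1 : ∀ z : E3, fderiv ℝ (fun z : E3 => l z) z v = ‖v‖ ^ 2 := by
      intro z
      have : fderiv ℝ (fun z : E3 => l z) z = l := l.fderiv
      rw [this, hv, real_inner_self_eq_norm_sq]
    simp only [e1, hfd] at key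
    rw [integral_const_mul, integral_gk hc, mul_one] at key
    have e2 : (fun z : E3 => l z * (-(2 * c) * (gk c z * l z))) =
        fun z => -(2 * c) * (gk c z * (l z) ^ 2) := by
      ext z; ring
    rw [e2, integral_const_mul] at key
    rw [hn, eq_div_iff (by positivity)]
    linarith
  · have e1 : ∀ z : E3, fderiv ℝ (fun z : E3 => l z) z v = ‖v‖ ^ 2 := by
      intro z
      have : fderiv ℝ (fun z : E3 => l z) z = l := l.fderiv
      rw [this, hv, real_inner_self_eq_norm_sq]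
    simp only [e1]
    exact (integrable_gk hc).const_mul _
  · simp only [hfd]
    refine ((integrable_lin_sq_gk hc l).const_mul (-(2 * c))).congr ?_
    exact Eventually.of_forall fun z => by simp only; ring
  · refine (integrable_lin_gk hc l).congr ?_
    exact Eventually.of_forall fun z => by simp only; ring
  · exact fun z _ => l.differentiableAt
  · exact fun z _ => (hasFDerivAt_gk c z).differentiableAt

end Pool.Agent.Y657.EM
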