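import Pool.Agent.Y657.EM.Heat1

set_option autoImplicit false

open MeasureTheory Filter
open scoped Topology

namespace Pool.Agent.Y657.EM

/-- Continuous, bounded, integrable. -/
structure Nc (u : E3 → ℝ) : Prop where
  cont : Continuous u
  bdd : ∃ B : ℝ, ∀ x, |u x| ≤ B
  int : Integrable u

/-- Continuous and bounded. -/
structure Bc (u : E3 → ℝ) : Prop where
  cont : Continuous u
  bdd : ∃ B : ℝ, ∀ x, |u x| ≤ B

theorem Nc.toBc {u : E3 → ℝ} (h : Nc u) : Bc u := ⟨h.cont, h.bdd⟩

theorem Bc.mul {u v : E3 → ℝ} (hu : Bc u) (hv : Bc v) : Bc fun x => u x * v x := by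
  obtain ⟨A, hA⟩ := hu.bdd
  obtain ⟨B, hB⟩ := hv.bdd
  refine ⟨hu.cont.mul hv.cont, A * B, fun x => ?_⟩
  rw [abs_mul]
  exact mul_le_mul (hA x) (hB x) (abs_nonneg _) ((abs_nonneg _).trans (hA x))

theorem Bc.mul_Nc {u v : E3 → ℝ} (hu : Bc u) (hv : Nc v) : Nc fun x => u x * v x := by
  have h := hu.mul hv.toBc
  obtain ⟨A, hA⟩ := hu.bdd
  exact ⟨h.cont, h.bdd, hv.int.bdd_mul (c := A) hu.cont.aestronglyMeasurable
    (Eventually.of_forall hA)⟩

theorem Nc.mul {u v : E3 → ℝ} (hu : Nc u) (hv : Nc v) : Nc fun x => u x * v x :=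
  hu.toBc.mul_Nc hv

theorem Nc.sq {u : E3 → ℝ} (hu : Nc u) : Nc fun x => u x ^ 2 := by
  have := hu.mul hu
  simpa only [← pow_two] using this

theorem Nc.abs {u : E3 → ℝ} (hu : Nc u) : Nc fun x => |u x| := by
  obtain ⟨A, hA⟩ := hu.bdd
  exact ⟨hu.cont.abs, ⟨A, fun x => by rw [abs_abs]; exact hA x⟩, hu.int.abs⟩

theorem Nc.sub {u v : E3 → ℝ} (hu : Nc u) (hv : Nc v) : Nc fun x => u x - v x := by
  obtain ⟨A, hA⟩ := hu.bdd
  obtain ⟨B, hB⟩ := hv.bdd
  refine ⟨hu.cont.sub hv.cont, ⟨A + B, fun x => ?_⟩, hu.int.sub hv.int⟩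
  exact (abs_sub _ _).trans (add_le_add (hA x) (hB x))

theorem Nc.const_mul {u : E3 → ℝ} (hu : Nc u) (a : ℝ) : Nc fun x => a * u x :=
  (Bc.mk continuous_const ⟨|a|, fun _ => le_rfl⟩ : Bc fun _ => a).mul_Nc hu

/-- Gaussian smoothing. -/
noncomputable def P (c : ℝ) (u : E3 → ℝ) (x : E3) : ℝ := ∫ y, gk c (x - y) * u y

variable {c : ℝ}

theorem P_eq (c : ℝ) (u : E3 → ℝ) (x : E3) : P c u x = ∫ z, gk c z * u (x - z) := by
  unfold P
  have h := integral_sub_left_eq_self (fun z : E3 => gk c z * u (x - z)) volume x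
  rw [← h]
  refine integral_congr_ae (Eventually.of_forall fun y => ?_)
  simp only [sub_sub_cancel]

theorem P_eq_conv (c : ℝ) (u : E3 → ℝ) (x : E3) :
    P c u x = (MeasureTheory.convolution (gk c) u (ContinuousLinearMap.mul ℝ ℝ) volume) x := by
  rw [P_eq]
  rfl

theorem int_P_integrand (hc : 0 < c) {u : E3 → ℝ} (hu : Bc u) (x : E3) :
    Integrable fun z => gk c z * u (x - z) := by
  obtain ⟨A, hA⟩ := hu.bdd
  refine (integrable_gk hc).mul_bdd (c := A) ?_ ?_
  · exact (hu.cont.comp (by fun_prop)).aestronglyMeasurable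
  · exact Eventually.of_forall fun z => hA _

theorem P_bound (hc : 0 < c) {u : E3 → ℝ} (hu : Bc u) {A : ℝ} (hA : ∀ x, |u x| ≤ A) (x : E3) :
    |P c u x| ≤ A := by
  rw [P_eq]
  refine (abs_integral_le_integral_abs).trans ?_
  have h1 : ∀ z, |gk c z * u (x - z)| ≤ A * gk c z := fun z => by
    rw [abs_mul, abs_of_pos (gk_pos hc z), mul_comm]
    exact mul_le_mul_of_nonneg_right (hA _) (gk_pos hc z).le
  refine (integral_mono (int_P_integrand hc hu x).abs ((integrable_gk hc).const_mul A) h1).trans ?_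
  rw [integral_const_mul, integral_gk hc, mul_one]

theorem P_cont (hc : 0 < c) {u : E3 → ℝ} (hu : Bc u) : Continuous (P c u) := by
  obtain ⟨A, hA⟩ := hu.bdd
  have : P c u = fun x => ∫ z, gk c z * u (x - z) := by ext x; exact P_eq c u x
  rw [this]
  refine continuous_of_dominated (bound := fun z => A * gk c z) (fun x => ?_) (fun x => ?_)
    ((integrable_gk hc).const_mul A) ?_
  · exact (int_P_integrand hc hu x).aestronglyMeasurable
  · refine Eventually.of_forall fun z => ?_
    rw [norm_mul, Real.norm_of_nonneg (gk_pos hc z).le, mul_comm]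
    exact mul_le_mul_of_nonneg_right (hA _) (gk_pos hc z).le
  · refine Eventually.of_forall fun z => ?_
    exact continuous_const.mul (hu.cont.comp (by fun_prop))

theorem P_Bc (hc : 0 < c) {u : E3 → ℝ} (hu : Bc u) : Bc (P c u) := by
  obtain ⟨A, hA⟩ := hu.bdd
  exact ⟨P_cont hc hu, A, P_bound hc hu hA⟩

theorem P_int (hc : 0 < c) {u : E3 → ℝ} (hu : Integrable u) : Integrable (P c u) := by
  have : P c u = (MeasureTheory.convolution (gk c) u (ContinuousLinearMap.mul ℝ ℝ) volume) := by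
    ext x; exact P_eq_conv c u x
  rw [this]
  exact (integrable_gk hc).integrable_convolution _ hu

theorem P_Nc (hc : 0 < c) {u : E3 → ℝ} (hu : Nc u) : Nc (P c u) :=
  ⟨P_cont hc hu.toBc, (P_Bc hc hu.toBc).bdd, P_int hc hu.int⟩

theorem integral_P (hc : 0 < c) {u : E3 → ℝ} (hu : Integrable u) :
    ∫ x, P c u x = ∫ x, u x := by
  have : P c u = (MeasureTheory.convolution (gk c) u (ContinuousLinearMap.mul ℝ ℝ) volume) := by
    ext x; exact P_eq_conv c u x
  rw [this, integral_convolution _ (integrable_gk hc) hu, integral_gk hc]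
  simp

/-- joint integrability -/
theorem int_prod (hc : 0 < c) {u v : E3 → ℝ} (hu : Integrable u) (hv : Bc v) :
    Integrable (fun p : E3 × E3 => v p.1 * (gk c (p.1 - p.2) * u p.2)) (volume.prod volume) := by
  obtain ⟨A, hA⟩ := hv.bdd
  have h1 := hu.convolution_integrand (ContinuousLinearMap.mul ℝ ℝ) (integrable_gk hc)
    (μ := volume) (ν := volume)
  have h2 : Integrable (fun p : E3 × E3 => gk c (p.1 - p.2) * u p.2) (volume.prod volume) := by
    refine h1.congr (Eventually.of_forall fun p => ?_)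
    simp only [ContinuousLinearMap.mul_apply']
    ring
  refine h2.bdd_mul (c := A) ?_ ?_
  · exact (hv.cont.comp continuous_fst).aestronglyMeasurable
  · exact Eventually.of_forall fun p => hA _

theorem P_symm (hc : 0 < c) {u v : E3 → ℝ} (hu : Nc u) (hv : Nc v) :
    ∫ x, v x * P c u x = ∫ x, P c v x * u x := by
  have h1 := integral_integral_swap (f := fun x y => v x * (gk c (x - y) * u y))
    (int_prod hc hu.int hv.toBc)
  have e1 : ∀ x, ∫ y, v x * (gk c (x - y) * u y) = v x * P c u x := by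
    intro x; rw [integral_const_mul]; rfl
  have e2 : ∀ y, ∫ x, v x * (gk c (x - y) * u y) = P c v y * u y := by
    intro y
    unfold P
    rw [← integral_mul_const]
    refine integral_congr_ae (Eventually.of_forall fun x => ?_)
    simp only
    rw [gk_sub_comm]
    ring
  simp only [e1, e2] at h1
  exact h1

theorem P_mono (hc : 0 < c) {u v : E3 → ℝ} (hu : Bc u) (hv : Bc v) (h : ∀ x, u x ≤ v x) (x : E3) :
    P c u x ≤ P c v x := by
  rw [P_eq, P_eq]
  exact integral_mono (int_P_integrand hc hu x) (int_P_integrand hc hv x) fun z =>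
    mul_le_mul_of_nonneg_left (h _) (gk_pos hc z).le

theorem P_neg (c : ℝ) (u : E3 → ℝ) (x : E3) : P c (fun y => -u y) x = -P c u x := by
  unfold P
  rw [← integral_neg]
  refine integral_congr_ae (Eventually.of_forall fun y => ?_)
  simp only; ring

theorem P_const_mul (c a : ℝ) (u : E3 → ℝ) (x : E3) :
    P c (fun y => a * u y) x = a * P c u x := by
  unfold P
  rw [← integral_const_mul]
  refine integral_congr_ae (Eventually.of_forall fun y => ?_)
  simp only; ring

theorem abs_P_le (hc : 0 < c) {u v : E3 → ℝ} (hu : Bc u) (hv : Bc v) (h : ∀ x, |u x| ≤ v x)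
    (x : E3) : |P c u x| ≤ P c v x := by
  rw [abs_le]
  constructor
  · have h1 : ∀ x, -u x ≤ v x := fun x => (neg_le_abs _).trans (h x)
    have := P_mono hc (u := fun y => -u y) ⟨hu.cont.neg, by simpa using hu.bdd⟩ hv h1 x
    rw [P_neg] at this
    linarith
  · exact P_mono hc hu hv (fun x => (le_abs_self _).trans (h x)) x

theorem P_nonneg (hc : 0 < c) {u : E3 → ℝ} (h : ∀ x, 0 ≤ u x) (x : E3) : 0 ≤ P c u x :=
  integral_nonneg fun y => mul_nonneg (gk_pos hc _).le (h y)

/-- The first moment vector `∫ z γ(z) u(x-z) dz` as a functional on directions is the derivative. -/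
noncomputable def DP (c : ℝ) (u : E3 → ℝ) (x : E3) : E3 →L[ℝ] ℝ :=
  ∫ y, u y • ((-(2 * c) * gk c (x - y)) • innerSL ℝ (x - y))

theorem norm_kernel_le (hc : 0 < c) (z : E3) :
    ‖(-(2 * c) * gk c z) • innerSL ℝ z‖ ≤ 2 * c * ((ZZ c)⁻¹ * (1 + 2 / c)) := by
  rw [norm_smul, innerSL_apply_norm, norm_mul, norm_neg, Real.norm_of_nonneg (by positivity),
    Real.norm_of_nonneg (gk_pos hc z).le, mul_assoc]
  have := norm_mul_gk_le hc z
  rw [mul_comm] at this
  exact mul_le_mul_of_nonneg_left this (by positivity)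

theorem int_DP (hc : 0 < c) {u : E3 → ℝ} (hu : Integrable u) (x : E3) :
    Integrable fun y => u y • ((-(2 * c) * gk c (x - y)) • innerSL ℝ (x - y) : E3 →L[ℝ] ℝ) := by
  refine (hu.norm.mul_const (2 * c * ((ZZ c)⁻¹ * (1 + 2 / c)))).mono' ?_ ?_
  · refine hu.aestronglyMeasurable.smul (Continuous.aestronglyMeasurable ?_)
    have : Continuous fun y : E3 => gk c (x - y) := (continuous_gk c).comp (by fun_prop)
    fun_prop
  · refine Eventually.of_forall fun y => ?_
    rw [norm_smul]
    exact mul_le_mul_of_nonneg_left (norm_kernel_le hc _) (norm_nonneg _)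

theorem hasFDerivAt_P (hc : 0 < c) {u : E3 → ℝ} (hu : Nc u) (x : E3) :
    HasFDerivAt (P c u) (DP c u x) x := by
  unfold P DP
  have hg : ∀ y x : E3, HasFDerivAt (fun x : E3 => gk c (x - y) * u y)
      (u y • ((-(2 * c) * gk c (x - y)) • innerSL ℝ (x - y) : E3 →L[ℝ] ℝ)) x := by
    intro y x
    have h1 : HasFDerivAt (fun x : E3 => gk c (x - y))
        ((-(2 * c) * gk c (x - y)) • innerSL ℝ (x - y) : E3 →L[ℝ] ℝ) x := by
      have h2 : HasFDerivAt (fun x : E3 => x - y) (ContinuousLinearMap.id ℝ E3) x :=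
        (hasFDerivAt_id x).sub_const y
      have h3 := (hasFDerivAt_gk c (x - y)).comp x h2
      rwa [ContinuousLinearMap.comp_id] at h3
    exact h1.mul_const (u y)
  refine hasFDerivAt_integral_of_dominated_of_fderiv_le (s := Set.univ) (F := fun (x y : E3) =>
    gk c (x - y) * u y) (bound := fun y => ‖u y‖ * (2 * c * ((ZZ c)⁻¹ * (1 + 2 / c))))
    (F' := fun x y => u y • ((-(2 * c) * gk c (x - y)) • innerSL ℝ (x - y) : E3 →L[ℝ] ℝ))
    univ_mem ?_ ?_ ?_ ?_ ?_ ?_
  · refine Eventually.of_forall fun x => Continuous.aestronglyMeasurable ?_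
    have : Continuous fun y : E3 => gk c (x - y) := (continuous_gk c).comp (by fun_prop)
    exact this.mul hu.cont
  · refine hu.int.bdd_mul (c := (ZZ c)⁻¹) ?_ ?_
    · exact ((continuous_gk c).comp (by fun_prop)).aestronglyMeasurable
    · refine Eventually.of_forall fun y => ?_
      rw [Real.norm_of_nonneg (gk_pos hc _).le]
      exact gk_le hc _
  · exact (int_DP hc hu.int x).aestronglyMeasurable
  · refine Eventually.of_forall fun y x _ => ?_
    rw [norm_smul]
    exact mul_le_mul_of_nonneg_left (norm_kernel_le hc _) (norm_nonneg _)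
  · exact hu.int.norm.mul_const _
  · exact Eventually.of_forall fun y x _ => hg y x

theorem DP_cont (hc : 0 < c) {u : E3 → ℝ} (hu : Nc u) : Continuous (DP c u) := by
  unfold DP
  refine continuous_of_dominated (bound := fun y => ‖u y‖ * (2 * c * ((ZZ c)⁻¹ * (1 + 2 / c))))
    (fun x => (int_DP hc hu.int x).aestronglyMeasurable) (fun x => ?_)
    (hu.int.norm.mul_const _) ?_
  · refine Eventually.of_forall fun y => ?_
    rw [norm_smul]
    exact mul_le_mul_of_nonneg_left (norm_kernel_le hc _) (norm_nonneg _)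
  · refine Eventually.of_forall fun y => ?_
    have : Continuous fun x : E3 => gk c (x - y) := (continuous_gk c).comp (by fun_prop)
    fun_prop

theorem P_contDiff (hc : 0 < c) {u : E3 → ℝ} (hu : Nc u) : ContDiff ℝ 1 (P c u) := by
  rw [contDiff_one_iff_fderiv]
  refine ⟨fun x => (hasFDerivAt_P hc hu x).differentiableAt, ?_⟩
  have : fderiv ℝ (P c u) = DP c u := by
    ext1 x; exact (hasFDerivAt_P hc hu x).fderiv
  rw [this]
  exact DP_cont hc hu

/-- Bessel's inequality at a point. -/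
theorem bessel_pt (hc : 0 < c) {u : E3 → ℝ} (hu : Nc u) (x : E3) :
    P c u x ^ 2 + (2 * c)⁻¹ * ‖fderiv ℝ (P c u) x‖ ^ 2 ≤ P c (fun y => u y ^ 2) x := by
  rw [(hasFDerivAt_P hc hu x).fderiv]
  set l := DP c u x with hl
  -- value of l
  have hlv : ∀ v : E3, l v = ∫ z, -(2 * c) * (gk c z * u (x - z) * inner ℝ z v) := by
    intro v
    have h1 : l v = ∫ y, (u y • ((-(2 * c) * gk c (x - y)) • innerSL ℝ (x - y) : E3 →L[ℝ] ℝ)) v :=
      (ContinuousLinearMap.integral_apply (int_DP hc hu.int x) v)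
    rw [h1]
    have h := integral_sub_left_eq_self
      (fun z : E3 => -(2 * c) * (gk c z * u (x - z) * inner ℝ z v)) volume x
    rw [← h]
    refine integral_congr_ae (Eventually.of_forall fun y => ?_)
    simp only [smul_apply, smul_eq_mul, innerSL_apply_apply, sub_sub_cancel]
    ring
  obtain ⟨w, hw⟩ : ∃ w : E3, ∀ z, l z = inner ℝ w z :=
    ⟨(InnerProductSpace.toDual ℝ E3).symm l, fun z => by
      rw [← InnerProductSpace.toDual_apply_apply, LinearIsometryEquiv.apply_symm_apply]⟩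
  have hln : ‖l‖ = ‖w‖ := by
    have : l = innerSL ℝ w := by ext z; rw [hw]; rfl
    rw [this, innerSL_apply_norm]
  have hlw : l w = ‖w‖ ^ 2 := by rw [hw, real_inner_self_eq_norm_sq]
  set a := P c u x with ha
  -- integrability
  have i1 : Integrable fun z => gk c z * u (x - z) ^ 2 := int_P_integrand hc hu.sq.toBc x
  have i2 : Integrable fun z => gk c z * u (x - z) := int_P_integrand hc hu.toBc x
  have i3 : Integrable fun z => gk c z * inner ℝ w z := integrable_lin_gk hc (innerSL ℝ w)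
  have i4 : Integrable fun z => gk c z * (inner ℝ w z) ^ 2 :=
    integrable_lin_sq_gk hc (innerSL ℝ w)
  have i5 : Integrable fun z => gk c z * u (x - z) * inner ℝ w z := by
    obtain ⟨A, hA⟩ := hu.bdd
    have hcu : Continuous fun z : E3 => u (x - z) := hu.cont.comp (by fun_prop)
    have h := i3.bdd_mul (c := A) (f := fun z => u (x - z))
      hcu.aestronglyMeasurable (Eventually.of_forall fun z => hA _)
    refine h.congr (Eventually.of_forall fun z => ?_)
    simp only; ring
  have v5 : ∫ z, gk c z * u (x - z) * inner ℝ w z = -(2 * c)⁻¹ * ‖w‖ ^ 2 := by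
    have h1 := hlv w
    rw [hlw, integral_const_mul] at h1
    have h2 : ∫ z, gk c z * u (x - z) * inner ℝ z w = ∫ z, gk c z * u (x - z) * inner ℝ w z := by
      refine integral_congr_ae (Eventually.of_forall fun z => ?_)
      simp only
      rw [real_inner_comm]
    rw [h2] at h1
    rw [h1]
    field_simp
  have v3 : ∫ z, gk c z * inner ℝ w z = 0 := integral_lin_gk c (innerSL ℝ w)
  have v4 : ∫ z, gk c z * (inner ℝ w z) ^ 2 = ‖w‖ ^ 2 / (2 * c) := by
    have := integral_lin_sq_gk hc (innerSL ℝ w)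
    rw [innerSL_apply_norm] at this
    exact this
  have v2 : ∫ z, gk c z * u (x - z) = a := (P_eq c u x).symm
  have v1 : ∫ z, gk c z * u (x - z) ^ 2 = P c (fun y => u y ^ 2) x :=
    (P_eq c (fun y => u y ^ 2) x).symm
  have key : 0 ≤ ∫ z, gk c z * (u (x - z) - a + inner ℝ w z) ^ 2 :=
    integral_nonneg fun z => mul_nonneg (gk_pos hc z).le (sq_nonneg _)
  have expand : ∫ z, gk c z * (u (x - z) - a + inner ℝ w z) ^ 2 =
      (∫ z, gk c z * u (x - z) ^ 2) + a ^ 2 * (∫ z, gk c z) + (∫ z, gk c z * (inner ℝ w z) ^ 2)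
      - 2 * a * (∫ z, gk c z * u (x - z)) + 2 * (∫ z, gk c z * u (x - z) * inner ℝ w z)
      - 2 * a * (∫ z, gk c z * inner ℝ w z) := by
    have j1 : Integrable fun z => gk c z * u (x - z) ^ 2 + a ^ 2 * gk c z :=
      i1.add ((integrable_gk hc).const_mul _)
    have j2 : Integrable fun z => gk c z * u (x - z) ^ 2 + a ^ 2 * gk c z +
        gk c z * (inner ℝ w z) ^ 2 := j1.add i4
    have j3 : Integrable fun z => gk c z * u (x - z) ^ 2 + a ^ 2 * gk c z +
        gk c z * (inner ℝ w z) ^ 2 - 2 * a * (gk c z * u (x - z)) := j2.sub (i2.const_mul _)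
    have j4 : Integrable fun z => gk c z * u (x - z) ^ 2 + a ^ 2 * gk c z +
        gk c z * (inner ℝ w z) ^ 2 - 2 * a * (gk c z * u (x - z)) +
        2 * (gk c z * u (x - z) * inner ℝ w z) := j3.add (i5.const_mul _)
    rw [← integral_const_mul, ← integral_const_mul, ← integral_const_mul, ← integral_const_mul]
    rw [← integral_add i1 ((integrable_gk hc).const_mul _),
      ← integral_add j1 i4, ← integral_sub j2 (i2.const_mul _),
      ← integral_add j3 (i5.const_mul _), ← integral_sub j4 (i3.const_mul _)]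
    refine integral_congr_ae (Eventually.of_forall fun z => ?_)
    simp only
    ring
  rw [expand, v1, v2, v3, v4, v5, integral_gk hc] at key
  rw [hln]
  have e : ‖w‖ ^ 2 / (2 * c) = (2 * c)⁻¹ * ‖w‖ ^ 2 := by rw [div_eq_mul_inv, mul_comm]
  rw [e] at key
  nlinarith

theorem int_grad_sq (hc : 0 < c) {u : E3 → ℝ} (hu : Nc u) :
    Integrable fun x => ‖fderiv ℝ (P c u) x‖ ^ 2 := by
  have h := ((P_Nc hc hu.sq).int).const_mul (2 * c)
  refine h.mono' ?_ ?_
  · exact (((P_contDiff hc hu).continuous_fderiv (by norm_num)).norm.pow 2).aestronglyMeasurable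
  · refine Eventually.of_forall fun x => ?_
    rw [Real.norm_of_nonneg (by positivity)]
    have h1 := bessel_pt hc hu x
    have h2 : (2 * c)⁻¹ * ‖fderiv ℝ (P c u) x‖ ^ 2 ≤ P c (fun y => u y ^ 2) x := by
      have := sq_nonneg (P c u x)
      linarith
    rwa [inv_mul_le_iff₀ (by positivity)] at h2

theorem bessel (hc : 0 < c) {u : E3 → ℝ} (hu : Nc u) :
    (∫ x, P c u x ^ 2) + (2 * c)⁻¹ * ∫ x, ‖fderiv ℝ (P c u) x‖ ^ 2 ≤ ∫ x, u x ^ 2 := by
  rw [← integral_P hc hu.sq.int, ← integral_const_mul,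
    ← integral_add (P_Nc hc hu).sq.int ((int_grad_sq hc hu).const_mul _)]
  exact integral_mono ((P_Nc hc hu).sq.int.add ((int_grad_sq hc hu).const_mul _))
    (P_Nc hc hu.sq).int fun x => bessel_pt hc hu x

end Pool.Agent.Y657.EM
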