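import Pool.Agent.Y657.EM.Heat2

set_option autoImplicit false

open MeasureTheory Filter
open scoped Topology

namespace Pool.Agent.Y657.EM

variable {c : ℝ}

theorem Nc_of_compact {φ : E3 → ℝ} (h1 : Continuous φ) (h2 : HasCompactSupport φ) : Nc φ := by
  refine ⟨h1, ?_, h1.integrable_of_hasCompactSupport h2⟩
  obtain ⟨B, hB⟩ := h2.exists_bound_of_continuous h1
  exact ⟨B, fun x => hB x⟩

theorem sq_integral_le (g : ℝ → ℝ) (hg : Continuous g) :
    (∫ t in (0 : ℝ)..1, g t) ^ 2 ≤ ∫ t in (0 : ℝ)..1, g t ^ 2 := by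
  set m := ∫ t in (0 : ℝ)..1, g t with hm
  have h1 : 0 ≤ ∫ t in (0 : ℝ)..1, (g t - m) ^ 2 :=
    intervalIntegral.integral_nonneg zero_le_one fun t _ => sq_nonneg _
  have h2 : ∫ t in (0 : ℝ)..1, (g t - m) ^ 2 =
      (∫ t in (0 : ℝ)..1, g t ^ 2) - 2 * m * (∫ t in (0 : ℝ)..1, g t) + m ^ 2 := by
    have e : ∀ t, (g t - m) ^ 2 = g t ^ 2 - 2 * m * g t + m ^ 2 := fun t => by ring
    simp only [e]
    rw [intervalIntegral.integral_add, intervalIntegral.integral_sub,
      intervalIntegral.integral_const_mul, intervalIntegral.integral_const]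
    · simp
    · exact (hg.pow 2).intervalIntegrable _ _
    · exact (continuous_const.mul hg).intervalIntegrable _ _
    · exact ((hg.pow 2).sub (continuous_const.mul hg)).intervalIntegrable _ _
    · exact continuous_const.intervalIntegrable _ _
  rw [h2, ← hm] at h1
  nlinarith

theorem shift_le {φ : E3 → ℝ} (h1 : ContDiff ℝ 1 φ) (h2 : HasCompactSupport φ) (z : E3) :
    ∫ x, (φ (x - z) - φ x) ^ 2 ≤ ∫ x, (fderiv ℝ φ x z) ^ 2 := by
  have hfc : Continuous fun x => fderiv ℝ φ x z :=
    (h1.continuous_fderiv (by norm_num)).clm_apply continuous_const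
  have hfs : HasCompactSupport fun x => fderiv ℝ φ x z := h2.fderiv_apply (𝕜 := ℝ) z
  set g : E3 → ℝ := fun y => (fderiv ℝ φ y z) ^ 2 with hg
  have hgc : Continuous g := hfc.pow 2
  have hgs : HasCompactSupport g := hfs.comp_left (g := fun t : ℝ => t ^ 2) (by norm_num)
  have hgi : Integrable g := hgc.integrable_of_hasCompactSupport hgs
  have hpt : ∀ x, (φ (x - z) - φ x) ^ 2 ≤ ∫ t in (0 : ℝ)..1, g (x - t • z) := by
    intro x
    have hderiv : ∀ t : ℝ, HasDerivAt (fun t : ℝ => φ (x - t • z)) (-(fderiv ℝ φ (x - t • z) z)) t := by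
      intro t
      have h3 : HasDerivAt (fun t : ℝ => x - t • z) (-z) t := by
        simpa using ((hasDerivAt_id t).smul_const z).const_sub x
      have h4 : HasDerivAt (fun t : ℝ => φ (x - t • z)) (fderiv ℝ φ (x - t • z) (-z)) t :=
        (h1.differentiable (by norm_num) (x - t • z)).hasFDerivAt.comp_hasDerivAt t h3
      rw [map_neg] at h4
      exact h4
    have hcont : Continuous fun t : ℝ => -(fderiv ℝ φ (x - t • z) z) :=
      (hfc.comp (by fun_prop : Continuous fun t : ℝ => x - t • z)).neg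
    have h5 : φ (x - z) - φ x = ∫ t in (0 : ℝ)..1, -(fderiv ℝ φ (x - t • z) z) := by
      rw [intervalIntegral.integral_eq_sub_of_hasDerivAt (fun t _ => hderiv t)
        (hcont.intervalIntegrable _ _)]
      simp
    rw [h5]
    refine (sq_integral_le _ hcont).trans (le_of_eq ?_)
    refine intervalIntegral.integral_congr fun t _ => ?_
    simp only [hg, neg_sq]
  have hprod : Integrable (fun p : E3 × ℝ => g (p.1 - p.2 • z))
      (volume.prod (volume.restrict (Set.Ioc (0 : ℝ) 1))) := by
    have hm : AEStronglyMeasurable (fun p : E3 × ℝ => g (p.1 - p.2 • z))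
        (volume.prod (volume.restrict (Set.Ioc (0 : ℝ) 1))) :=
      (hgc.comp (by fun_prop)).aestronglyMeasurable
    rw [integrable_prod_iff' hm]
    refine ⟨Eventually.of_forall fun t => hgi.comp_sub_right (t • z), ?_⟩
    have : ∀ t : ℝ, ∫ x, ‖g (x - t • z)‖ = ∫ x, ‖g x‖ := fun t =>
      integral_sub_right_eq_self (fun x => ‖g x‖) (t • z)
    simp only [this]
    exact integrable_const _
  have hsw := integral_integral_swap (f := fun (x : E3) (t : ℝ) => g (x - t • z)) hprod
  have e1 : ∀ t : ℝ, ∫ x, g (x - t • z) = ∫ x, g x := fun t =>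
    integral_sub_right_eq_self g (t • z)
  simp only [e1] at hsw
  have e2 : ∫ t in (Set.Ioc (0 : ℝ) 1), (∫ x, g x) = ∫ x, g x := by
    simp
  rw [e2] at hsw
  rw [← hsw]
  have hcs : HasCompactSupport fun x => φ (x - z) - φ x := by
    have h3 : HasCompactSupport fun x => φ (x - z) := by
      have h4 := h2.comp_homeomorph (Homeomorph.subRight z)
      exact h4
    exact h3.sub h2
  have hcc : Continuous fun x => φ (x - z) - φ x :=
    (h1.continuous.comp (by fun_prop)).sub h1.continuous
  have hcs2 : HasCompactSupport fun x => (φ (x - z) - φ x) ^ 2 :=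
    hcs.comp_left (g := fun t : ℝ => t ^ 2) (by norm_num)
  have hint2 : Integrable fun x => (φ (x - z) - φ x) ^ 2 :=
    (hcc.pow 2).integrable_of_hasCompactSupport hcs2
  refine integral_mono hint2 hprod.integral_prod_left ?_
  intro x
  refine (hpt x).trans (le_of_eq ?_)
  rw [intervalIntegral.integral_of_le zero_le_one]

/-- The heat semigroup is controlled from below by the Dirichlet energy. -/
theorem heat_lower (hc : 0 < c) {φ : E3 → ℝ} (h1 : ContDiff ℝ 1 φ) (h2 : HasCompactSupport φ) :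
    (∫ x, φ x ^ 2) - ∫ x, φ x * P c φ x ≤ (4 * c)⁻¹ * ∫ x, ‖fderiv ℝ φ x‖ ^ 2 := by
  have hφ : Nc φ := Nc_of_compact h1.continuous h2
  obtain ⟨A, hA⟩ := hφ.bdd
  -- left side
  have iprod : Integrable (fun p : E3 × E3 => gk c p.1 * (φ p.2 * φ (p.2 - p.1)))
      (volume.prod volume) := by
    have h3 := (integrable_gk hc).mul_prod hφ.int (μ := volume) (ν := volume)
    have h4 := h3.bdd_mul (c := A) (f := fun p : E3 × E3 => φ (p.2 - p.1))
      (h1.continuous.comp (by fun_prop)).aestronglyMeasurable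
      (Eventually.of_forall fun p => hA _)
    refine h4.congr (Eventually.of_forall fun p => ?_)
    simp only; ring
  have hI : ∀ z : E3, ∫ x, (φ (x - z) - φ x) ^ 2 =
      2 * (∫ x, φ x ^ 2) - 2 * ∫ x, φ x * φ (x - z) := by
    intro z
    have e : ∀ x, (φ (x - z) - φ x) ^ 2 = φ (x - z) ^ 2 + φ x ^ 2 - 2 * (φ x * φ (x - z)) :=
      fun x => by ring
    have i1 : Integrable fun x => φ (x - z) ^ 2 := hφ.sq.int.comp_sub_right z
    have i2 : Integrable fun x => φ x * φ (x - z) := by
      have hcu : Continuous fun x : E3 => φ (x - z) := h1.continuous.comp (by fun_prop)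
      have := hφ.int.bdd_mul (c := A) (f := fun x => φ (x - z)) hcu.aestronglyMeasurable
        (Eventually.of_forall fun x => hA _)
      refine this.congr (Eventually.of_forall fun x => ?_)
      simp only; ring
    have i3 : Integrable fun x => φ (x - z) ^ 2 + φ x ^ 2 := i1.add hφ.sq.int
    simp only [e]
    rw [integral_sub i3 (i2.const_mul _), integral_add i1 hφ.sq.int, integral_const_mul,
      integral_sub_right_eq_self (fun x => φ x ^ 2) z]
    ring
  have hL : ∫ z, gk c z * ∫ x, (φ (x - z) - φ x) ^ 2 =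
      2 * ((∫ x, φ x ^ 2) - ∫ x, φ x * P c φ x) := by
    have hsw := integral_integral_swap
      (f := fun (z x : E3) => gk c z * (φ x * φ (x - z))) iprod
    have e1 : ∀ z, ∫ x, gk c z * (φ x * φ (x - z)) = gk c z * ∫ x, φ x * φ (x - z) :=
      fun z => integral_const_mul _ _
    have e2 : ∀ x, ∫ z, gk c z * (φ x * φ (x - z)) = φ x * P c φ x := by
      intro x
      rw [P_eq, ← integral_const_mul]
      refine integral_congr_ae (Eventually.of_forall fun z => ?_)
      simp only; ring
    simp only [e1, e2] at hsw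
    have i5 : Integrable fun z => gk c z * ∫ x, φ x * φ (x - z) := by
      have := iprod.integral_prod_left
      simp only [e1] at this
      exact this
    simp only [hI, mul_sub]
    have e3 : ∀ z, gk c z * (2 * ∫ x, φ x ^ 2) = (2 * ∫ x, φ x ^ 2) * gk c z :=
      fun z => mul_comm _ _
    have e4 : ∀ z, gk c z * (2 * ∫ x, φ x * φ (x - z)) = 2 * (gk c z * ∫ x, φ x * φ (x - z)) :=
      fun z => by ring
    simp only [e3, e4]
    rw [integral_sub ((integrable_gk hc).const_mul _) (i5.const_mul _), integral_const_mul,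
      integral_const_mul, integral_gk hc, hsw]
    ring
  -- right side
  have hDc : Continuous fun x => fderiv ℝ φ x := h1.continuous_fderiv (by norm_num)
  have hDs : HasCompactSupport fun x => fderiv ℝ φ x := h2.fderiv (𝕜 := ℝ)
  have hDn : Continuous fun x => ‖fderiv ℝ φ x‖ ^ 2 := (continuous_norm.comp hDc).pow 2
  have hDn2 : HasCompactSupport fun x => ‖fderiv ℝ φ x‖ ^ 2 := by
    have h3 : HasCompactSupport fun x => ‖fderiv ℝ φ x‖ := hDs.norm
    exact h3.comp_left (g := fun t : ℝ => t ^ 2) (by norm_num)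
  have iD : Integrable fun x => ‖fderiv ℝ φ x‖ ^ 2 :=
    hDn.integrable_of_hasCompactSupport hDn2
  have jprod : Integrable (fun p : E3 × E3 => gk c p.1 * (fderiv ℝ φ p.2 p.1) ^ 2)
      (volume.prod volume) := by
    refine ((integrable_sq_gk hc).mul_prod iD (μ := volume) (ν := volume)).mono' ?_ ?_
    · have c1 : Continuous fun p : E3 × E3 => fderiv ℝ φ p.2 p.1 :=
        (hDc.comp continuous_snd).clm_apply continuous_fst
      exact (((continuous_gk c).comp continuous_fst).mul (c1.pow 2)).aestronglyMeasurable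
    · refine Eventually.of_forall fun p => ?_
      rw [Real.norm_of_nonneg (mul_nonneg (gk_pos hc _).le (sq_nonneg _))]
      have h3 := (fderiv ℝ φ p.2).le_opNorm p.1
      have h4 : (fderiv ℝ φ p.2 p.1) ^ 2 ≤ (‖fderiv ℝ φ p.2‖ * ‖p.1‖) ^ 2 := by
        rw [← sq_abs, ← Real.norm_eq_abs]
        exact pow_le_pow_left₀ (norm_nonneg _) h3 2
      have h5 := mul_le_mul_of_nonneg_left h4 (gk_pos hc p.1).le
      calc gk c p.1 * (fderiv ℝ φ p.2 p.1) ^ 2 ≤ gk c p.1 * (‖fderiv ℝ φ p.2‖ * ‖p.1‖) ^ 2 := h5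
        _ = ‖p.1‖ ^ 2 * gk c p.1 * ‖fderiv ℝ φ p.2‖ ^ 2 := by ring
  have hR : ∫ z, gk c z * ∫ x, (fderiv ℝ φ x z) ^ 2 =
      (2 * c)⁻¹ * ∫ x, ‖fderiv ℝ φ x‖ ^ 2 := by
    have hsw := integral_integral_swap
      (f := fun (z x : E3) => gk c z * (fderiv ℝ φ x z) ^ 2) jprod
    have e1 : ∀ z, ∫ x, gk c z * (fderiv ℝ φ x z) ^ 2 = gk c z * ∫ x, (fderiv ℝ φ x z) ^ 2 :=
      fun z => integral_const_mul _ _
    have e2 : ∀ x, ∫ z, gk c z * (fderiv ℝ φ x z) ^ 2 = (2 * c)⁻¹ * ‖fderiv ℝ φ x‖ ^ 2 := by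
      intro x
      rw [integral_lin_sq_gk hc, div_eq_mul_inv, mul_comm]
    simp only [e1, e2] at hsw
    rw [hsw, integral_const_mul]
  have hLi : Integrable fun z => gk c z * ∫ x, (φ (x - z) - φ x) ^ 2 := by
    have e1 : ∀ z, ∫ x, gk c z * (φ x * φ (x - z)) = gk c z * ∫ x, φ x * φ (x - z) :=
      fun z => integral_const_mul _ _
    have i5 : Integrable fun z => gk c z * ∫ x, φ x * φ (x - z) := by
      have := iprod.integral_prod_left
      simp only [e1] at this
      exact this
    simp only [hI]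
    refine (((integrable_gk hc).const_mul (2 * ∫ x, φ x ^ 2)).sub (i5.const_mul 2)).congr ?_
    refine Eventually.of_forall fun z => ?_
    simp only [Pi.sub_apply]; ring
  have hRi : Integrable fun z => gk c z * ∫ x, (fderiv ℝ φ x z) ^ 2 := by
    have e1 : ∀ z, ∫ x, gk c z * (fderiv ℝ φ x z) ^ 2 = gk c z * ∫ x, (fderiv ℝ φ x z) ^ 2 :=
      fun z => integral_const_mul _ _
    have := jprod.integral_prod_left
    simp only [e1] at this
    exact this
  have hle := integral_mono hLi hRi fun z =>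
    mul_le_mul_of_nonneg_left (shift_le h1 h2 z) (gk_pos hc z).le
  rw [hL, hR] at hle
  have e : (4 * c)⁻¹ = (2 * c)⁻¹ / 2 := by field_simp; norm_num
  rw [e]
  linarith

end Pool.Agent.Y657.EM
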