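import Pool.Agent.Y657.EM.Heat3

set_option autoImplicit false

open MeasureTheory Filter
open scoped Topology

namespace Pool.Agent.Y657.EM

variable {c : ℝ}

/-- Extension of the energy inequality from compactly supported to decaying functions. -/
theorem cutoff {V : E3 → ℝ} (hV : Bc V)
    (H : ∀ φ : E3 → ℝ, ContDiff ℝ 1 φ → HasCompactSupport φ →
      ∫ x, V x * φ x ^ 2 ≤ ∫ x, ‖fderiv ℝ φ x‖ ^ 2)
    {η : E3 → ℝ} (h1 : ContDiff ℝ 1 η) (h2 : Nc η)
    (h3 : Integrable fun x => ‖fderiv ℝ η x‖ ^ 2) :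
    ∫ x, V x * η x ^ 2 ≤ ∫ x, ‖fderiv ℝ η x‖ ^ 2 := by
  let f : ContDiffBump (0 : E3) := ⟨1, 2, one_pos, one_lt_two⟩
  have hf1 : ContDiff ℝ 1 (f : E3 → ℝ) := f.contDiff
  have hfs : HasCompactSupport (f : E3 → ℝ) := f.hasCompactSupport
  obtain ⟨C, hC⟩ := (hfs.fderiv (𝕜 := ℝ)).exists_bound_of_continuous
    (hf1.continuous_fderiv (by norm_num))
  have hC0 : 0 ≤ C := (norm_nonneg _).trans (hC 0)
  set a : ℕ → ℝ := fun n => ((n : ℝ) + 1)⁻¹ with ha
  have ha0 : ∀ n, 0 < a n := fun n => by positivity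
  have ha1 : ∀ n, a n ≤ 1 := fun n => by
    rw [ha]; exact inv_le_one_of_one_le₀ (by have : (0:ℝ) ≤ n := Nat.cast_nonneg n; linarith)
  set χ : ℕ → E3 → ℝ := fun n x => f (a n • x) with hχ
  have hχ1 : ∀ n, ContDiff ℝ 1 (χ n) := fun n => hf1.comp (contDiff_const_smul (a n))
  have hχs : ∀ n, HasCompactSupport (χ n) := fun n =>
    hfs.comp_smul (ha0 n).ne'
  have hχb : ∀ n x, 0 ≤ χ n x ∧ χ n x ≤ 1 := fun n x => ⟨f.nonneg, f.le_one⟩
  have hχd : ∀ n x, ‖fderiv ℝ (χ n) x‖ ≤ C := by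
    intro n x
    have e : HasFDerivAt (χ n) ((fderiv ℝ (f : E3 → ℝ) (a n • x)).comp
        (a n • ContinuousLinearMap.id ℝ E3)) x := by
      have g1 : HasFDerivAt (fun x : E3 => a n • x) (a n • ContinuousLinearMap.id ℝ E3) x :=
        (hasFDerivAt_id x).const_smul (a n)
      exact ((hf1.differentiable (by norm_num) (a n • x)).hasFDerivAt).comp x g1
    rw [e.fderiv]
    refine (ContinuousLinearMap.opNorm_comp_le _ _).trans ?_
    rw [norm_smul, Real.norm_of_nonneg (ha0 n).le]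
    have g2 := ContinuousLinearMap.norm_id_le (𝕜 := ℝ) (E := E3)
    have g3 : a n * ‖ContinuousLinearMap.id ℝ E3‖ ≤ 1 := by
      calc a n * ‖ContinuousLinearMap.id ℝ E3‖ ≤ 1 * 1 :=
            mul_le_mul (ha1 n) g2 (norm_nonneg _) zero_le_one
        _ = 1 := one_mul 1
    calc ‖fderiv ℝ (f : E3 → ℝ) (a n • x)‖ * (a n * ‖ContinuousLinearMap.id ℝ E3‖) ≤ C * 1 :=
          mul_le_mul (hC _) g3 (by positivity) hC0
      _ = C := mul_one C
  have hev : ∀ x : E3, ∀ᶠ n in atTop, χ n =ᶠ[𝓝 x] fun _ => 1 := by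
    intro x
    obtain ⟨N, hN⟩ := exists_nat_gt (‖x‖ + 1)
    filter_upwards [eventually_ge_atTop N] with n hn
    have hball : Metric.ball x 1 ∈ 𝓝 x := Metric.ball_mem_nhds x one_pos
    filter_upwards [hball] with y hy
    refine f.one_of_mem_closedBall ?_
    rw [mem_closedBall_zero_iff, norm_smul, Real.norm_of_nonneg (ha0 n).le]
    have hy' : ‖y‖ ≤ ‖x‖ + 1 := by
      have := norm_sub_norm_le y x
      have h5 : ‖y - x‖ < 1 := by rwa [← dist_eq_norm]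
      linarith
    have hnr : (N : ℝ) ≤ n := by exact_mod_cast hn
    change a n * ‖y‖ ≤ 1
    rw [ha]
    change ((n : ℝ) + 1)⁻¹ * ‖y‖ ≤ 1
    rw [inv_mul_le_iff₀ (by positivity)]
    linarith
  have hle : ∀ n, ∫ x, V x * (χ n x * η x) ^ 2 ≤ ∫ x, ‖fderiv ℝ (fun x => χ n x * η x) x‖ ^ 2 :=
    fun n => H _ ((hχ1 n).mul h1) ((hχs n).mul_right)
  have t1 : Tendsto (fun n => ∫ x, V x * (χ n x * η x) ^ 2) atTop (𝓝 (∫ x, V x * η x ^ 2)) := by
    have hi := hV.mul_Nc h2.sq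
    refine tendsto_integral_of_dominated_convergence (fun x => |V x * η x ^ 2|) ?_ hi.int.abs ?_ ?_
    · intro n
      exact (hV.cont.mul (((hχ1 n).continuous.mul h2.cont).pow 2)).aestronglyMeasurable
    · intro n
      refine Eventually.of_forall fun x => ?_
      rw [Real.norm_eq_abs, mul_pow, ← mul_assoc, mul_comm (V x), mul_assoc, abs_mul]
      refine mul_le_of_le_one_left (abs_nonneg _) ?_
      rw [abs_of_nonneg (sq_nonneg _)]
      exact pow_le_one₀ (hχb n x).1 (hχb n x).2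
    · refine Eventually.of_forall fun x => ?_
      refine tendsto_const_nhds.congr' ?_
      filter_upwards [hev x] with n hn
      rw [hn.self_of_nhds, one_mul]
  have hfd : ∀ n x, fderiv ℝ (fun x => χ n x * η x) x =
      χ n x • fderiv ℝ η x + η x • fderiv ℝ (χ n) x := fun n x =>
    fderiv_fun_mul ((hχ1 n).differentiable (by norm_num) x) (h1.differentiable (by norm_num) x)
  have t2 : Tendsto (fun n => ∫ x, ‖fderiv ℝ (fun x => χ n x * η x) x‖ ^ 2) atTop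
      (𝓝 (∫ x, ‖fderiv ℝ η x‖ ^ 2)) := by
    refine tendsto_integral_of_dominated_convergence
      (fun x => 2 * ‖fderiv ℝ η x‖ ^ 2 + 2 * C ^ 2 * η x ^ 2) ?_ ?_ ?_ ?_
    · intro n
      have g1 : Continuous fun x => fderiv ℝ (fun x => χ n x * η x) x :=
        ((hχ1 n).mul h1).continuous_fderiv (by norm_num)
      exact ((continuous_norm.comp g1).pow 2).aestronglyMeasurable
    · exact (h3.const_mul 2).add (h2.sq.int.const_mul _)
    · intro n
      refine Eventually.of_forall fun x => ?_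
      rw [Real.norm_of_nonneg (sq_nonneg _), hfd]
      have g1 : ‖χ n x • fderiv ℝ η x + η x • fderiv ℝ (χ n) x‖ ≤
          ‖fderiv ℝ η x‖ + |η x| * C := by
        refine (norm_add_le _ _).trans ?_
        rw [norm_smul, norm_smul, Real.norm_of_nonneg (hχb n x).1]
        refine add_le_add (mul_le_of_le_one_left (norm_nonneg _) (hχb n x).2) ?_
        exact mul_le_mul_of_nonneg_left (hχd n x) (norm_nonneg _)
      have g2 := pow_le_pow_left₀ (norm_nonneg _) g1 2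
      have g3 : |η x| ^ 2 = η x ^ 2 := sq_abs _
      nlinarith [sq_nonneg (‖fderiv ℝ η x‖ - |η x| * C)]
    · refine Eventually.of_forall fun x => ?_
      refine tendsto_const_nhds.congr' ?_
      filter_upwards [hev x] with n hn
      have g1 : (fun x => χ n x * η x) =ᶠ[𝓝 x] η := by
        filter_upwards [hn] with y hy
        rw [hy, one_mul]
      rw [g1.fderiv_eq]
  exact le_of_tendsto_of_tendsto' t1 t2 hle

/-- One step of the discretised semigroup. -/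
noncomputable def Cop (c : ℝ) (Φ : E3 → ℝ) (u : E3 → ℝ) : E3 → ℝ :=
  P c fun x => Φ x * P c u x

theorem Cop_Nc (hc : 0 < c) {Φ u : E3 → ℝ} (hΦ : Bc Φ) (hu : Nc u) : Nc (Cop c Φ u) :=
  P_Nc hc (hΦ.mul_Nc (P_Nc hc hu))

theorem Cop_pair (hc : 0 < c) {Φ u v : E3 → ℝ} (hΦ : Bc Φ) (hu : Nc u) (hv : Nc v) :
    ∫ x, v x * Cop c Φ u x = ∫ x, Φ x * (P c v x * P c u x) := by
  unfold Cop
  rw [P_symm hc (hΦ.mul_Nc (P_Nc hc hu)) hv]
  refine integral_congr_ae (Eventually.of_forall fun x => ?_)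
  simp only; ring

theorem Cop_symm (hc : 0 < c) {Φ u v : E3 → ℝ} (hΦ : Bc Φ) (hu : Nc u) (hv : Nc v) :
    ∫ x, v x * Cop c Φ u x = ∫ x, Cop c Φ v x * u x := by
  rw [Cop_pair hc hΦ hu hv]
  have : ∫ x, Cop c Φ v x * u x = ∫ x, u x * Cop c Φ v x :=
    integral_congr_ae (Eventually.of_forall fun x => mul_comm _ _)
  rw [this, Cop_pair hc hΦ hv hu]
  refine integral_congr_ae (Eventually.of_forall fun x => ?_)
  simp only; ring

/-- contraction property -/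
theorem Cop_contract (hc : 0 < c) {V : E3 → ℝ} (hV : Bc V)
    (hpos : ∀ x, 0 ≤ 1 + (2 * c)⁻¹ * V x)
    (H : ∀ φ : E3 → ℝ, ContDiff ℝ 1 φ → HasCompactSupport φ →
      ∫ x, V x * φ x ^ 2 ≤ ∫ x, ‖fderiv ℝ φ x‖ ^ 2)
    {u : E3 → ℝ} (hu : Nc u) :
    ∫ x, Cop c (fun x => 1 + (2 * c)⁻¹ * V x) u x ^ 2 ≤ ∫ x, u x ^ 2 := by
  set Φ : E3 → ℝ := fun x => 1 + (2 * c)⁻¹ * V x with hΦd
  have hΦ : Bc Φ := by
    obtain ⟨B, hB⟩ := hV.bdd
    refine ⟨continuous_const.add (continuous_const.mul hV.cont), 1 + (2 * c)⁻¹ * B, fun x => ?_⟩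
    refine (abs_add_le _ _).trans ?_
    rw [abs_one, abs_mul, abs_of_pos (by positivity : 0 < (2 * c)⁻¹)]
    have := mul_le_mul_of_nonneg_left (hB x) (by positivity : 0 ≤ (2 * c)⁻¹)
    linarith
  have hform : ∀ w : E3 → ℝ, Nc w → ∫ x, Φ x * P c w x ^ 2 ≤ ∫ x, w x ^ 2 := by
    intro w hw
    have h1 := cutoff hV H (P_contDiff hc hw) (P_Nc hc hw) (int_grad_sq hc hw)
    have h2 := bessel hc hw
    have h3 : ∫ x, Φ x * P c w x ^ 2 =
        (∫ x, P c w x ^ 2) + (2 * c)⁻¹ * ∫ x, V x * P c w x ^ 2 := by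
      rw [← integral_const_mul, ← integral_add (P_Nc hc hw).sq.int
        ((hV.mul_Nc (P_Nc hc hw).sq).int.const_mul _)]
      refine integral_congr_ae (Eventually.of_forall fun x => ?_)
      simp only [hΦd]; ring
    rw [h3]
    have h4 := mul_le_mul_of_nonneg_left h1 (by positivity : 0 ≤ (2 * c)⁻¹)
    linarith
  have hCu := Cop_Nc hc hΦ hu
  have e1 : ∫ x, Cop c Φ u x ^ 2 = ∫ x, Φ x * (P c (Cop c Φ u) x * P c u x) := by
    rw [← Cop_pair hc hΦ hu hCu]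
    refine integral_congr_ae (Eventually.of_forall fun x => ?_)
    simp only; ring
  have n1 := P_Nc hc hCu
  have n2 := P_Nc hc hu
  have i1 : Integrable fun x => Φ x * (P c (Cop c Φ u) x * P c u x) := (hΦ.mul_Nc (n1.mul n2)).int
  have i2 : Integrable fun x => Φ x * P c (Cop c Φ u) x ^ 2 := (hΦ.mul_Nc n1.sq).int
  have i3 : Integrable fun x => Φ x * P c u x ^ 2 := (hΦ.mul_Nc n2.sq).int
  have e2 : ∫ x, Φ x * (P c (Cop c Φ u) x * P c u x) ≤
      ∫ x, (1 / 2 * (Φ x * P c (Cop c Φ u) x ^ 2) + 1 / 2 * (Φ x * P c u x ^ 2)) := by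
    refine integral_mono i1 ((i2.const_mul _).add (i3.const_mul _)) fun x => ?_
    have := mul_nonneg (hpos x) (sq_nonneg (P c (Cop c Φ u) x - P c u x))
    change Φ x * (P c (Cop c Φ u) x * P c u x) ≤
      1 / 2 * (Φ x * P c (Cop c Φ u) x ^ 2) + 1 / 2 * (Φ x * P c u x ^ 2)
    have h5 : Φ x = 1 + (2 * c)⁻¹ * V x := rfl
    rw [← h5] at this
    nlinarith
  rw [integral_add (i2.const_mul _) (i3.const_mul _), integral_const_mul,
    integral_const_mul] at e2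
  have h6 := hform _ hCu
  have h7 := hform _ hu
  rw [e1]
  rw [e1] at h6
  linarith

/-- Cauchy-Schwarz -/
theorem cs {f g : E3 → ℝ} (hf : Nc f) (hg : Nc g) :
    (∫ x, f x * g x) ^ 2 ≤ (∫ x, f x ^ 2) * ∫ x, g x ^ 2 := by
  have h : ∀ t : ℝ, 0 ≤ (∫ x, g x ^ 2) * (t * t) + (-2 * ∫ x, f x * g x) * t + ∫ x, f x ^ 2 := by
    intro t
    have h1 : 0 ≤ ∫ x, (f x - t * g x) ^ 2 := integral_nonneg fun x => sq_nonneg _
    have h2 : ∫ x, (f x - t * g x) ^ 2 =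
        (∫ x, g x ^ 2) * (t * t) + (-2 * ∫ x, f x * g x) * t + ∫ x, f x ^ 2 := by
      have e : ∀ x, (f x - t * g x) ^ 2 =
          (t * t) * g x ^ 2 + (-2 * t) * (f x * g x) + f x ^ 2 := fun x => by ring
      have i1 : Integrable fun x => (t * t) * g x ^ 2 + (-2 * t) * (f x * g x) :=
        (hg.sq.int.const_mul _).add ((hf.mul hg).int.const_mul _)
      simp only [e]
      rw [integral_add i1 hf.sq.int,
        integral_add (hg.sq.int.const_mul _) ((hf.mul hg).int.const_mul _), integral_const_mul,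
        integral_const_mul]
      ring
    rwa [h2] at h1
  have := discrim_le_zero h
  unfold discrim at this
  nlinarith

/-- Iterates -/
noncomputable def It (c : ℝ) (Φ : E3 → ℝ) (u : E3 → ℝ) : ℕ → E3 → ℝ
  | 0 => u
  | n + 1 => Cop c Φ (It c Φ u n)

theorem It_Nc (hc : 0 < c) {Φ u : E3 → ℝ} (hΦ : Bc Φ) (hu : Nc u) (n : ℕ) : Nc (It c Φ u n) := by
  induction n with
  | zero => exact hu
  | succ n ih => exact Cop_Nc hc hΦ ih

theorem It_contract (hc : 0 < c) {V : E3 → ℝ} (hV : Bc V)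
    (hpos : ∀ x, 0 ≤ 1 + (2 * c)⁻¹ * V x)
    (H : ∀ φ : E3 → ℝ, ContDiff ℝ 1 φ → HasCompactSupport φ →
      ∫ x, V x * φ x ^ 2 ≤ ∫ x, ‖fderiv ℝ φ x‖ ^ 2)
    {u : E3 → ℝ} (hu : Nc u) (hΦ : Bc fun x => 1 + (2 * c)⁻¹ * V x) (n : ℕ) :
    ∫ x, It c (fun x => 1 + (2 * c)⁻¹ * V x) u n x ^ 2 ≤ ∫ x, u x ^ 2 := by
  induction n with
  | zero => exact le_rfl
  | succ n ih => exact (Cop_contract hc hV hpos H (It_Nc hc hΦ hu n)).trans ih

/-- Growth of the iterates. -/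
theorem It_growth (hc : 0 < c) {Φ φ : E3 → ℝ} (hΦ : Bc Φ) (hφ : Nc φ) {μ : ℝ} (hμ : 0 < μ)
    (h0 : 0 < ∫ x, φ x ^ 2) (h : μ * ∫ x, φ x ^ 2 ≤ ∫ x, φ x * Cop c Φ φ x) (n : ℕ) :
    (μ ^ 2) ^ n * ∫ x, φ x ^ 2 ≤ ∫ x, It c Φ φ n x ^ 2 := by
  set b : ℕ → ℝ := fun n => ∫ x, It c Φ φ n x ^ 2 with hb
  have hb0 : b 0 = ∫ x, φ x ^ 2 := rfl
  have hcs : ∀ n, b (n + 1) ^ 2 ≤ b n * b (n + 2) := by
    intro n
    have e : b (n + 1) = ∫ x, It c Φ φ n x * It c Φ φ (n + 2) x := by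
      have e1 : ∫ x, It c Φ φ n x * It c Φ φ (n + 2) x =
          ∫ x, It c Φ φ n x * Cop c Φ (It c Φ φ (n + 1)) x := rfl
      rw [e1, Cop_symm hc hΦ (It_Nc hc hΦ hφ _) (It_Nc hc hΦ hφ _)]
      refine integral_congr_ae (Eventually.of_forall fun x => ?_)
      change It c Φ φ (n + 1) x ^ 2 = It c Φ φ (n + 1) x * It c Φ φ (n + 1) x
      ring
    rw [e]
    exact cs (It_Nc hc hΦ hφ _) (It_Nc hc hΦ hφ _)
  have hb1 : μ ^ 2 * b 0 ≤ b 1 := by
    have h1 : (∫ x, φ x * Cop c Φ φ x) ^ 2 ≤ b 0 * b 1 := cs hφ (It_Nc hc hΦ hφ 1)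
    have h2 : (μ * b 0) ^ 2 ≤ (∫ x, φ x * Cop c Φ φ x) ^ 2 :=
      pow_le_pow_left₀ (by positivity) h 2
    have h3 : b 0 * (μ ^ 2 * b 0) ≤ b 0 * b 1 := by nlinarith
    exact le_of_mul_le_mul_left h3 (by rw [hb0]; exact h0)
  have key : ∀ n, 0 < b n ∧ μ ^ 2 * b n ≤ b (n + 1) := by
    intro n
    induction n with
    | zero => exact ⟨by rw [hb0]; exact h0, hb1⟩
    | succ n ih =>
      obtain ⟨ih1, ih2⟩ := ih
      have hp : 0 < b (n + 1) := lt_of_lt_of_le (by positivity) ih2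
      refine ⟨hp, ?_⟩
      have h1 := hcs n
      have h2 : b n * (μ ^ 2 * b (n + 1)) ≤ b n * b (n + 2) := by
        calc b n * (μ ^ 2 * b (n + 1)) = (μ ^ 2 * b n) * b (n + 1) := by ring
          _ ≤ b (n + 1) * b (n + 1) := mul_le_mul_of_nonneg_right ih2 hp.le
          _ = b (n + 1) ^ 2 := by ring
          _ ≤ b n * b (n + 2) := h1
      exact le_of_mul_le_mul_left h2 ih1
  induction n with
  | zero => simp only [pow_zero, one_mul]; exact le_rfl
  | succ n ih =>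
    have h1 := (key n).2
    have h2 := mul_le_mul_of_nonneg_left ih (by positivity : 0 ≤ μ ^ 2)
    calc (μ ^ 2) ^ (n + 1) * ∫ x, φ x ^ 2 = μ ^ 2 * ((μ ^ 2) ^ n * ∫ x, φ x ^ 2) := by ring
      _ ≤ μ ^ 2 * b n := h2
      _ ≤ b (n + 1) := h1

/-- Domination of the iterates. -/
theorem It_dom (hc : 0 < c) {Φ φ f : E3 → ℝ} (hΦ : Bc Φ) (hΦ0 : ∀ x, 0 ≤ Φ x) (hφ : Nc φ)
    (hf : Nc f) {A : ℝ} (hA : ∀ x, |φ x| ≤ A * f x) (n : ℕ) (x : E3) :
    |It c Φ φ n x| ≤ A * It c Φ f n x := by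
  induction n generalizing x with
  | zero => exact hA x
  | succ n ih =>
    have n1 := It_Nc hc hΦ hφ n
    have n2 := It_Nc hc hΦ hf n
    have h1 : ∀ x, |P c (It c Φ φ n) x| ≤ A * P c (It c Φ f n) x := by
      intro x
      rw [← P_const_mul]
      exact abs_P_le hc n1.toBc (n2.const_mul A).toBc ih x
    have h2 : ∀ x, |Φ x * P c (It c Φ φ n) x| ≤ A * (Φ x * P c (It c Φ f n) x) := by
      intro x
      rw [abs_mul, abs_of_nonneg (hΦ0 x)]
      have := mul_le_mul_of_nonneg_left (h1 x) (hΦ0 x)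
      linarith
    change |P c (fun x => Φ x * P c (It c Φ φ n) x) x| ≤
      A * P c (fun x => Φ x * P c (It c Φ f n) x) x
    rw [← P_const_mul]
    exact abs_P_le hc (hΦ.mul_Nc (P_Nc hc n1)).toBc
      ((hΦ.mul_Nc (P_Nc hc n2)).const_mul A).toBc h2 x

end Pool.Agent.Y657.EM
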