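import Pool.Agent.Y657.EM.Moll

set_option autoImplicit false

open MeasureTheory Filter
open scoped Topology

namespace Pool.Agent.Y657.EM

open Pool.Agent.Helper985.Pol (Adm Q en Rad)

/-- profile of a radial function in terms of the squared radius -/
noncomputable def prof (W : E3 → ℝ) (s : ℝ) : ℝ :=
  W (Real.sqrt s • (EuclideanSpace.single 0 1 : E3))

theorem norm_e1 (s : ℝ) : ‖Real.sqrt s • (EuclideanSpace.single 0 1 : E3)‖ = Real.sqrt s := by
  rw [norm_smul, Real.norm_eq_abs, abs_of_nonneg (Real.sqrt_nonneg s)]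
  simp

theorem prof_apply {W : E3 → ℝ} (hW : Rad W) (x : E3) : W x = prof W (‖x‖ ^ 2) := by
  refine hW.rad _ _ ?_
  rw [norm_e1, Real.sqrt_sq (norm_nonneg x)]

theorem prof_anti {W : E3 → ℝ} (hW : Rad W) : AntitoneOn (prof W) (Set.Ioi 0) := by
  intro a ha b hb hab
  unfold prof
  refine hW.mono _ _ ?_ ?_
  · intro h
    have h1 : ‖Real.sqrt a • (EuclideanSpace.single 0 1 : E3)‖ = 0 := by rw [h, norm_zero]
    rw [norm_e1] at h1
    have h2 := Real.sqrt_pos.2 (show 0 < a from ha)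
    linarith
  · rw [norm_e1, norm_e1]
    exact Real.sqrt_le_sqrt hab

theorem sq_comp_hcs {φ : E3 → ℝ} (h : HasCompactSupport φ) :
    HasCompactSupport (fun x => φ x ^ 2) := by
  have : (fun x => φ x ^ 2) = (fun t : ℝ => t ^ 2) ∘ φ := rfl
  rw [this]
  exact h.comp_left (by norm_num)

theorem pot_int {w : E3 → ℝ} (hw : LocallyIntegrable w) {φ : E3 → ℝ} (hφ : Continuous φ)
    (hc : HasCompactSupport φ) (y : E3) : Integrable (fun x => w (x - y) * φ x ^ 2) := by
  have h1 : Integrable (fun x => (φ (x + y) ^ 2) • w x) := by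
    apply hw.integrable_smul_left_of_hasCompactSupport
    · exact (hφ.comp (continuous_id.add continuous_const)).pow 2
    · have h2 : HasCompactSupport (fun x => φ (x + y)) :=
        hc.comp_homeomorph (Homeomorph.addRight y)
      exact sq_comp_hcs h2
  have h4 := h1.comp_sub_right y
  refine h4.congr (Filter.Eventually.of_forall (fun x => ?_))
  simp only [sub_add_cancel, smul_eq_mul]
  ring

theorem Q_sum {K : ℕ} {W : Fin K → E3 → ℝ} (hW : ∀ j, LocallyIntegrable (W j)) {φ : E3 → ℝ}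
    (hφ : Continuous φ) (hc : HasCompactSupport φ) (S : Fin K → E3) :
    Q W S φ = (∫ x, ‖fderiv ℝ φ x‖ ^ 2) - ∑ j, ∫ x, W j (x - S j) * φ x ^ 2 := by
  unfold Q
  congr 1
  rw [← integral_finset_sum _ (fun j _ => pot_int (hW j) hφ hc (S j))]
  refine integral_congr_ae (Filter.Eventually.of_forall (fun x => ?_))
  simp only [Finset.sum_mul]

theorem Q_anti {K : ℕ} {W1 W2 : Fin K → E3 → ℝ} (h1 : ∀ j, LocallyIntegrable (W1 j))
    (h2 : ∀ j, LocallyIntegrable (W2 j)) (h : ∀ j, ∀ x, x ≠ 0 → W1 j x ≤ W2 j x) {φ : E3 → ℝ}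
    (hφ : Continuous φ) (hc : HasCompactSupport φ) (S : Fin K → E3) : Q W2 S φ ≤ Q W1 S φ := by
  rw [Q_sum h1 hφ hc, Q_sum h2 hφ hc]
  refine sub_le_sub_left (Finset.sum_le_sum fun j _ => ?_) _
  refine integral_mono_ae (pot_int (h1 j) hφ hc _) (pot_int (h2 j) hφ hc _) ?_
  have : ∀ᵐ x : E3, x ≠ S j := by
    rw [ae_iff]
    simp
  filter_upwards [this] with x hx
  exact mul_le_mul_of_nonneg_right (h j _ (sub_ne_zero.2 hx)) (sq_nonneg _)

theorem en_anti {K : ℕ} {W1 W2 : Fin K → E3 → ℝ} (h1 : ∀ j, LocallyIntegrable (W1 j))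
    (h2 : ∀ j, LocallyIntegrable (W2 j)) (h : ∀ j, ∀ x, x ≠ 0 → W1 j x ≤ W2 j x)
    (S : Fin K → E3) : en W2 S ≤ en W1 S := by
  unfold en
  refine le_iInf₂ fun φ hφ => ?_
  refine (iInf₂_le φ hφ).trans ?_
  exact_mod_cast Q_anti h1 h2 h hφ.1.continuous hφ.2.1 S

theorem ae_not_countable {D : Set ℝ} (hD : D.Countable) (R : E3) :
    ∀ᵐ x : E3, ¬ (‖x - R‖ ^ 2 ∈ D) := by
  rw [ae_iff]
  simp only [not_not]
  have hsub : {x : E3 | ‖x - R‖ ^ 2 ∈ D} ⊆ ⋃ d ∈ D, Metric.sphere R (Real.sqrt d) := by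
    intro x hx
    simp only [Set.mem_iUnion]
    refine ⟨‖x - R‖ ^ 2, hx, ?_⟩
    rw [Real.sqrt_sq (norm_nonneg _), mem_sphere_iff_norm]
  refine measure_mono_null hsub ?_
  rw [measure_biUnion_null_iff hD]
  intro d _
  exact Measure.addHaar_sphere _ _ _

/-- bounded below radial potentials -/
theorem en_lower {K : ℕ} (hK : 0 < K) (k : ℕ) (hk : k ≤ 1) (R R' : Fin K → E3)
    (hpath : Path (3 + 2 * (k + 1)) R R')
    (W : Fin K → E3 → ℝ) (hW : ∀ j, Rad (W j)) (hS : ∀ j, Shape k (prof (W j)))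
    (hb : ∀ j, BddBelow (prof (W j) '' Set.Ioi 0)) :
    en W R ≤ en W R' := by
  have hs : ∀ n : ℕ, (0 : ℝ) < 1 / ((n : ℝ) + 1) := fun n => by positivity
  choose u hu using fun (n : ℕ) (j : Fin K) => exists_moll hk (hS j) (hb j) (hs n)
  have hWn : ∀ n j, Continuous (fun x : E3 => u n j (‖x‖ ^ 2)) := fun n j =>
    (hu n j).1.smooth.continuous.comp (by fun_prop)
  have hle : ∀ n j (x : E3), x ≠ 0 → u n j (‖x‖ ^ 2) ≤ W j x := by
    intro n j x hx
    rw [prof_apply (hW j) x]
    exact (hu n j).2.2.1 _ (by positivity)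
  have step1 : ∀ n, en W R ≤ en (fun j x => u n j (‖x‖ ^ 2)) R := fun n =>
    en_anti (fun j => (hWn n j).locallyIntegrable) (fun j => (hW j).li) (hle n) R
  have step2 : ∀ n, en (fun j x => u n j (‖x‖ ^ 2)) R ≤ en (fun j x => u n j (‖x‖ ^ 2)) R' :=
    fun n => en_nice hK k hk R R' hpath (u n) fun j => (hu n j).1
  conv_rhs => unfold en
  refine le_iInf₂ fun φ hφ => ?_
  have hφc := hφ.1.continuous
  have hφs := hφ.2.1
  have step3 : ∀ n, en W R ≤ ((Q (fun j x => u n j (‖x‖ ^ 2)) R' φ : ℝ) : EReal) := fun n =>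
    (step1 n).trans ((step2 n).trans (iInf₂_le φ hφ))
  have hlim : Tendsto (fun n => Q (fun j x => u n j (‖x‖ ^ 2)) R' φ) atTop
      (𝓝 (Q W R' φ)) := by
    rw [Q_sum (fun j => (hW j).li) hφc hφs]
    have : ∀ n, Q (fun j x => u n j (‖x‖ ^ 2)) R' φ = (∫ x, ‖fderiv ℝ φ x‖ ^ 2) -
        ∑ j, ∫ x, u n j (‖x - R' j‖ ^ 2) * φ x ^ 2 := fun n =>
      Q_sum (fun j => (hWn n j).locallyIntegrable) hφc hφs R'
    simp_rw [this]
    refine Tendsto.sub tendsto_const_nhds (tendsto_finset_sum _ fun j _ => ?_)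
    set m := sInf (prof (W j) '' Set.Ioi 0) with hm
    refine tendsto_integral_of_dominated_convergence
      (fun x => |W j (x - R' j)| * φ x ^ 2 + |m| * φ x ^ 2) ?_ ?_ ?_ ?_
    · intro n
      have : Continuous (fun x => u n j (‖x - R' j‖ ^ 2) * φ x ^ 2) :=
        ((hWn n j).comp (continuous_id.sub continuous_const)).mul (hφc.pow 2)
      exact this.aestronglyMeasurable
    · refine Integrable.add ?_ ?_
      · have h1 := (pot_int (hW j).li hφc hφs (R' j)).abs
        refine h1.congr (Eventually.of_forall fun x => ?_)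
        simp only
        rw [abs_mul, abs_of_nonneg (sq_nonneg (φ x))]
      · exact ((hφc.pow 2).integrable_of_hasCompactSupport (sq_comp_hcs hφs)).const_mul _
    · intro n
      have : ∀ᵐ x : E3, x ≠ R' j := by
        rw [ae_iff]
        simp
      filter_upwards [this] with x hx
      rw [← add_mul, norm_mul, Real.norm_eq_abs, Real.norm_eq_abs, abs_of_nonneg (sq_nonneg (φ x))]
      refine mul_le_mul_of_nonneg_right ?_ (sq_nonneg _)
      have h1 := hle n j (x - R' j) (sub_ne_zero.2 hx)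
      have h2 := (hu n j).2.1 (‖x - R' j‖ ^ 2)
      have h3 := le_abs_self (W j (x - R' j))
      have h4 := neg_abs_le m
      have h5 := abs_nonneg m
      have h6 := abs_nonneg (W j (x - R' j))
      rw [abs_le]
      constructor <;> linarith
    · have hcount := (hS j).anti.countable_not_continuousWithinAt
      have h0 : ∀ᵐ x : E3, x ≠ R' j := by
        rw [ae_iff]
        simp
      filter_upwards [ae_not_countable hcount (R' j), h0] with x hx hx0
      set σ := ‖x - R' j‖ ^ 2 with hσ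
      have hσ0 : 0 < σ := by
        have : x - R' j ≠ 0 := sub_ne_zero.2 hx0
        positivity
      have hcw : ContinuousAt (prof (W j)) σ := by
        by_contra hcon
        apply hx
        refine ⟨hσ0, fun h => hcon ?_⟩
        exact h.continuousAt (isOpen_Ioi.mem_nhds hσ0)
      refine Tendsto.mul_const _ ?_
      have e1 : W j (x - R' j) = prof (W j) σ := prof_apply (hW j) _
      rw [e1]
      have hsn : Tendsto (fun n : ℕ => 1 / ((n : ℝ) + 1)) atTop (𝓝 0) :=
        tendsto_one_div_add_atTop_nhds_zero_nat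
      refine tendsto_of_tendsto_of_tendsto_of_le_of_le
        (g := fun n : ℕ => prof (W j) (σ + 2 * (1 / ((n : ℝ) + 1))) - 1 / ((n : ℝ) + 1))
        (h := fun _ => prof (W j) σ) ?_ tendsto_const_nhds
        (fun n => (hu n j).2.2.2 σ hσ0) (fun n => (hu n j).2.2.1 σ hσ0)
      have h1 : Tendsto (fun n : ℕ => σ + 2 * (1 / ((n : ℝ) + 1))) atTop (𝓝 σ) := by
        have := (hsn.const_mul 2).const_add σ
        simpa using this
      have h2 := (hcw.tendsto.comp h1).sub hsn
      simpa using h2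
  have hlim2 : Tendsto (fun n => ((Q (fun j x => u n j (‖x‖ ^ 2)) R' φ : ℝ) : EReal)) atTop
      (𝓝 ((Q W R' φ : ℝ) : EReal)) :=
    (continuous_coe_real_ereal.tendsto _).comp hlim
  exact ge_of_tendsto hlim2 (Eventually.of_forall step3)

end Pool.Agent.Y657.EM
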