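import Mathlib

set_option autoImplicit false

open Matrix

namespace Pool.Agent.Y657.EM

variable {n : ℕ}

/-- A weighted graph Laplacian: symmetric, nonpositive off the diagonal, zero row sums. -/
structure Lap (L : Matrix (Fin n) (Fin n) ℝ) : Prop where
  symm : ∀ a b, L a b = L b a
  off : ∀ a b, a ≠ b → L a b ≤ 0
  row : ∀ a, ∑ b, L a b = 0

/-- The quadratic form of a Laplacian is nonnegative. -/
theorem Lap.quad_nonneg {L : Matrix (Fin n) (Fin n) ℝ} (hL : Lap L) (x : Fin n → ℝ) :
    0 ≤ ∑ a, ∑ b, L a b * (x a * x b) := by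
  have h1 : ∑ a, ∑ b, L a b * (x a * x b) = ∑ a, ∑ b, (-L a b) * ((x a - x b) ^ 2 / 2) := by
    have e1 : ∑ a, ∑ b, L a b * (x a ^ 2) = 0 := by
      refine Finset.sum_eq_zero fun a _ => ?_
      rw [← Finset.sum_mul, hL.row a, zero_mul]
    have e2 : ∑ a, ∑ b, L a b * (x b ^ 2) = 0 := by
      rw [Finset.sum_comm]
      refine Finset.sum_eq_zero fun b _ => ?_
      rw [← Finset.sum_mul]
      have : ∑ a, L a b = 0 := by
        rw [← hL.row b]
        exact Finset.sum_congr rfl fun a _ => hL.symm a b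
      rw [this, zero_mul]
    have e3 : ∑ a, ∑ b, (-L a b) * ((x a - x b) ^ 2 / 2)
        = ∑ a, ∑ b, L a b * (x a * x b) - (1 / 2) * ∑ a, ∑ b, L a b * (x a ^ 2)
          - (1 / 2) * ∑ a, ∑ b, L a b * (x b ^ 2) := by
      simp only [Finset.mul_sum, ← Finset.sum_sub_distrib]
      refine Finset.sum_congr rfl fun a _ => Finset.sum_congr rfl fun b _ => ?_
      ring
    rw [e3, e1, e2]
    ring
  rw [h1]
  refine Finset.sum_nonneg fun a _ => Finset.sum_nonneg fun b _ => ?_
  by_cases hab : a = b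
  · subst hab; simp
  · exact mul_nonneg (neg_nonneg.2 (hL.off a b hab)) (by positivity)

theorem Lap.posDef {L : Matrix (Fin n) (Fin n) ℝ} (hL : Lap L) {m : Fin n → ℝ}
    (hm : ∀ a, 0 < m a) : (L + diagonal m).PosDef := by
  refine Matrix.PosDef.of_dotProduct_mulVec_pos ?_ ?_
  · ext a b
    simp only [conjTranspose_apply, star_trivial, Matrix.add_apply, diagonal_apply]
    rw [hL.symm b a]
    by_cases h : a = b
    · subst h; simp
    · simp [h, Ne.symm h]
  · intro x hx
    have h1 : star x ⬝ᵥ ((L + diagonal m) *ᵥ x)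
        = ∑ a, ∑ b, L a b * (x a * x b) + ∑ a, m a * x a ^ 2 := by
      simp only [add_mulVec, dotProduct_add, star_trivial]
      congr 1
      · simp only [dotProduct, mulVec, Finset.mul_sum]
        refine Finset.sum_congr rfl fun a _ => Finset.sum_congr rfl fun b _ => ?_
        ring
      · simp only [dotProduct, mulVec_diagonal]
        refine Finset.sum_congr rfl fun a _ => ?_
        ring
    rw [h1]
    have h2 := hL.quad_nonneg x
    have h3 : 0 < ∑ a, m a * x a ^ 2 := by
      obtain ⟨a, ha⟩ := Function.ne_iff.1 hx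
      refine Finset.sum_pos' (fun b _ => mul_nonneg (hm b).le (sq_nonneg _))
        ⟨a, Finset.mem_univ a, mul_pos (hm a) ?_⟩
      have ha' : x a ≠ 0 := ha
      positivity
    linarith

/-- The discrete maximum principle. -/
theorem Lap.inv_nonneg {L : Matrix (Fin n) (Fin n) ℝ} (hL : Lap L) {m : Fin n → ℝ}
    (hm : ∀ a, 0 < m a) (v : Fin n → ℝ) (hv : ∀ a, 0 ≤ ((L + diagonal m) *ᵥ v) a) (a : Fin n) :
    0 ≤ v a := by
  obtain ⟨c, -, hc⟩ := Finset.exists_min_image Finset.univ v ⟨a, Finset.mem_univ a⟩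
  refine le_trans ?_ (hc a (Finset.mem_univ a))
  by_contra hneg
  push Not at hneg
  have h1 := hv c
  have h2 : ((L + diagonal m) *ᵥ v) c = m c * v c + ∑ b, L c b * (v b - v c) := by
    rw [add_mulVec, Pi.add_apply, mulVec_diagonal]
    simp only [mulVec, dotProduct, mul_sub, Finset.sum_sub_distrib]
    rw [← Finset.sum_mul, hL.row c]
    ring
  have h3 : ∑ b, L c b * (v b - v c) ≤ 0 := by
    refine Finset.sum_nonpos fun b _ => ?_
    by_cases hcb : c = b
    · subst hcb; simp
    · exact mul_nonpos_of_nonpos_of_nonneg (hL.off c b hcb)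
        (sub_nonneg.2 (hc b (Finset.mem_univ b)))
  have h4 : m c * v c < 0 := mul_neg_of_pos_of_neg (hm c) hneg
  rw [h2] at h1
  linarith

theorem Lap.adj_nonneg_of_pos {L : Matrix (Fin n) (Fin n) ℝ} (hL : Lap L) {m : Fin n → ℝ}
    (hm : ∀ a, 0 < m a) (a b : Fin n) : 0 ≤ (L + diagonal m).adjugate a b := by
  set A := L + diagonal m with hA
  have hpd : A.PosDef := hL.posDef hm
  have hdet : 0 < A.det := hpd.det_pos
  have h1 : A *ᵥ (fun c => A.adjugate c b) = fun c => A.det * (if c = b then 1 else 0) := by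
    ext c
    have := congrFun (congrFun (Matrix.mul_adjugate A) c) b
    rw [Matrix.smul_apply, Matrix.one_apply, smul_eq_mul] at this
    rw [← this]
    rfl
  refine hL.inv_nonneg hm (fun c => A.adjugate c b) (fun c => ?_) a
  rw [← hA, h1]
  positivity

theorem continuous_adj (L : Matrix (Fin n) (Fin n) ℝ) (a b : Fin n) :
    Continuous fun m : Fin n → ℝ => (L + diagonal m).adjugate a b := by
  have h : Continuous fun m : Fin n → ℝ => (L + diagonal m) :=
    continuous_const.add (Continuous.matrix_diagonal continuous_id)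
  have h2 := h.matrix_adjugate
  exact h2.matrix_elem a b

theorem continuous_det (L : Matrix (Fin n) (Fin n) ℝ) :
    Continuous fun m : Fin n → ℝ => (L + diagonal m).det := by
  have h : Continuous fun m : Fin n → ℝ => (L + diagonal m) :=
    continuous_const.add (Continuous.matrix_diagonal continuous_id)
  exact h.matrix_det

theorem nonneg_of_pos_of_cont {f : (Fin n → ℝ) → ℝ} (hf : Continuous f)
    (h : ∀ m, (∀ a, 0 < m a) → 0 ≤ f m) (m : Fin n → ℝ) (hm : ∀ a, 0 ≤ m a) : 0 ≤ f m := by
  have h1 : Filter.Tendsto (fun k : ℕ => f (fun a => m a + 1 / ((k : ℝ) + 1))) Filter.atTop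
      (nhds (f m)) := by
    refine (hf.tendsto m).comp ?_
    rw [tendsto_pi_nhds]
    intro a
    have := (tendsto_one_div_add_atTop_nhds_zero_nat (𝕜 := ℝ)).const_add (m a)
    simpa using this
  refine ge_of_tendsto' h1 fun k => h _ fun a => ?_
  have := hm a
  positivity

theorem Lap.adj_nonneg {L : Matrix (Fin n) (Fin n) ℝ} (hL : Lap L) {m : Fin n → ℝ}
    (hm : ∀ a, 0 ≤ m a) (a b : Fin n) : 0 ≤ (L + diagonal m).adjugate a b :=
  nonneg_of_pos_of_cont (continuous_adj L a b) (fun _ h => hL.adj_nonneg_of_pos h a b) m hm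

theorem Lap.det_nonneg {L : Matrix (Fin n) (Fin n) ℝ} (hL : Lap L) {m : Fin n → ℝ}
    (hm : ∀ a, 0 ≤ m a) : 0 ≤ (L + diagonal m).det :=
  nonneg_of_pos_of_cont (continuous_det L) (fun _ h => (hL.posDef h).det_pos.le) m hm

end Pool.Agent.Y657.EM
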