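import Pool.Agent.Y657.EM.Mono

set_option autoImplicit false

open Matrix MeasureTheory MvPolynomial

namespace Pool.Agent.Y657.EM

variable {n : ℕ}

/-- Uniform approximation, with signed derivatives up to order `K`, by exponential sums. -/
def Approx (K : ℕ) (f : ℕ → ℝ → ℝ) : Prop :=
  ∀ η : ℝ, 0 < η → ∃ (s : Finset ℕ) (c : ℕ → ℝ), ∀ j ≤ K, ∀ σ : ℝ, 0 ≤ σ →
    |f j σ - pe s c j σ| ≤ η

theorem approx_common {K : ℕ} (f : Fin n → ℕ → ℝ → ℝ) (hf : ∀ a, Approx K (f a)) (η : ℝ)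
    (hη : 0 < η) : ∃ (s : Finset ℕ) (c : Fin n → ℕ → ℝ), ∀ a, ∀ j ≤ K, ∀ σ : ℝ, 0 ≤ σ →
      |f a j σ - pe s (c a) j σ| ≤ η := by
  classical
  choose s c h using fun a => hf a η hη
  refine ⟨Finset.univ.biUnion s, fun a m => if m ∈ s a then c a m else 0, fun a j hj σ hσ => ?_⟩
  have e : pe (Finset.univ.biUnion s) (fun m => if m ∈ s a then c a m else 0) j σ
      = pe (s a) (c a) j σ := by
    unfold pe
    symm
    have hsub : s a ⊆ Finset.univ.biUnion s := Finset.subset_biUnion_of_mem s (Finset.mem_univ a)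
    rw [← Finset.sum_subset hsub]
    · refine Finset.sum_congr rfl fun m hm => ?_
      beta_reduce
      rw [if_pos hm]
    · intro m _ hm
      beta_reduce
      rw [if_neg hm, zero_mul]
  rw [e]
  exact h a j hj σ hσ

theorem abs_pe_le {K : ℕ} {f : ℕ → ℝ → ℝ} {s : Finset ℕ} {c : ℕ → ℝ} {B η : ℝ} (hη : η ≤ 1)
    (hB : ∀ j ≤ K, ∀ σ : ℝ, 0 ≤ σ → |f j σ| ≤ B)
    (h : ∀ j ≤ K, ∀ σ : ℝ, 0 ≤ σ → |f j σ - pe s c j σ| ≤ η) :
    ∀ j ≤ K, ∀ σ : ℝ, 0 ≤ σ → |pe s c j σ| ≤ B + 1 := by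
  intro j hj σ hσ
  have h1 := hB j hj σ hσ
  have h2 := h j hj σ hσ
  have h3 : |pe s c j σ| ≤ |f j σ| + |f j σ - pe s c j σ| := by
    have := abs_sub_abs_le_abs_sub (pe s c j σ) (f j σ)
    rw [abs_sub_comm] at this
    linarith
  linarith

theorem integrable_Ex {D : ℕ} {L : Matrix (Fin n) (Fin n) ℝ} {κ : Fin n → ℝ} (h : Tied L κ)
    (r : Fin n → Fin D → ℝ) :
    Integrable (fun x : Fin n × Fin D → ℝ => Real.exp (-Ex L κ r x)) :=
  (integral_chain h.lap h.pos r (fun a b => ∑ k, (r a k - r b k) ^ 2) (fun _ _ => rfl)).1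

theorem integral_Ex_le {D : ℕ} {L : Matrix (Fin n) (Fin n) ℝ} {κ : Fin n → ℝ} (h : Tied L κ)
    (r : Fin n → Fin D → ℝ) :
    ∫ x : Fin n × Fin D → ℝ, Real.exp (-Ex L κ r x) ≤
      (√Real.pi) ^ (n * D) * ((√(L + diagonal κ).det)⁻¹) ^ D := by
  rw [(integral_chain h.lap h.pos r (fun a b => ∑ k, (r a k - r b k) ^ 2) (fun _ _ => rfl)).2]
  refine mul_le_of_le_one_right (by positivity) ?_
  rw [Real.exp_le_one_iff, neg_nonpos]
  exact qf_nonneg h.lap h.nonneg h.pos fun a b => Finset.sum_nonneg fun _ _ => sq_nonneg _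

/-- Monotonicity of the chain integrals under expansions realised in dimension
`3 + 2 (k + 1)`, for factors whose signed derivatives up to order `k + 1` are nonnegative. -/
theorem chain_mono {L : Matrix (Fin n) (Fin n) ℝ} {κ : Fin n → ℝ} (h : Tied L κ) (k : ℕ)
    (f : Fin n → ℕ → ℝ → ℝ) (hcont : ∀ a, Continuous (f a 0))
    (hpos : ∀ a, ∀ j ≤ k + 1, ∀ σ : ℝ, 0 ≤ σ → 0 ≤ f a j σ)
    (B : ℝ) (hB : ∀ a, ∀ j ≤ k + 1, ∀ σ : ℝ, 0 ≤ σ → f a j σ ≤ B)
    (happ : ∀ a, Approx (k + 1) (f a))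
    (r r' : Fin n → Fin 3 → ℝ)
    (hle : ∀ a b, ∑ i, (r a i - r b i) ^ 2 ≤ ∑ i, (r' a i - r' b i) ^ 2)
    (hpath : ∀ τ : ℝ, 0 < τ → τ < 1 → ∃ q : Fin n → Fin (3 + 2 * (k + 1)) → ℝ, ∀ a b,
      (1 - τ) * ∑ i, (r a i - r b i) ^ 2 + τ * ∑ i, (r' a i - r' b i) ^ 2
        = ∑ i, (q a i - q b i) ^ 2) :
    ∫ x : Fin n × Fin 3 → ℝ, (∏ a, f a 0 (sq r' x a)) * Real.exp (-Ex L κ r' x) ≤
    ∫ x : Fin n × Fin 3 → ℝ, (∏ a, f a 0 (sq r x a)) * Real.exp (-Ex L κ r x) := by
  classical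
  set Δ : Fin n → Fin n → ℝ := fun a b => ∑ i, (r a i - r b i) ^ 2 with hΔ
  set Δ' : Fin n → Fin n → ℝ := fun a b => ∑ i, (r' a i - r' b i) ^ 2 with hΔ'
  set δ : Fin n → Fin n → ℝ := fun a b => Δ' a b - Δ a b with hδ
  have hδ0 : ∀ a, δ a a = 0 := by intro a; simp [hδ, hΔ, hΔ']
  have hδp : ∀ a b, 0 ≤ δ a b := fun a b => sub_nonneg.2 (hle a b)
  set P := NN L κ δ * TT L κ ^ k with hP
  have hTpow : ∀ j, (∀ α, 0 ≤ coeff α (TT L κ ^ j)) ∧ ∀ a, degreeOf a (TT L κ ^ j) ≤ j := by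
    intro j
    induction j with
    | zero =>
      refine ⟨fun α => ?_, fun a => ?_⟩
      · rw [pow_zero, coeff_one]; split_ifs <;> norm_num
      · rw [pow_zero, degreeOf_one]
    | succ j ih =>
      refine ⟨fun α => ?_, fun a => ?_⟩
      · rw [pow_succ]
        exact coeff_nonneg_mul _ _ ih.1 (coeff_TT h.lap h.nonneg) α
      · rw [pow_succ]
        exact (degreeOf_mul_le a _ _).trans (add_le_add (ih.2 a) (degreeOf_TT L κ a))
  have hPc : ∀ α, 0 ≤ coeff α P := coeff_nonneg_mul _ _ (coeff_NN h.lap h.nonneg hδ0 hδp)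
    (hTpow k).1
  have hPd : ∀ a, degreeOf a P ≤ k + 1 := by
    intro a
    refine (degreeOf_mul_le a _ _).trans ?_
    have h1 := degreeOf_NN h.lap.symm κ δ hδ0 a
    have h2 := (hTpow k).2 a
    omega
  -- bounds
  set B' : ℝ := |B| + 2 with hB'
  have hB'1 : 1 ≤ B' := by have := abs_nonneg B; linarith
  have hfB : ∀ a, ∀ j ≤ k + 1, ∀ σ : ℝ, 0 ≤ σ → |f a j σ| ≤ |B| + 1 := by
    intro a j hj σ hσ
    rw [abs_of_nonneg (hpos a j hj σ hσ)]
    have := hB a j hj σ hσ
    have := le_abs_self B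
    linarith
  obtain ⟨K1, hK1, hK1'⟩ := SS_close hPd B' hB'1
  set D := 3 + 2 * (k + 1) with hD
  set ZD : ℝ := (√Real.pi) ^ (n * D) * ((√(L + diagonal κ).det)⁻¹) ^ D with hZD
  set Z3 : ℝ := (√Real.pi) ^ (n * 3) * ((√(L + diagonal κ).det)⁻¹) ^ 3 with hZ3
  have hZD0 : 0 ≤ ZD := by positivity
  have hZ30 : 0 ≤ Z3 := by positivity
  set C1 : ℝ := (1 / 2) * ((√Real.pi) ^ (n * D))⁻¹ * (K1 * ZD) with hC1
  set K0 : ℝ := n * B' ^ n with hK0
  have hK00 : 0 ≤ K0 := by positivity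
  -- main estimate
  have main : ∀ η : ℝ, 0 < η → η ≤ 1 →
      (∫ x : Fin n × Fin 3 → ℝ, (∏ a, f a 0 (sq r' x a)) * Real.exp (-Ex L κ r' x)) -
      ∫ x : Fin n × Fin 3 → ℝ, (∏ a, f a 0 (sq r x a)) * Real.exp (-Ex L κ r x) ≤
      ((√Real.pi) ^ (n * 3) * C1 + 2 * (K0 * Z3)) * η := by
    intro η hη hη1
    obtain ⟨s, c, hsc⟩ := approx_common f happ η hη
    have hpeB : ∀ a, ∀ j ≤ k + 1, ∀ σ : ℝ, 0 ≤ σ → |pe s (c a) j σ| ≤ B' := by
      intro a j hj σ hσ
      have := abs_pe_le hη1 (hfB a) (hsc a) j hj σ hσ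
      linarith
    have hfB' : ∀ a, ∀ j ≤ k + 1, ∀ σ : ℝ, 0 ≤ σ → |f a j σ| ≤ B' := by
      intro a j hj σ hσ
      have := hfB a j hj σ hσ
      linarith
    -- derivative bound
    have hder : ∀ τ : ℝ, 0 < τ → τ < 1 → ∃ g : ℝ,
        HasDerivAt (fun τ => GG L κ s c (fun a b => Δ a b + τ * δ a b)) g τ ∧ g ≤ C1 * η := by
      intro τ h0 h1
      obtain ⟨q, hq⟩ := hpath τ h0 h1
      have hq' : ∀ a b, Δ a b + τ * δ a b = ∑ k, (q a k - q b k) ^ 2 := by
        intro a b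
        rw [← hq a b]
        simp only [hδ, hΔ, hΔ']
        ring
      refine ⟨_, GG_deriv h k s c Δ δ τ q hq', ?_⟩
      have hi := (integral_SS_pe h P s c q _ hq').1
      have hlow : -(K1 * η) * ∫ x : Fin n × Fin D → ℝ, Real.exp (-Ex L κ q x) ≤
          ∫ x : Fin n × Fin D → ℝ,
            SS P (fun a j => pe s (c a) j (sq q x a)) * Real.exp (-Ex L κ q x) := by
        rw [← integral_const_mul]
        refine integral_mono ((integrable_Ex h q).const_mul _) hi fun x => ?_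
        refine mul_le_mul_of_nonneg_right ?_ (Real.exp_pos _).le
        have h2 := hK1' η hη.le (fun a j => f a j (sq q x a))
          (fun a j => pe s (c a) j (sq q x a))
          (fun a j hj => hfB' a j hj _ (sq_nonneg' q x a))
          (fun a j hj => hpeB a j hj _ (sq_nonneg' q x a))
          (fun a j hj => hsc a j hj _ (sq_nonneg' q x a))
        have h3 : 0 ≤ SS P (fun a j => f a j (sq q x a)) :=
          SS_nonneg hPc hPd fun a j hj => hpos a j hj _ (sq_nonneg' q x a)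
        have h4 := (abs_le.1 h2).2
        linarith
      have hZ := integral_Ex_le h q
      have hZ0 : 0 ≤ ∫ x : Fin n × Fin D → ℝ, Real.exp (-Ex L κ q x) :=
        integral_nonneg fun x => (Real.exp_pos _).le
      have h5 : -(K1 * η * ZD) ≤ ∫ x : Fin n × Fin D → ℝ,
            SS P (fun a j => pe s (c a) j (sq q x a)) * Real.exp (-Ex L κ q x) := by
        refine le_trans ?_ hlow
        have : K1 * η * ∫ x : Fin n × Fin D → ℝ, Real.exp (-Ex L κ q x) ≤ K1 * η * ZD :=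
          mul_le_mul_of_nonneg_left hZ (by positivity)
        linarith
      have hpi : 0 < ((√Real.pi) ^ (n * D))⁻¹ :=
        inv_pos.2 (pow_pos (Real.sqrt_pos.2 Real.pi_pos) _)
      have h6 : (1 / 2) * ((√Real.pi) ^ (n * D))⁻¹ * (-(K1 * η * ZD)) ≤
          (1 / 2) * ((√Real.pi) ^ (n * D))⁻¹ * ∫ x : Fin n × Fin D → ℝ,
            SS P (fun a j => pe s (c a) j (sq q x a)) * Real.exp (-Ex L κ q x) :=
        mul_le_mul_of_nonneg_left h5 (by positivity)
      rw [hC1]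
      linarith
    have hcG : Continuous (fun τ : ℝ => GG L κ s c (fun a b => Δ a b + τ * δ a b)) := by
      unfold GG qf
      fun_prop
    have hG : GG L κ s c Δ' - GG L κ s c Δ ≤ C1 * η := by
      have h1 := (convex_Icc (0 : ℝ) 1).image_sub_le_mul_sub_of_deriv_le
        (f := fun τ : ℝ => GG L κ s c (fun a b => Δ a b + τ * δ a b)) (C := C1 * η)
        hcG.continuousOn
        (by
          rw [interior_Icc]
          intro τ hτ
          obtain ⟨g, hg, -⟩ := hder τ hτ.1 hτ.2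
          exact hg.differentiableAt.differentiableWithinAt)
        (by
          rw [interior_Icc]
          intro τ hτ
          obtain ⟨g, hg, hg'⟩ := hder τ hτ.1 hτ.2
          rw [hg.deriv]
          exact hg')
        0 (by simp) 1 (by simp) zero_le_one
      have e1 : (fun a b => Δ a b + 1 * δ a b) = Δ' := by
        ext a b; simp [hδ]
      have e0 : (fun a b => Δ a b + 0 * δ a b) = Δ := by
        ext a b; simp
      simp only [e1, e0, sub_zero, mul_one] at h1
      exact h1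
    -- comparison of integrals
    have hcmp : ∀ (q : Fin n → Fin 3 → ℝ) (Δq : Fin n → Fin n → ℝ)
        (_ : ∀ a b, Δq a b = ∑ i, (q a i - q b i) ^ 2),
        |(∫ x : Fin n × Fin 3 → ℝ, (∏ a, f a 0 (sq q x a)) * Real.exp (-Ex L κ q x)) -
          (√Real.pi) ^ (n * 3) * GG L κ s c Δq| ≤ K0 * Z3 * η := by
      intro q Δq hq
      rw [← GG_eq h s c q Δq hq]
      have hI := integrable_Ex h q
      have i1 : Integrable (fun x : Fin n × Fin 3 → ℝ =>
          (∏ a, f a 0 (sq q x a)) * Real.exp (-Ex L κ q x)) := by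
        refine hI.bdd_mul (c := (|B| + 1) ^ n) ?_ ?_
        · exact (continuous_finsetProd _ fun a _ =>
            (hcont a).comp (continuous_sq q a)).aestronglyMeasurable
        · refine Filter.Eventually.of_forall fun x => ?_
          rw [Real.norm_eq_abs, Finset.abs_prod]
          refine (Finset.prod_le_prod (fun _ _ => abs_nonneg _)
            (fun a _ => hfB a 0 (Nat.zero_le _) _ (sq_nonneg' q x a))).trans ?_
          simp
      have i2 : Integrable (fun x : Fin n × Fin 3 → ℝ =>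
          (∏ a, pe s (c a) 0 (sq q x a)) * Real.exp (-Ex L κ q x)) := by
        refine hI.bdd_mul (c := B' ^ n) ?_ ?_
        · exact (continuous_finsetProd _ fun a _ =>
            (continuous_pe s (c a) 0).comp (continuous_sq q a)).aestronglyMeasurable
        · refine Filter.Eventually.of_forall fun x => ?_
          rw [Real.norm_eq_abs, Finset.abs_prod]
          refine (Finset.prod_le_prod (fun _ _ => abs_nonneg _)
            (fun a _ => hpeB a 0 (Nat.zero_le _) _ (sq_nonneg' q x a))).trans ?_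
          simp
      rw [← integral_sub i1 i2]
      refine (abs_integral_le_integral_abs).trans ?_
      have h1 : ∀ x : Fin n × Fin 3 → ℝ,
          |(∏ a, f a 0 (sq q x a)) * Real.exp (-Ex L κ q x) -
            (∏ a, pe s (c a) 0 (sq q x a)) * Real.exp (-Ex L κ q x)| ≤
          K0 * η * Real.exp (-Ex L κ q x) := by
        intro x
        rw [← sub_mul, abs_mul, abs_of_pos (Real.exp_pos _)]
        refine mul_le_mul_of_nonneg_right ?_ (Real.exp_pos _).le
        have := abs_prod_sub_prod_le Finset.univ (fun a => f a 0 (sq q x a))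
          (fun a => pe s (c a) 0 (sq q x a)) B' η hB'1 hη.le
          (fun a _ => hfB' a 0 (Nat.zero_le _) _ (sq_nonneg' q x a))
          (fun a _ => hpeB a 0 (Nat.zero_le _) _ (sq_nonneg' q x a))
          (fun a _ => hsc a 0 (Nat.zero_le _) _ (sq_nonneg' q x a))
        simpa [hK0] using this
      refine (integral_mono (i1.sub i2).abs (hI.const_mul (K0 * η)) h1).trans ?_
      rw [integral_const_mul]
      have := mul_le_mul_of_nonneg_left (integral_Ex_le h q) (by positivity : 0 ≤ K0 * η)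
      linarith
    have c1 := (abs_le.1 (hcmp r Δ fun _ _ => rfl)).1
    have c2 := (abs_le.1 (hcmp r' Δ' fun _ _ => rfl)).2
    have hpi3 : 0 ≤ (√Real.pi) ^ (n * 3) := by positivity
    have c3 := mul_le_mul_of_nonneg_left hG hpi3
    linarith
  -- let `η → 0`
  by_contra hcon
  push Not at hcon
  set X := (∫ x : Fin n × Fin 3 → ℝ, (∏ a, f a 0 (sq r' x a)) * Real.exp (-Ex L κ r' x)) -
      ∫ x : Fin n × Fin 3 → ℝ, (∏ a, f a 0 (sq r x a)) * Real.exp (-Ex L κ r x) with hX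
  have hX0 : 0 < X := sub_pos.2 hcon
  set C := (√Real.pi) ^ (n * 3) * C1 + 2 * (K0 * Z3) with hC
  have hC0 : 0 ≤ C := by positivity
  have h1 := main (min 1 (X / (2 * (C + 1)))) (by positivity) (min_le_left _ _)
  have h2 : C * min 1 (X / (2 * (C + 1))) ≤ C * (X / (2 * (C + 1))) :=
    mul_le_mul_of_nonneg_left (min_le_right _ _) hC0
  have h3 : C * (X / (2 * (C + 1))) < X := by
    rw [mul_div_assoc', div_lt_iff₀ (by positivity)]
    nlinarith
  linarith

end Pool.Agent.Y657.EM
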