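import Pool.Agent.Y657.EM.En

set_option autoImplicit false

open MeasureTheory Filter
open scoped Topology

namespace Pool.Agent.Y657.EM

/-- Nonincreasing profiles on the half line, convex if `1 ≤ k`. -/
structure Shape (k : ℕ) (v : ℝ → ℝ) : Prop where
  anti : AntitoneOn v (Set.Ioi 0)
  conv : 1 ≤ k → ConvexOn ℝ (Set.Ioi 0) v

/-- the truncated profile, extended to the line -/
noncomputable def trunc (v : ℝ → ℝ) (m s σ : ℝ) : ℝ := max (v (max σ (s / 2)) - s) m

theorem trunc_anti {k : ℕ} {v : ℝ → ℝ} (hv : Shape k v) (m : ℝ) {s : ℝ} (hs : 0 < s) :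
    Antitone (trunc v m s) := by
  intro a b hab
  unfold trunc
  have hs2 : 0 < s / 2 := by positivity
  refine max_le_max (sub_le_sub_right (hv.anti ?_ ?_ (max_le_max hab le_rfl)) _) le_rfl
  · exact lt_of_lt_of_le hs2 (le_max_right _ _)
  · exact lt_of_lt_of_le hs2 (le_max_right _ _)

/-- the mollifier -/
noncomputable def rho (s : ℝ) (hs : 0 < s) : ContDiffBump (-(3 * s / 2) : ℝ) where
  rIn := s / 4
  rOut := s / 2
  rIn_pos := by positivity
  rIn_lt_rOut := by linarith

/-- the mollified profile -/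
noncomputable def moll (v : ℝ → ℝ) (m s : ℝ) (hs : 0 < s) : ℝ → ℝ :=
  convolution ((rho s hs).normed volume) (trunc v m s) (ContinuousLinearMap.lsmul ℝ ℝ) volume

theorem moll_apply (v : ℝ → ℝ) (m s : ℝ) (hs : 0 < s) (σ : ℝ) :
    moll v m s hs σ = ∫ t, (rho s hs).normed volume t * trunc v m s (σ - t) := rfl

theorem moll_int {k : ℕ} {v : ℝ → ℝ} (hv : Shape k v) (m : ℝ) {s : ℝ} (hs : 0 < s) (σ : ℝ) :
    Integrable (fun t => (rho s hs).normed volume t * trunc v m s (σ - t)) := by
  have hm : Monotone (fun t => trunc v m s (σ - t)) :=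
    fun a b hab => trunc_anti hv m hs (by linarith)
  exact hm.locallyIntegrable.integrable_smul_left_of_hasCompactSupport
    ((rho s hs).continuous_normed) ((rho s hs).hasCompactSupport_normed)

theorem rho_zero {s : ℝ} (hs : 0 < s) {t : ℝ} (ht : ¬ (t ∈ Set.Ioo (-(2 * s)) (-s))) :
    (rho s hs).normed volume t = 0 := by
  by_contra h
  have : t ∈ Function.support ((rho s hs).normed volume) := h
  rw [(rho s hs).support_normed_eq] at this
  apply ht
  rw [Metric.mem_ball, Real.dist_eq, abs_lt] at this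
  change _ < _ ∧ _ < s / 2 at this
  obtain ⟨h1, h2⟩ := this
  have h3 : -(s / 2) < t - -(3 * s / 2) := h1
  constructor <;> linarith

theorem moll_le {k : ℕ} {v : ℝ → ℝ} (hv : Shape k v) (m : ℝ) {s : ℝ} (hs : 0 < s) {σ c : ℝ}
    (hc : ∀ t, σ + s < t → t < σ + 2 * s → trunc v m s t ≤ c) : moll v m s hs σ ≤ c := by
  rw [moll_apply]
  have h1 : ∫ t, (rho s hs).normed volume t * c = c := by
    rw [integral_mul_const, (rho s hs).integral_normed, one_mul]
  rw [← h1]
  refine integral_mono (moll_int hv m hs σ) ((rho s hs).integrable_normed.mul_const c) fun t => ?_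
  by_cases ht : t ∈ Set.Ioo (-(2 * s)) (-s)
  · exact mul_le_mul_of_nonneg_left (hc _ (by linarith [ht.2]) (by linarith [ht.1]))
      ((rho s hs).nonneg_normed t)
  · simp only [rho_zero hs ht, zero_mul, le_refl]

theorem le_moll {k : ℕ} {v : ℝ → ℝ} (hv : Shape k v) (m : ℝ) {s : ℝ} (hs : 0 < s) {σ c : ℝ}
    (hc : ∀ t, σ + s < t → t < σ + 2 * s → c ≤ trunc v m s t) : c ≤ moll v m s hs σ := by
  rw [moll_apply]
  have h1 : ∫ t, (rho s hs).normed volume t * c = c := by
    rw [integral_mul_const, (rho s hs).integral_normed, one_mul]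
  rw [← h1]
  refine integral_mono ((rho s hs).integrable_normed.mul_const c) (moll_int hv m hs σ) fun t => ?_
  by_cases ht : t ∈ Set.Ioo (-(2 * s)) (-s)
  · exact mul_le_mul_of_nonneg_left (hc _ (by linarith [ht.2]) (by linarith [ht.1]))
      ((rho s hs).nonneg_normed t)
  · simp only [rho_zero hs ht, zero_mul, le_refl]

theorem moll_anti {k : ℕ} {v : ℝ → ℝ} (hv : Shape k v) (m : ℝ) {s : ℝ} (hs : 0 < s) :
    Antitone (moll v m s hs) := by
  intro a b hab
  rw [moll_apply, moll_apply]
  refine integral_mono (moll_int hv m hs b) (moll_int hv m hs a) fun t => ?_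
  exact mul_le_mul_of_nonneg_left (trunc_anti hv m hs (by linarith))
    ((rho s hs).nonneg_normed t)

theorem moll_smooth {k : ℕ} {v : ℝ → ℝ} (hv : Shape k v) (m : ℝ) {s : ℝ} (hs : 0 < s) :
    ContDiff ℝ 2 (moll v m s hs) :=
  (rho s hs).hasCompactSupport_normed.contDiff_convolution_left _
    ((rho s hs).contDiff_normed (n := 2)) (trunc_anti hv m hs).locallyIntegrable

theorem moll_conv {v : ℝ → ℝ} (hv : Shape 1 v) (m : ℝ) {s : ℝ} (hs : 0 < s) :
    ConvexOn ℝ (Set.Ioi (-(s / 2))) (moll v m s hs) := by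
  refine ⟨convex_Ioi _, fun x hx y hy a b ha hb hab => ?_⟩
  have hx' : -(s / 2) < x := hx
  have hy' : -(s / 2) < y := hy
  simp only [smul_eq_mul]
  rw [moll_apply, moll_apply, moll_apply, ← integral_const_mul, ← integral_const_mul,
    ← integral_add ((moll_int hv m hs x).const_mul a) ((moll_int hv m hs y).const_mul b)]
  refine integral_mono (moll_int hv m hs _) (((moll_int hv m hs x).const_mul a).add
    ((moll_int hv m hs y).const_mul b)) fun t => ?_
  by_cases ht : t ∈ Set.Ioo (-(2 * s)) (-s)
  · have hρ := (rho s hs).nonneg_normed (μ := volume) t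
    set p := x - t with hp
    set q := y - t with hq
    have hp1 : s / 2 < p := by rw [hp]; linarith [ht.2]
    have hq1 : s / 2 < q := by rw [hq]; linarith [ht.2]
    have e1 : a * x + b * y - t = a * p + b * q := by
      have : t = (a + b) * t := by rw [hab, one_mul]
      rw [hp, hq]
      nlinarith
    have hpq : s / 2 < a * p + b * q := by
      have h1 : s / 2 = a * (s / 2) + b * (s / 2) := by rw [← add_mul, hab, one_mul]
      rcases ha.lt_or_eq with h | h
      · have := mul_lt_mul_of_pos_left hp1 h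
        have := mul_le_mul_of_nonneg_left hq1.le hb
        linarith
      · have hb1 : b = 1 := by linarith
        rw [← h, hb1]
        linarith
    have key : trunc v m s (a * p + b * q) ≤ a * trunc v m s p + b * trunc v m s q := by
      unfold trunc
      rw [max_eq_left hp1.le, max_eq_left hq1.le, max_eq_left hpq.le]
      have hs2 : 0 < s / 2 := by positivity
      have hcv := (hv.conv le_rfl).2 (x := p) (y := q) (hs2.trans hp1) (hs2.trans hq1) ha hb hab
      simp only [smul_eq_mul] at hcv
      refine max_le ?_ ?_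
      · have h1 := mul_le_mul_of_nonneg_left (le_max_left (v p - s) m) ha
        have h2 := mul_le_mul_of_nonneg_left (le_max_left (v q - s) m) hb
        have h3 : s = a * s + b * s := by rw [← add_mul, hab, one_mul]
        linarith
      · have h1 := mul_le_mul_of_nonneg_left (le_max_right (v p - s) m) ha
        have h2 := mul_le_mul_of_nonneg_left (le_max_right (v q - s) m) hb
        have h3 : m = a * m + b * m := by rw [← add_mul, hab, one_mul]
        linarith
    rw [e1]
    have := mul_le_mul_of_nonneg_left key hρ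
    linarith
  · simp only [rho_zero hs ht, zero_mul, mul_zero, add_zero, le_refl]

theorem moll_pot {k : ℕ} (hk : k ≤ 1) {v : ℝ → ℝ} (hv : Shape k v) {m : ℝ} {s : ℝ} (hs : 0 < s)
    (hm : ∃ S, 0 < S ∧ v S < m + s) : Pot k (moll v m s hs) where
  smooth := moll_smooth hv m hs
  const := by
    obtain ⟨S, hS, hSm⟩ := hm
    refine ⟨S, m, fun σ hσ => ?_⟩
    have hc : ∀ t, σ + s < t → t < σ + 2 * s → trunc v m s t = m := by
      intro t ht _
      unfold trunc
      have h1 : S ≤ max t (s / 2) := le_max_of_le_left (by linarith)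
      have h2 := hv.anti (a := S) (b := max t (s / 2)) hS (hS.trans_le h1) h1
      exact max_eq_right (by linarith)
    exact le_antisymm (moll_le hv m hs fun t h1 h2 => (hc t h1 h2).le)
      (le_moll hv m hs fun t h1 h2 => (hc t h1 h2).ge)
  nonneg := by
    intro j hj1 hj2 σ hσ
    have hj : j = 1 ∨ j = 2 := by omega
    rcases hj with rfl | rfl
    · change 0 ≤ -deriv (moll v m s hs) σ
      have := (moll_anti hv m hs).deriv_nonpos (x := σ)
      linarith
    · have hk1 : k = 1 := by omega
      subst hk1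
      change 0 ≤ deriv (deriv (moll v m s hs)) σ
      have hcv := moll_conv hv m hs
      have hd : Differentiable ℝ (moll v m s hs) :=
        (moll_smooth hv m hs).differentiable (by norm_num)
      have hmono : MonotoneOn (deriv (moll v m s hs)) (Set.Ioi (-(s / 2))) :=
        hcv.monotoneOn_deriv fun x _ => hd x
      have h1 := hmono.derivWithin_nonneg (x := σ)
      have hmem : σ ∈ Set.Ioi (-(s / 2)) := by
        change -(s / 2) < σ
        linarith
      rwa [derivWithin_of_mem_nhds (isOpen_Ioi.mem_nhds hmem)] at h1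

/-- Approximation from below. -/
theorem exists_moll {k : ℕ} (hk : k ≤ 1) {v : ℝ → ℝ} (hv : Shape k v)
    (hbdd : BddBelow (v '' Set.Ioi 0)) {s : ℝ} (hs : 0 < s) :
    ∃ u, Pot k u ∧ (∀ σ, sInf (v '' Set.Ioi 0) ≤ u σ) ∧ (∀ σ, 0 < σ → u σ ≤ v σ) ∧
      ∀ σ, 0 < σ → v (σ + 2 * s) - s ≤ u σ := by
  set m := sInf (v '' Set.Ioi 0) with hmdef
  have hne : (v '' Set.Ioi 0).Nonempty := ⟨v 1, 1, show (0 : ℝ) < 1 from one_pos, rfl⟩
  have hm : ∃ S, 0 < S ∧ v S < m + s := by
    obtain ⟨y, ⟨S, hS, rfl⟩, hy⟩ := exists_lt_of_csInf_lt hne (show m < m + s by linarith)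
    exact ⟨S, hS, hy⟩
  refine ⟨moll v m s hs, moll_pot hk hv hs hm, ?_, ?_, ?_⟩
  · intro σ
    exact le_moll hv m hs fun t _ _ => le_max_right _ _
  · intro σ hσ
    refine moll_le hv m hs fun t h1 h2 => ?_
    unfold trunc
    have h3 : max t (s / 2) = t := max_eq_left (by linarith)
    rw [h3]
    refine max_le ?_ (csInf_le hbdd ⟨σ, hσ, rfl⟩)
    have := hv.anti (a := σ) (b := t) hσ (show 0 < t by linarith) (by linarith)
    linarith
  · intro σ hσ
    refine le_moll hv m hs fun t h1 h2 => ?_
    unfold trunc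
    have h3 : max t (s / 2) = t := max_eq_left (by linarith)
    rw [h3]
    refine le_max_of_le_left ?_
    have := hv.anti (a := t) (b := σ + 2 * s) (show 0 < t by linarith)
      (show 0 < σ + 2 * s by linarith) h2.le
    linarith

end Pool.Agent.Y657.EM
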