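import Pool.Agent.Y657.EM.Poly
import Pool.Agent.Y657.EM.Gauss

set_option autoImplicit false

open Matrix MeasureTheory MvPolynomial

namespace Pool.Agent.Y657.EM

variable {n : ℕ}

/-- Laplacian with ties `κ` that make it definite. -/
structure Tied (L : Matrix (Fin n) (Fin n) ℝ) (κ : Fin n → ℝ) : Prop where
  lap : Lap L
  nonneg : ∀ a, 0 ≤ κ a
  pos : (L + diagonal κ).PosDef

theorem Tied.add {L : Matrix (Fin n) (Fin n) ℝ} {κ : Fin n → ℝ} (h : Tied L κ) (m : Fin n → ℝ)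
    (hm : ∀ a, 0 ≤ m a) : (L + diagonal (fun a => κ a + m a)).PosDef := by
  have e : L + diagonal (fun a => κ a + m a) = (L + diagonal κ) + diagonal m := by
    rw [add_assoc, diagonal_add]
  rw [e]
  exact h.pos.add_posSemidef (PosSemidef.diagonal hm)

theorem inv_eq_adj (A : Matrix (Fin n) (Fin n) ℝ) (a b : Fin n) :
    A⁻¹ a b = A.adjugate a b / A.det := by
  rw [Matrix.inv_def, Matrix.smul_apply, Ring.inverse_eq_inv', smul_eq_mul]
  ring

theorem qf_nonneg {L : Matrix (Fin n) (Fin n) ℝ} (hL : Lap L) {t : Fin n → ℝ}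
    (ht : ∀ a, 0 ≤ t a) (hA : (L + diagonal t).PosDef) {Δ : Fin n → Fin n → ℝ}
    (hΔ : ∀ a b, 0 ≤ Δ a b) : 0 ≤ qf L t Δ := by
  unfold qf
  refine mul_nonneg (by norm_num) (Finset.sum_nonneg fun a _ => Finset.sum_nonneg fun b _ => ?_)
  rw [inv_eq_adj]
  have h1 := hL.adj_nonneg ht a b
  have h2 := hA.det_pos
  have h3 := ht a
  have h4 := ht b
  have h5 := hΔ a b
  positivity

theorem qf_affine (L : Matrix (Fin n) (Fin n) ℝ) (t : Fin n → ℝ) (Δ δ : Fin n → Fin n → ℝ)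
    (τ : ℝ) : qf L t (fun a b => Δ a b + τ * δ a b) = qf L t Δ + τ * qf L t δ := by
  unfold qf
  simp only [Finset.mul_sum, ← Finset.sum_add_distrib]
  refine Finset.sum_congr rfl fun a _ => Finset.sum_congr rfl fun b _ => ?_
  ring

theorem qf_eq_NN {L : Matrix (Fin n) (Fin n) ℝ} {κ m : Fin n → ℝ}
    (δ : Fin n → Fin n → ℝ) :
    qf L (fun a => κ a + m a) δ = (1 / 2) * (eval m (NN L κ δ) / eval m (TT L κ)) := by
  unfold qf
  rw [eval_NN, eval_TT, Finset.sum_div]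
  congr 1
  refine Finset.sum_congr rfl fun a _ => ?_
  rw [Finset.sum_div]
  refine Finset.sum_congr rfl fun b _ => ?_
  rw [inv_eq_adj]
  ring

/-- squared distances from the centres -/
def sq {D : ℕ} (r : Fin n → Fin D → ℝ) (x : Fin n × Fin D → ℝ) (a : Fin n) : ℝ :=
  ∑ k, (x (a, k) - r a k) ^ 2

theorem sq_nonneg' {D : ℕ} (r : Fin n → Fin D → ℝ) (x : Fin n × Fin D → ℝ) (a : Fin n) :
    0 ≤ sq r x a := Finset.sum_nonneg fun _ _ => sq_nonneg _

theorem continuous_sq {D : ℕ} (r : Fin n → Fin D → ℝ) (a : Fin n) :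
    Continuous fun x : Fin n × Fin D → ℝ => sq r x a := by
  unfold sq; fun_prop

theorem continuous_Ex {D : ℕ} (L : Matrix (Fin n) (Fin n) ℝ) (t : Fin n → ℝ)
    (r : Fin n → Fin D → ℝ) : Continuous fun x : Fin n × Fin D → ℝ => Ex L t r x := by
  unfold Ex; fun_prop

theorem Ex_add {D : ℕ} (L : Matrix (Fin n) (Fin n) ℝ) (κ : Fin n → ℝ) (m : Fin n → ℕ)
    (r : Fin n → Fin D → ℝ) (x : Fin n × Fin D → ℝ) :
    Real.exp (-Ex L (fun a => κ a + m a) r x) =
      (∏ a, Real.exp (-sq r x a) ^ (m a)) * Real.exp (-Ex L κ r x) := by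
  have h : Ex L (fun a => κ a + m a) r x = ∑ a, (m a : ℝ) * sq r x a + Ex L κ r x := by
    unfold Ex sq
    simp only [add_mul, Finset.sum_add_distrib]
    ring
  rw [h, neg_add, Real.exp_add, ← Finset.sum_neg_distrib, Real.exp_sum]
  congr 1
  refine Finset.prod_congr rfl fun a _ => ?_
  rw [← Real.exp_nat_mul]
  congr 1
  ring

/-- The value of an exponential sum under `ψ a j ↦ Σ c m m^j y^m`. -/
noncomputable def pe (s : Finset ℕ) (c : ℕ → ℝ) (j : ℕ) (σ : ℝ) : ℝ :=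
  ∑ m ∈ s, c m * ((m : ℝ) ^ j * Real.exp (-σ) ^ m)

theorem continuous_pe (s : Finset ℕ) (c : ℕ → ℝ) (j : ℕ) : Continuous (pe s c j) := by
  unfold pe; fun_prop

theorem SS_pe {D : ℕ} (L : Matrix (Fin n) (Fin n) ℝ) (κ : Fin n → ℝ)
    (P : MvPolynomial (Fin n) ℝ) (s : Finset ℕ) (c : Fin n → ℕ → ℝ)
    (r : Fin n → Fin D → ℝ) (x : Fin n × Fin D → ℝ) :
    SS P (fun a j => pe s (c a) j (sq r x a)) * Real.exp (-Ex L κ r x) =
      ∑ m ∈ Fintype.piFinset (fun _ : Fin n => s), (∏ a, c a (m a)) *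
        (eval (fun a => (m a : ℝ)) P * Real.exp (-Ex L (fun a => κ a + m a) r x)) := by
  rw [SS_eval P s c (fun a => Real.exp (-sq r x a)) (fun a j => pe s (c a) j (sq r x a))
    (fun a j => rfl), Finset.sum_mul]
  refine Finset.sum_congr rfl fun m _ => ?_
  rw [Ex_add]
  ring

theorem integral_SS_pe {D : ℕ} {L : Matrix (Fin n) (Fin n) ℝ} {κ : Fin n → ℝ} (h : Tied L κ)
    (P : MvPolynomial (Fin n) ℝ) (s : Finset ℕ) (c : Fin n → ℕ → ℝ)
    (r : Fin n → Fin D → ℝ) (Δ : Fin n → Fin n → ℝ)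
    (hΔ : ∀ a b, Δ a b = ∑ k, (r a k - r b k) ^ 2) :
    Integrable (fun x : Fin n × Fin D → ℝ =>
      SS P (fun a j => pe s (c a) j (sq r x a)) * Real.exp (-Ex L κ r x)) ∧
    ∫ x : Fin n × Fin D → ℝ, SS P (fun a j => pe s (c a) j (sq r x a)) * Real.exp (-Ex L κ r x)
      = (√Real.pi) ^ (n * D) * ∑ m ∈ Fintype.piFinset (fun _ : Fin n => s), (∏ a, c a (m a)) *
        (eval (fun a => (m a : ℝ)) P *
          (((√(L + diagonal (fun a => κ a + (m a : ℝ))).det)⁻¹) ^ D *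
            Real.exp (-qf L (fun a => κ a + (m a : ℝ)) Δ))) := by
  have hpd : ∀ m : Fin n → ℕ, (L + diagonal (fun a => κ a + (m a : ℝ))).PosDef := fun m =>
    h.add _ fun a => Nat.cast_nonneg _
  simp only [SS_pe]
  have hi : ∀ m ∈ Fintype.piFinset (fun _ : Fin n => s),
      Integrable (fun x : Fin n × Fin D → ℝ => (∏ a, c a (m a)) *
        (eval (fun a => (m a : ℝ)) P * Real.exp (-Ex L (fun a => κ a + m a) r x))) := by
    intro m _
    exact (((integral_chain h.lap (hpd m) r Δ hΔ).1).const_mul _).const_mul _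
  refine ⟨integrable_finsetSum _ hi, ?_⟩
  rw [integral_finsetSum _ hi, Finset.mul_sum]
  refine Finset.sum_congr rfl fun m _ => ?_
  rw [integral_const_mul, integral_const_mul, (integral_chain h.lap (hpd m) r Δ hΔ).2]
  ring

/-- The three dimensional value as a function of the squared distances. -/
noncomputable def GG (L : Matrix (Fin n) (Fin n) ℝ) (κ : Fin n → ℝ) (s : Finset ℕ)
    (c : Fin n → ℕ → ℝ) (Δ : Fin n → Fin n → ℝ) : ℝ :=
  ∑ m ∈ Fintype.piFinset (fun _ : Fin n => s), (∏ a, c a (m a)) *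
    (((√(L + diagonal (fun a => κ a + (m a : ℝ))).det)⁻¹) ^ 3 *
            Real.exp (-qf L (fun a => κ a + (m a : ℝ)) Δ))

theorem GG_eq {L : Matrix (Fin n) (Fin n) ℝ} {κ : Fin n → ℝ} (h : Tied L κ)
    (s : Finset ℕ) (c : Fin n → ℕ → ℝ) (r : Fin n → Fin 3 → ℝ) (Δ : Fin n → Fin n → ℝ)
    (hΔ : ∀ a b, Δ a b = ∑ k, (r a k - r b k) ^ 2) :
    ∫ x : Fin n × Fin 3 → ℝ, (∏ a, pe s (c a) 0 (sq r x a)) * Real.exp (-Ex L κ r x)
      = (√Real.pi) ^ (n * 3) * GG L κ s c Δ := by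
  have := (integral_SS_pe h 1 s c r Δ hΔ).2
  simp only [SS_one, map_one, one_mul] at this
  exact this

theorem GG_deriv {L : Matrix (Fin n) (Fin n) ℝ} {κ : Fin n → ℝ} (h : Tied L κ) (k : ℕ)
    (s : Finset ℕ) (c : Fin n → ℕ → ℝ) (Δ δ : Fin n → Fin n → ℝ) (τ : ℝ)
    (r : Fin n → Fin (3 + 2 * (k + 1)) → ℝ)
    (hr : ∀ a b, Δ a b + τ * δ a b = ∑ k, (r a k - r b k) ^ 2) :
    HasDerivAt (fun τ => GG L κ s c (fun a b => Δ a b + τ * δ a b))
      (-(1 / 2) * ((√Real.pi) ^ (n * (3 + 2 * (k + 1))))⁻¹ *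
        ∫ x : Fin n × Fin (3 + 2 * (k + 1)) → ℝ,
          SS (NN L κ δ * TT L κ ^ k) (fun a j => pe s (c a) j (sq r x a)) *
            Real.exp (-Ex L κ r x)) τ := by
  have hpd : ∀ m : Fin n → ℕ, (L + diagonal (fun a => κ a + (m a : ℝ))).PosDef := fun m =>
    h.add _ fun a => Nat.cast_nonneg _
  have hd : ∀ m : Fin n → ℕ, HasDerivAt
      (fun τ : ℝ => (∏ a, c a (m a)) *
        (((√(L + diagonal (fun a => κ a + (m a : ℝ))).det)⁻¹) ^ 3 *
            Real.exp (-qf L (fun a => κ a + (m a : ℝ)) (fun a b => Δ a b + τ * δ a b))))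
      ((∏ a, c a (m a)) *
        (((√(L + diagonal (fun a => κ a + (m a : ℝ))).det)⁻¹) ^ 3 *
            (Real.exp (-qf L (fun a => κ a + (m a : ℝ)) (fun a b => Δ a b + τ * δ a b)) *
              (-qf L (fun a => κ a + (m a : ℝ)) δ)))) τ := by
    intro m
    refine HasDerivAt.const_mul _ (HasDerivAt.const_mul _ ?_)
    refine HasDerivAt.exp ?_
    simp only [qf_affine]
    have h1 : HasDerivAt (fun τ : ℝ => qf L (fun a => κ a + (m a : ℝ)) Δ
        + τ * qf L (fun a => κ a + (m a : ℝ)) δ) (qf L (fun a => κ a + (m a : ℝ)) δ) τ := by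
      have := ((hasDerivAt_id τ).mul_const (qf L (fun a => κ a + (m a : ℝ)) δ)).const_add
        (qf L (fun a => κ a + (m a : ℝ)) Δ)
      simpa using this
    exact h1.neg
  have hsum := HasDerivAt.fun_sum (u := Fintype.piFinset (fun _ : Fin n => s))
    (fun m _ => hd m)
  unfold GG
  refine hsum.congr_deriv ?_
  rw [(integral_SS_pe h _ s c r (fun a b => Δ a b + τ * δ a b) hr).2]
  have hpi : (√Real.pi) ^ (n * (3 + 2 * (k + 1))) ≠ 0 :=
    (pow_pos (Real.sqrt_pos.2 Real.pi_pos) _).ne'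
  rw [mul_assoc, inv_mul_cancel_left₀ hpi, Finset.mul_sum]
  refine Finset.sum_congr rfl fun m _ => ?_
  rw [qf_eq_NN δ, map_mul, map_pow]
  have hT : eval (fun a => (m a : ℝ)) (TT L κ) =
      (L + diagonal (fun a => κ a + (m a : ℝ))).det := eval_TT _ _ _
  rw [hT]
  have hdet := (hpd m).det_pos
  set d := (L + diagonal (fun a => κ a + (m a : ℝ))).det with hd'
  have hsq : √d ^ 2 = d := Real.sq_sqrt hdet.le
  have hs0 : √d ≠ 0 := (Real.sqrt_pos.2 hdet).ne'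
  have e1 : ((√d)⁻¹) ^ (3 + 2 * (k + 1)) = ((√d)⁻¹) ^ 3 * (d⁻¹) ^ (k + 1) := by
    rw [pow_add, pow_mul]
    congr 2
    rw [inv_pow, hsq]
  rw [e1]
  have e2 : d ^ k * (d⁻¹) ^ (k + 1) = d⁻¹ := by
    rw [pow_succ, ← mul_assoc, ← mul_pow, mul_inv_cancel₀ hdet.ne', one_pow, one_mul]
  have e3 : (∏ a, c a (m a)) * (((√d)⁻¹ ^ 3) *
      (Real.exp (-qf L (fun a => κ a + (m a : ℝ)) (fun a b => Δ a b + τ * δ a b)) *
        -(1 / 2 * (eval (fun a => (m a : ℝ)) (NN L κ δ) / d))))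
      = -(1 / 2) * ((∏ a, c a (m a)) * (eval (fun a => (m a : ℝ)) (NN L κ δ) * (d⁻¹) *
          ((√d)⁻¹ ^ 3 * Real.exp (-qf L (fun a => κ a + (m a : ℝ))
            (fun a b => Δ a b + τ * δ a b))))) := by
    rw [div_eq_mul_inv]
    ring
  have e4 : ∀ N w x : ℝ, N * d ^ k * (w * (d⁻¹) ^ (k + 1) * x) = N * d⁻¹ * (w * x) := by
    intro N w x
    calc N * d ^ k * (w * (d⁻¹) ^ (k + 1) * x) = N * (d ^ k * (d⁻¹) ^ (k + 1)) * (w * x) := by
          ring
      _ = N * d⁻¹ * (w * x) := by rw [e2]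
  rw [e3, e4]

end Pool.Agent.Y657.EM
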