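import Pool.Agent.Y657.EM.MMat

set_option autoImplicit false

open Matrix MvPolynomial

namespace Pool.Agent.Y657.EM

variable {n : ℕ}

/-- `L + diag (κ + X)` over polynomials. -/
noncomputable def AX (L : Matrix (Fin n) (Fin n) ℝ) (κ : Fin n → ℝ) :
    Matrix (Fin n) (Fin n) (MvPolynomial (Fin n) ℝ) :=
  L.map (C : ℝ → MvPolynomial (Fin n) ℝ) + diagonal (fun a => C (κ a) + X a)

noncomputable def TT (L : Matrix (Fin n) (Fin n) ℝ) (κ : Fin n → ℝ) : MvPolynomial (Fin n) ℝ :=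
  (AX L κ).det

noncomputable def NN (L : Matrix (Fin n) (Fin n) ℝ) (κ : Fin n → ℝ) (δ : Fin n → Fin n → ℝ) :
    MvPolynomial (Fin n) ℝ :=
  ∑ a, ∑ b, C (δ a b) * (((C (κ a) + X a) * (C (κ b) + X b)) * (AX L κ).adjugate a b)

theorem AX_map (L : Matrix (Fin n) (Fin n) ℝ) (κ m : Fin n → ℝ) :
    (eval m).mapMatrix (AX L κ) = L + diagonal (fun a => κ a + m a) := by
  ext i j
  simp only [AX, RingHom.mapMatrix_apply, Matrix.map_apply, Matrix.add_apply, map_add, eval_C]
  by_cases h : i = j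
  · subst h; simp
  · simp [h]

theorem eval_TT (L : Matrix (Fin n) (Fin n) ℝ) (κ m : Fin n → ℝ) :
    eval m (TT L κ) = (L + diagonal (fun a => κ a + m a)).det := by
  rw [TT, RingHom.map_det, AX_map]

theorem eval_adj (L : Matrix (Fin n) (Fin n) ℝ) (κ m : Fin n → ℝ) (a b : Fin n) :
    eval m ((AX L κ).adjugate a b) = (L + diagonal (fun a => κ a + m a)).adjugate a b := by
  rw [← AX_map, ← RingHom.map_adjugate]
  rfl

theorem eval_NN (L : Matrix (Fin n) (Fin n) ℝ) (κ : Fin n → ℝ) (δ : Fin n → Fin n → ℝ)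
    (m : Fin n → ℝ) :
    eval m (NN L κ δ) = ∑ a, ∑ b, δ a b * (((κ a + m a) * (κ b + m b)) *
      (L + diagonal (fun a => κ a + m a)).adjugate a b) := by
  simp only [NN, map_sum, map_mul, map_add, eval_C, eval_X, eval_adj]

theorem degreeOf_det_le {c : Fin n} (M : Matrix (Fin n) (Fin n) (MvPolynomial (Fin n) ℝ))
    (d : Fin n → ℕ) (h : ∀ i j, degreeOf c (M i j) ≤ d j) :
    degreeOf c M.det ≤ ∑ j, d j := by
  rw [Matrix.det_apply']
  refine (degreeOf_sum_le c _ _).trans (Finset.sup_le fun σ _ => ?_)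
  refine (degreeOf_mul_le c _ _).trans ?_
  have h1 : degreeOf c (((Equiv.Perm.sign σ : ℤ) : MvPolynomial (Fin n) ℝ)) = 0 := by
    have : (((Equiv.Perm.sign σ : ℤ) : MvPolynomial (Fin n) ℝ)) = C (((Equiv.Perm.sign σ : ℤ) : ℝ)) := by
      simp
    rw [this, degreeOf_C]
  rw [h1, zero_add]
  exact (degreeOf_prod_le c _ _).trans (Finset.sum_le_sum fun j _ => h _ _)

theorem degreeOf_AX (L : Matrix (Fin n) (Fin n) ℝ) (κ : Fin n → ℝ) (c i j : Fin n) :
    degreeOf c (AX L κ i j) ≤ if i = c ∧ j = c then 1 else 0 := by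
  unfold AX
  rw [Matrix.add_apply, Matrix.map_apply]
  refine (degreeOf_add_le c _ _).trans ?_
  rw [degreeOf_C]
  by_cases hij : i = j
  · subst hij
    rw [diagonal_apply_eq]
    refine max_le (Nat.zero_le _) ((degreeOf_add_le c _ _).trans ?_)
    rw [degreeOf_C, degreeOf_X]
    by_cases h : c = i
    · subst h; simp
    · simp [h]
  · rw [diagonal_apply_ne _ hij, degreeOf_zero]
    simp

theorem degreeOf_TT (L : Matrix (Fin n) (Fin n) ℝ) (κ : Fin n → ℝ) (c : Fin n) :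
    degreeOf c (TT L κ) ≤ 1 := by
  have h := degreeOf_det_le (c := c) (AX L κ) (fun j => if j = c then 1 else 0) (fun i j => by
    refine (degreeOf_AX L κ c i j).trans ?_
    by_cases h1 : j = c
    · by_cases h2 : i = c <;> simp [h1, h2]
    · simp [h1])
  unfold TT
  simpa using h

theorem degreeOf_adj_le (L : Matrix (Fin n) (Fin n) ℝ) (κ : Fin n → ℝ) (c a b : Fin n) :
    degreeOf c ((AX L κ).adjugate a b) ≤ 1 := by
  rw [Matrix.adjugate_apply]
  have h := degreeOf_det_le (c := c) ((AX L κ).updateRow b (Pi.single a 1))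
    (fun j => if j = c then 1 else 0) (fun i j => by
    by_cases hi : i = b
    · subst hi
      rw [updateRow_self]
      by_cases hj : j = a
      · subst hj
        rw [Pi.single_eq_same, degreeOf_one]; simp
      · rw [Pi.single_eq_of_ne hj, degreeOf_zero]; simp
    · rw [updateRow_ne hi]
      refine (degreeOf_AX L κ c i j).trans ?_
      by_cases h1 : j = c
      · by_cases h2 : i = c <;> simp [h1, h2]
      · simp [h1])
  simpa using h

theorem degreeOf_adj_right (L : Matrix (Fin n) (Fin n) ℝ) (κ : Fin n → ℝ) (a b : Fin n) :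
    degreeOf b ((AX L κ).adjugate a b) = 0 := by
  rw [Matrix.adjugate_apply]
  have h := degreeOf_det_le (c := b) ((AX L κ).updateRow b (Pi.single a 1))
    (fun _ => 0) (fun i j => by
    by_cases hi : i = b
    · subst hi
      rw [updateRow_self]
      by_cases hj : j = a
      · subst hj
        rw [Pi.single_eq_same, degreeOf_one]
      · rw [Pi.single_eq_of_ne hj, degreeOf_zero]
    · rw [updateRow_ne hi]
      refine (degreeOf_AX L κ b i j).trans ?_
      simp [hi])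
  simpa using h

theorem adj_symm {L : Matrix (Fin n) (Fin n) ℝ} (hL : ∀ a b, L a b = L b a) (κ : Fin n → ℝ)
    (a b : Fin n) : (AX L κ).adjugate a b = (AX L κ).adjugate b a := by
  have h : (AX L κ)ᵀ = AX L κ := by
    ext1 i j
    simp only [AX, Matrix.transpose_apply, Matrix.add_apply, Matrix.map_apply]
    rw [hL j i]
    by_cases h : i = j
    · subst h; rfl
    · rw [diagonal_apply_ne _ h, diagonal_apply_ne _ (Ne.symm h)]
  have h2 := Matrix.adjugate_transpose (AX L κ)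
  rw [h] at h2
  have := congrFun (congrFun h2 a) b
  rw [Matrix.transpose_apply] at this
  exact this.symm

theorem degreeOf_NN {L : Matrix (Fin n) (Fin n) ℝ} (hL : ∀ a b, L a b = L b a) (κ : Fin n → ℝ)
    (δ : Fin n → Fin n → ℝ) (hδ : ∀ a, δ a a = 0) (c : Fin n) :
    degreeOf c (NN L κ δ) ≤ 1 := by
  unfold NN
  refine (degreeOf_sum_le c _ _).trans (Finset.sup_le fun a _ => ?_)
  refine (degreeOf_sum_le c _ _).trans (Finset.sup_le fun b _ => ?_)
  by_cases hab : a = b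
  · subst hab
    rw [hδ, C_0, zero_mul, degreeOf_zero]
    exact Nat.zero_le _
  refine (degreeOf_C_mul_le _ _ _).trans ?_
  refine (degreeOf_mul_le _ _ _).trans ?_
  have hX : ∀ i : Fin n, degreeOf c (C (κ i) + X i : MvPolynomial (Fin n) ℝ)
      ≤ if c = i then 1 else 0 := by
    intro i
    refine (degreeOf_add_le c _ _).trans ?_
    rw [degreeOf_C, degreeOf_X]
    simp
  have h1 := degreeOf_mul_le c (C (κ a) + X a : MvPolynomial (Fin n) ℝ) (C (κ b) + X b)
  have h2 := hX a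
  have h3 := hX b
  have h4 := degreeOf_adj_le L κ c a b
  by_cases hca : c = a
  · subst hca
    have h5 : degreeOf c ((AX L κ).adjugate c b) = 0 := by
      rw [adj_symm hL]; exact degreeOf_adj_right L κ b c
    simp only [if_true, hab, if_false] at h2 h3
    omega
  · by_cases hcb : c = b
    · subst hcb
      have h5 := degreeOf_adj_right L κ a c
      simp only [if_true, hca, if_false] at h2 h3
      omega
    · simp only [hca, hcb, if_false] at h2 h3
      omega

/-- A multiaffine polynomial that is nonnegative on the orthant has nonnegative coefficients. -/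
theorem coeff_nonneg_of_multiaffine (p : MvPolynomial (Fin n) ℝ) (hdeg : ∀ a, degreeOf a p ≤ 1)
    (hp : ∀ m : Fin n → ℝ, (∀ a, 0 ≤ m a) → 0 ≤ eval m p) (α : Fin n →₀ ℕ) : 0 ≤ coeff α p := by
  classical
  by_cases hα : α ∈ p.support
  swap
  · rw [notMem_support_iff.1 hα]
  have hle : ∀ β ∈ p.support, ∀ a, β a ≤ 1 := fun β hβ a =>
    (monomial_le_degreeOf a hβ).trans (hdeg a)
  have hα1 := hle α hα
  have key : Filter.Tendsto (fun M : ℝ => ∑ β ∈ p.support, coeff β p *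
      ∏ a, ((M * α a) ^ (β a) / M ^ (α a))) Filter.atTop
      (nhds (∑ β ∈ p.support, coeff β p * ∏ a, (if α a = β a then (1 : ℝ) else 0))) := by
    refine tendsto_finsetSum _ fun β hβ => ?_
    refine Filter.Tendsto.const_mul _ ?_
    refine tendsto_finsetProd _ fun a _ => ?_
    have h1 := hα1 a
    have h2 := hle β hβ a
    have h0 : ∀ᶠ M : ℝ in Filter.atTop, M ≠ 0 := Filter.eventually_ne_atTop 0
    interval_cases hx : α a <;> interval_cases hy : β a
    · simp
    · simp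
    · simp only [Nat.cast_one, mul_one, pow_zero, pow_one, one_ne_zero, if_false]
      exact tendsto_const_nhds.div_atTop Filter.tendsto_id
    · simp only [Nat.cast_one, mul_one, pow_one, if_true]
      refine tendsto_const_nhds.congr' ?_
      filter_upwards [h0] with M hM
      rw [div_self hM]
  have hlim : (∑ β ∈ p.support, coeff β p * ∏ a, (if α a = β a then (1 : ℝ) else 0))
      = coeff α p := by
    rw [Finset.sum_eq_single α]
    · simp
    · intro β _ hne
      have : ∃ a, α a ≠ β a := by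
        by_contra hcon
        push Not at hcon
        exact hne (Finsupp.ext fun a => (hcon a).symm)
      obtain ⟨a, ha⟩ := this
      rw [Finset.prod_eq_zero (Finset.mem_univ a) (by rw [if_neg ha]), mul_zero]
    · intro h; exact absurd hα h
  rw [hlim] at key
  refine ge_of_tendsto key ?_
  filter_upwards [Filter.eventually_gt_atTop (0 : ℝ)] with M hM
  have h1 : ∑ β ∈ p.support, coeff β p * ∏ a, ((M * α a) ^ (β a) / M ^ (α a))
      = eval (fun a => M * α a) p / ∏ a, M ^ (α a) := by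
    rw [eval_eq', Finset.sum_div]
    refine Finset.sum_congr rfl fun β _ => ?_
    rw [Finset.prod_div_distrib, mul_div_assoc]
  rw [h1]
  refine div_nonneg (hp _ fun a => by positivity) (by positivity)

theorem coeff_nonneg_mul (p q : MvPolynomial (Fin n) ℝ) (hp : ∀ α, 0 ≤ coeff α p)
    (hq : ∀ α, 0 ≤ coeff α q) (α : Fin n →₀ ℕ) : 0 ≤ coeff α (p * q) := by
  classical
  rw [coeff_mul]
  exact Finset.sum_nonneg fun x _ => mul_nonneg (hp _) (hq _)

theorem coeff_TT {L : Matrix (Fin n) (Fin n) ℝ} (hL : Lap L) {κ : Fin n → ℝ}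
    (hκ : ∀ a, 0 ≤ κ a) (α : Fin n →₀ ℕ) : 0 ≤ coeff α (TT L κ) := by
  refine coeff_nonneg_of_multiaffine _ (degreeOf_TT L κ) (fun m hm => ?_) α
  rw [eval_TT]
  exact hL.det_nonneg fun a => add_nonneg (hκ a) (hm a)

theorem coeff_NN {L : Matrix (Fin n) (Fin n) ℝ} (hL : Lap L) {κ : Fin n → ℝ}
    (hκ : ∀ a, 0 ≤ κ a) {δ : Fin n → Fin n → ℝ} (hδ0 : ∀ a, δ a a = 0) (hδ : ∀ a b, 0 ≤ δ a b)
    (α : Fin n →₀ ℕ) : 0 ≤ coeff α (NN L κ δ) := by
  refine coeff_nonneg_of_multiaffine _ (degreeOf_NN hL.symm κ δ hδ0) (fun m hm => ?_) α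
  rw [eval_NN]
  refine Finset.sum_nonneg fun a _ => Finset.sum_nonneg fun b _ => ?_
  have h1 := hL.adj_nonneg (m := fun a => κ a + m a) (fun a => add_nonneg (hκ a) (hm a)) a b
  have ha := add_nonneg (hκ a) (hm a)
  have hb := add_nonneg (hκ b) (hm b)
  have := hδ a b
  positivity

/-- Apply a polynomial to a product function: `X a ^ j` acts on the `a`-th factor by `ψ a j`. -/
noncomputable def SS (P : MvPolynomial (Fin n) ℝ) (ψ : Fin n → ℕ → ℝ) : ℝ :=
  ∑ α ∈ P.support, coeff α P * ∏ a, ψ a (α a)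

theorem SS_nonneg {P : MvPolynomial (Fin n) ℝ} (hP : ∀ α, 0 ≤ coeff α P) {k : ℕ}
    (hdeg : ∀ a, degreeOf a P ≤ k) {ψ : Fin n → ℕ → ℝ} (hψ : ∀ a, ∀ j ≤ k, 0 ≤ ψ a j) :
    0 ≤ SS P ψ :=
  Finset.sum_nonneg fun α hα => mul_nonneg (hP α) (Finset.prod_nonneg fun a _ =>
    hψ a _ ((monomial_le_degreeOf a hα).trans (hdeg a)))

theorem SS_one (ψ : Fin n → ℕ → ℝ) : SS 1 ψ = ∏ a, ψ a 0 := by
  classical
  unfold SS
  rw [MvPolynomial.support_one]
  simp

theorem SS_eval (P : MvPolynomial (Fin n) ℝ) (s : Finset ℕ) (c : Fin n → ℕ → ℝ)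
    (y : Fin n → ℝ) (ψ : Fin n → ℕ → ℝ)
    (hψ : ∀ a j, ψ a j = ∑ m ∈ s, c a m * ((m : ℝ) ^ j * y a ^ m)) :
    SS P ψ = ∑ m ∈ Fintype.piFinset (fun _ : Fin n => s),
      (∏ a, c a (m a)) * (eval (fun a => (m a : ℝ)) P * ∏ a, y a ^ (m a)) := by
  unfold SS
  simp only [hψ]
  have h1 : ∀ α : Fin n →₀ ℕ, ∏ a, ∑ m ∈ s, c a m * ((m : ℝ) ^ (α a) * y a ^ m)
      = ∑ m ∈ Fintype.piFinset (fun _ : Fin n => s),
        ∏ a, c a (m a) * (((m a : ℕ) : ℝ) ^ (α a) * y a ^ (m a)) := by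
    intro α
    rw [Finset.prod_univ_sum]
  simp only [h1, Finset.mul_sum]
  rw [Finset.sum_comm]
  refine Finset.sum_congr rfl fun m _ => ?_
  rw [eval_eq', Finset.sum_mul, Finset.mul_sum]
  refine Finset.sum_congr rfl fun α _ => ?_
  simp only [Finset.prod_mul_distrib]
  ring

theorem abs_prod_sub_prod_le {ι : Type*} (s : Finset ι) (x y : ι → ℝ) (B η : ℝ) (hB : 1 ≤ B)
    (hη : 0 ≤ η) (hx : ∀ i ∈ s, |x i| ≤ B) (hy : ∀ i ∈ s, |y i| ≤ B)
    (hxy : ∀ i ∈ s, |x i - y i| ≤ η) :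
    |∏ i ∈ s, x i - ∏ i ∈ s, y i| ≤ s.card * B ^ s.card * η := by
  classical
  induction s using Finset.induction_on with
  | empty => simp
  | insert i s hi ih =>
    have ih' := ih (fun j hj => hx j (Finset.mem_insert_of_mem hj))
      (fun j hj => hy j (Finset.mem_insert_of_mem hj))
      (fun j hj => hxy j (Finset.mem_insert_of_mem hj))
    rw [Finset.prod_insert hi, Finset.prod_insert hi, Finset.card_insert_of_notMem hi]
    have hB0 : 0 ≤ B := by linarith
    have e : x i * ∏ j ∈ s, x j - y i * ∏ j ∈ s, y j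
        = (x i - y i) * ∏ j ∈ s, x j + y i * (∏ j ∈ s, x j - ∏ j ∈ s, y j) := by ring
    have h1 : |∏ j ∈ s, x j| ≤ B ^ s.card := by
      rw [Finset.abs_prod]
      refine (Finset.prod_le_prod (fun _ _ => abs_nonneg _)
        (fun j hj => hx j (Finset.mem_insert_of_mem hj))).trans ?_
      rw [Finset.prod_const]
    rw [e]
    refine (abs_add_le _ _).trans ?_
    rw [abs_mul, abs_mul]
    have h2 := mul_le_mul (hxy i (Finset.mem_insert_self _ _)) h1 (abs_nonneg _) hη
    have h3 := mul_le_mul (hy i (Finset.mem_insert_self _ _)) ih' (abs_nonneg _) hB0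
    have h4 : η * B ^ s.card ≤ η * B ^ (s.card + 1) :=
      mul_le_mul_of_nonneg_left (pow_le_pow_right₀ hB (Nat.le_succ _)) hη
    push_cast
    calc |x i - y i| * |∏ j ∈ s, x j| + |y i| * |∏ j ∈ s, x j - ∏ j ∈ s, y j|
        ≤ η * B ^ s.card + B * (s.card * B ^ s.card * η) := add_le_add h2 h3
      _ ≤ η * B ^ (s.card + 1) + B * (s.card * B ^ s.card * η) := by linarith
      _ = ((s.card : ℝ) + 1) * B ^ (s.card + 1) * η := by ring

theorem SS_close {P : MvPolynomial (Fin n) ℝ} {k : ℕ} (hdeg : ∀ a, degreeOf a P ≤ k)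
    (B : ℝ) (hB : 1 ≤ B) :
    ∃ K : ℝ, 0 ≤ K ∧ ∀ (η : ℝ), 0 ≤ η → ∀ ψ ψ' : Fin n → ℕ → ℝ,
      (∀ a, ∀ j ≤ k, |ψ a j| ≤ B) → (∀ a, ∀ j ≤ k, |ψ' a j| ≤ B) →
      (∀ a, ∀ j ≤ k, |ψ a j - ψ' a j| ≤ η) → |SS P ψ - SS P ψ'| ≤ K * η := by
  refine ⟨∑ α ∈ P.support, |coeff α P| * (n * B ^ n), by positivity, ?_⟩
  intro η hη ψ ψ' h1 h2 h3
  unfold SS
  rw [← Finset.sum_sub_distrib, Finset.sum_mul]
  refine (Finset.abs_sum_le_sum_abs _ _).trans (Finset.sum_le_sum fun α hα => ?_)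
  rw [← mul_sub, abs_mul, mul_assoc]
  refine mul_le_mul_of_nonneg_left ?_ (abs_nonneg _)
  have hk : ∀ a, α a ≤ k := fun a => (monomial_le_degreeOf a hα).trans (hdeg a)
  have := abs_prod_sub_prod_le Finset.univ (fun a => ψ a (α a)) (fun a => ψ' a (α a)) B η hB hη
    (fun a _ => h1 a _ (hk a)) (fun a _ => h2 a _ (hk a)) (fun a _ => h3 a _ (hk a))
  simpa using this

theorem SS_bound {P : MvPolynomial (Fin n) ℝ} {k : ℕ} (hdeg : ∀ a, degreeOf a P ≤ k)
    (B : ℝ) (hB : 1 ≤ B) :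
    ∃ K : ℝ, 0 ≤ K ∧ ∀ ψ : Fin n → ℕ → ℝ, (∀ a, ∀ j ≤ k, |ψ a j| ≤ B) → |SS P ψ| ≤ K := by
  refine ⟨∑ α ∈ P.support, |coeff α P| * B ^ n, by positivity, ?_⟩
  intro ψ h1
  unfold SS
  refine (Finset.abs_sum_le_sum_abs _ _).trans (Finset.sum_le_sum fun α hα => ?_)
  rw [abs_mul]
  refine mul_le_mul_of_nonneg_left ?_ (abs_nonneg _)
  have hk : ∀ a, α a ≤ k := fun a => (monomial_le_degreeOf a hα).trans (hdeg a)
  rw [Finset.abs_prod]
  refine (Finset.prod_le_prod (fun _ _ => abs_nonneg _) (fun a _ => h1 a _ (hk a))).trans ?_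
  simp

end Pool.Agent.Y657.EM
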