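import Pool.Agent.Y657.EM.Lower

set_option autoImplicit false

open MeasureTheory Filter
open scoped Topology

namespace Pool.Agent.Y657.EM

open Pool.Agent.Helper985.Pol (Adm Q en Rad)

theorem dual_id (A B : E3 →L[ℝ] ℝ) (c s p : ℝ) (h : c ^ 2 + s ^ 2 = 1) :
    ‖c • A + p • ((-s) • B)‖ ^ 2 + ‖s • A + p • (c • B)‖ ^ 2 = ‖A‖ ^ 2 + p ^ 2 * ‖B‖ ^ 2 := by
  set D := (InnerProductSpace.toDual ℝ E3).symm with hD
  have hn : ∀ X : E3 →L[ℝ] ℝ, ‖X‖ = ‖D X‖ := fun X => (LinearIsometryEquiv.norm_map _ X).symm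
  have e1 : D (c • A + p • ((-s) • B)) = c • D A + (-(p * s)) • D B := by
    rw [map_add, map_smulₛₗ, map_smulₛₗ, map_smulₛₗ, smul_smul]
    simp
  have e2 : D (s • A + p • (c • B)) = s • D A + (p * c) • D B := by
    rw [map_add, map_smulₛₗ, map_smulₛₗ, map_smulₛₗ, smul_smul]
    simp
  rw [hn, hn (s • A + p • (c • B)), hn A, hn B, e1, e2]
  rw [norm_add_sq_real, norm_add_sq_real]
  simp only [norm_smul, real_inner_smul_left, real_inner_smul_right, Real.norm_eq_abs, mul_pow,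
    sq_abs]
  have hs : s ^ 2 = 1 - c ^ 2 := by linarith
  have : (-(p * s)) ^ 2 = p ^ 2 * s ^ 2 := by ring
  rw [this, hs]
  ring

theorem cos_sin_grad {θ φ : E3 → ℝ} (hθ : ContDiff ℝ 1 θ) (hφ : ContDiff ℝ 1 φ) (x : E3) :
    ‖fderiv ℝ (fun y => Real.cos (θ y) * φ y) x‖ ^ 2 +
      ‖fderiv ℝ (fun y => Real.sin (θ y) * φ y) x‖ ^ 2 =
    ‖fderiv ℝ φ x‖ ^ 2 + φ x ^ 2 * ‖fderiv ℝ θ x‖ ^ 2 := by
  have d1 : HasFDerivAt θ (fderiv ℝ θ x) x := (hθ.differentiable (by norm_num) x).hasFDerivAt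
  have d2 : HasFDerivAt φ (fderiv ℝ φ x) x := (hφ.differentiable (by norm_num) x).hasFDerivAt
  have c1 := (d1.cos.mul d2).fderiv
  have c2 := (d1.sin.mul d2).fderiv
  have c1' : fderiv ℝ (fun y => Real.cos (θ y) * φ y) x =
      Real.cos (θ x) • fderiv ℝ φ x + φ x • (-Real.sin (θ x)) • fderiv ℝ θ x := c1
  have c2' : fderiv ℝ (fun y => Real.sin (θ y) * φ y) x =
      Real.sin (θ x) • fderiv ℝ φ x + φ x • Real.cos (θ x) • fderiv ℝ θ x := c2
  rw [c1', c2']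
  exact dual_id _ _ _ _ _ (Real.cos_sq_add_sin_sq _)

/-- the localising angle -/
theorem exists_angle (r ε : ℝ) (hε : 0 < ε) : ∃ ρ, r ≤ ρ ∧ 1 ≤ ρ ∧ ∃ θ : E3 → ℝ, ContDiff ℝ 1 θ ∧
    (∀ x, ‖x‖ ≤ ρ → θ x = 0) ∧ (∀ x, 2 * ρ ≤ ‖x‖ → θ x = Real.pi / 2) ∧
    ∀ x, ‖fderiv ℝ θ x‖ ^ 2 ≤ ε := by
  let b : ContDiffBump (0 : E3) := ⟨1, 2, one_pos, by norm_num⟩
  have hb : ContDiff ℝ 1 b := b.contDiff
  have hbc : HasCompactSupport (fderiv ℝ b) := b.hasCompactSupport.fderiv (𝕜 := ℝ)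
  have hcont : Continuous (fderiv ℝ b) := hb.continuous_fderiv (by norm_num)
  obtain ⟨C, hC⟩ := hbc.exists_bound_of_continuous hcont
  have hC0 : 0 ≤ C := (norm_nonneg _).trans (hC 0)
  set T : ℝ := Real.pi / 2 * C with hT
  have hT0 : 0 ≤ T := by positivity
  set ρ : ℝ := max (max r 1) (T / Real.sqrt ε) with hρ
  have hρ1 : 1 ≤ ρ := (le_max_right r 1).trans (le_max_left _ _)
  have hρ0 : 0 < ρ := by linarith
  refine ⟨ρ, (le_max_left r 1).trans (le_max_left _ _), hρ1,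
    fun x => Real.pi / 2 * (1 - b (ρ⁻¹ • x)), ?_, ?_, ?_, ?_⟩
  · have h1 : ContDiff ℝ 1 (fun x : E3 => ρ⁻¹ • x) := contDiff_const_smul _
    exact contDiff_const.mul (contDiff_const.sub (hb.comp h1))
  · intro x hx
    have : b (ρ⁻¹ • x) = 1 := by
      apply b.one_of_mem_closedBall
      rw [mem_closedBall_zero_iff, norm_smul, Real.norm_eq_abs, abs_of_pos (inv_pos.2 hρ0)]
      change ρ⁻¹ * ‖x‖ ≤ 1
      rw [inv_mul_le_iff₀ hρ0]
      linarith
    change Real.pi / 2 * (1 - b (ρ⁻¹ • x)) = 0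
    rw [this]; simp
  · intro x hx
    have : b (ρ⁻¹ • x) = 0 := by
      apply b.zero_of_le_dist
      rw [dist_zero_right, norm_smul, Real.norm_eq_abs, abs_of_pos (inv_pos.2 hρ0)]
      change 2 ≤ ρ⁻¹ * ‖x‖
      rw [le_inv_mul_iff₀ hρ0]
      linarith
    change Real.pi / 2 * (1 - b (ρ⁻¹ • x)) = Real.pi / 2
    rw [this]; simp
  · intro x
    have hd : HasFDerivAt (fun x : E3 => Real.pi / 2 * (1 - b (ρ⁻¹ • x)))
        ((Real.pi / 2) • (-((fderiv ℝ b (ρ⁻¹ • x)).comp (ρ⁻¹ • ContinuousLinearMap.id ℝ E3)))) x := by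
      have h1 : HasFDerivAt (fun x : E3 => ρ⁻¹ • x) (ρ⁻¹ • ContinuousLinearMap.id ℝ E3) x :=
        (hasFDerivAt_id x).const_smul ρ⁻¹
      have h2 : HasFDerivAt b (fderiv ℝ b (ρ⁻¹ • x)) (ρ⁻¹ • x) :=
        (hb.differentiable (by norm_num) _).hasFDerivAt
      exact ((h2.comp x h1).const_sub 1).const_mul (Real.pi / 2)
    rw [hd.fderiv, norm_smul, norm_neg]
    have hn : ‖(fderiv ℝ b (ρ⁻¹ • x)).comp (ρ⁻¹ • ContinuousLinearMap.id ℝ E3)‖ ≤ C * ρ⁻¹ := by
      refine (ContinuousLinearMap.opNorm_comp_le _ _).trans ?_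
      refine mul_le_mul (hC _) ?_ (norm_nonneg _) hC0
      rw [norm_smul, Real.norm_eq_abs, abs_of_pos (inv_pos.2 hρ0)]
      exact mul_le_of_le_one_right (inv_pos.2 hρ0).le ContinuousLinearMap.norm_id_le
    have h3 : ‖(Real.pi / 2 : ℝ)‖ * ‖(fderiv ℝ b (ρ⁻¹ • x)).comp
        (ρ⁻¹ • ContinuousLinearMap.id ℝ E3)‖ ≤ Real.sqrt ε := by
      rw [Real.norm_eq_abs, abs_of_pos (by positivity)]
      calc Real.pi / 2 * _ ≤ Real.pi / 2 * (C * ρ⁻¹) :=
            mul_le_mul_of_nonneg_left hn (by positivity)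
        _ = T / ρ := by rw [hT]; ring
        _ ≤ Real.sqrt ε := by
          have hse : 0 < Real.sqrt ε := Real.sqrt_pos.2 hε
          rw [div_le_iff₀ hρ0]
          have : T / Real.sqrt ε ≤ ρ := le_max_right _ _
          rw [div_le_iff₀ hse] at this
          linarith
    calc _ ≤ Real.sqrt ε ^ 2 := pow_le_pow_left₀ (by positivity) h3 2
      _ = ε := Real.sq_sqrt hε.le

/-- truncation from below -/
def low (L : ℝ) (w : E3 → ℝ) (x : E3) : ℝ := max (w x) (-L)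

theorem low_rad {w : E3 → ℝ} (hw : Rad w) (L : ℝ) : Rad (low L w) where
  li := by
    have h0 : LocallyIntegrable (fun x => |w x|) :=
      hw.li.mono hw.li.aestronglyMeasurable.norm (Eventually.of_forall fun x => by simp)
    have h1 : LocallyIntegrable (fun x => |w x| + |L|) := h0.add (locallyIntegrable_const _)
    refine h1.mono (hw.li.aestronglyMeasurable.sup aestronglyMeasurable_const) ?_
    refine Eventually.of_forall fun x => ?_
    unfold low
    have h2 := le_abs_self (w x)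
    have h3 := neg_abs_le (w x)
    have h4 := le_abs_self L
    have h5 := neg_abs_le L
    have h6 := abs_nonneg (w x)
    have h7 := abs_nonneg L
    rw [Real.norm_eq_abs, Real.norm_eq_abs, abs_of_nonneg (by positivity : 0 ≤ |w x| + |L|)]
    rw [abs_le]
    constructor
    · have := le_max_left (w x) (-L)
      linarith
    · exact max_le (by linarith) (by linarith)
  rad := fun x y h => by unfold low; rw [hw.rad x y h]
  mono := fun x y hx h => max_le_max (hw.mono x y hx h) le_rfl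

end Pool.Agent.Y657.EM
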